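import Mathlib

/-!
# A priori estimate for perturbed periodic orbits (linear part)
-/

open Set MeasureTheory intervalIntegral

namespace Run7.h173

variable {S : Type*} [NormedAddCommGroup S] [NormedSpace ℝ S]

/-- Grönwall with integrated forcing. -/
theorem gronwall_L1 [CompleteSpace S] {A : ℝ → S →L[ℝ] S} {R v : ℝ → S} {K T : ℝ} (hK : 0 < K)
    (hT : 0 ≤ T) (hA : ∀ t ∈ Icc (0 : ℝ) T, ‖A t‖ ≤ K) (hR : Continuous R)
    (hv : ∀ t, HasDerivAt v (A t (v t) + R t) t) (h0 : v 0 = 0) :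
    ∀ t ∈ Icc (0 : ℝ) T, ‖v t‖ ≤ Real.exp (K * T) * ∫ s in (0 : ℝ)..T, ‖R s‖ := by
  set I : ℝ := ∫ s in (0 : ℝ)..T, ‖R s‖ with hI
  have hI0 : 0 ≤ I := intervalIntegral.integral_nonneg hT (fun s _ => norm_nonneg _)
  have hprim : ∀ t, HasDerivAt (fun t => ∫ s in (0 : ℝ)..t, R s) (R t) t := fun t =>
    intervalIntegral.integral_hasDerivAt_right (hR.intervalIntegrable _ _)
      hR.aestronglyMeasurable.stronglyMeasurableAtFilter hR.continuousAt
  have hJ : ∀ t ∈ Icc (0 : ℝ) T, ‖∫ s in (0 : ℝ)..t, R s‖ ≤ I := by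
    intro t ht
    calc ‖∫ s in (0 : ℝ)..t, R s‖ ≤ ∫ s in (0 : ℝ)..t, ‖R s‖ :=
          intervalIntegral.norm_integral_le_integral_norm ht.1
      _ ≤ I := by
          apply intervalIntegral.integral_mono_interval le_rfl ht.1 ht.2
          · exact Filter.Eventually.of_forall (fun s => norm_nonneg _)
          · exact hR.norm.intervalIntegrable _ _
  set u : ℝ → S := fun t => v t - ∫ s in (0 : ℝ)..t, R s with hu
  have hu' : ∀ t, HasDerivAt u (A t (v t)) t := by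
    intro t
    have := (hv t).fun_sub (hprim t)
    simpa [hu] using this
  have hb := norm_le_gronwallBound_of_norm_deriv_right_le (f := u) (f' := fun t => A t (v t))
    (δ := 0) (K := K) (ε := K * I) (a := 0) (b := T)
    (fun t _ => (hu' t).continuousAt.continuousWithinAt)
    (fun t _ => (hu' t).hasDerivWithinAt) (by simp [hu, h0]) (by
      intro t ht
      have ht' : t ∈ Icc (0 : ℝ) T := ⟨ht.1, ht.2.le⟩
      have h1 : ‖v t‖ ≤ ‖u t‖ + I := by
        have : v t = u t + ∫ s in (0 : ℝ)..t, R s := by simp [hu]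
        calc ‖v t‖ = ‖u t + ∫ s in (0 : ℝ)..t, R s‖ := by rw [← this]
          _ ≤ ‖u t‖ + ‖∫ s in (0 : ℝ)..t, R s‖ := norm_add_le _ _
          _ ≤ ‖u t‖ + I := by gcongr; exact hJ t ht'
      calc ‖A t (v t)‖ ≤ ‖A t‖ * ‖v t‖ := (A t).le_opNorm _
        _ ≤ K * (‖u t‖ + I) := by gcongr; exact hA t ht'
        _ = K * ‖u t‖ + K * I := by ring)
  intro t ht
  have h2 := hb t ht
  rw [gronwallBound_of_K_ne_0 hK.ne'] at h2
  have h3 : K * I / K = I := by field_simp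
  simp only [zero_mul, zero_add, sub_zero, h3] at h2
  have hexp : Real.exp (K * t) ≤ Real.exp (K * T) := by
    apply Real.exp_le_exp.mpr; gcongr; exact ht.2
  calc ‖v t‖ = ‖u t + ∫ s in (0 : ℝ)..t, R s‖ := by simp [hu]
    _ ≤ ‖u t‖ + ‖∫ s in (0 : ℝ)..t, R s‖ := norm_add_le _ _
    _ ≤ I * (Real.exp (K * t) - 1) + I := by gcongr; exact hJ t ht
    _ = Real.exp (K * t) * I := by ring
    _ ≤ Real.exp (K * T) * I := by gcongr

/-- Uniqueness for linear equations (forward). -/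
theorem linear_zero [CompleteSpace S] {A : ℝ → S →L[ℝ] S} {v : ℝ → S} {K T : ℝ} (hK : 0 < K)
    (hT : 0 ≤ T) (hA : ∀ t ∈ Icc (0 : ℝ) T, ‖A t‖ ≤ K)
    (hv : ∀ t, HasDerivAt v (A t (v t)) t) (h0 : v 0 = 0) :
    ∀ t ∈ Icc (0 : ℝ) T, v t = 0 := by
  intro t ht
  have := gronwall_L1 (R := fun _ => (0 : S)) hK hT hA continuous_const (by simpa using hv) h0 t ht
  simpa using this

/-- The algebraic part: the bordered monodromy operator is bounded below. -/
theorem bordered_bound [FiniteDimensional ℝ S] (M : S →L[ℝ] S) (e₀ : S) (ℓ : S →L[ℝ] ℝ)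
    (he : M e₀ = e₀) (hℓ : ℓ e₀ = 1)
    (hs : ∀ v, M (M v - v) - (M v - v) = 0 → ∃ c : ℝ, v = c • e₀) :
    ∃ c : ℝ, 0 < c ∧ ∀ (w : S) (k : ℝ), ℓ w = 0 → ‖w‖ + |k| ≤ c * ‖M w - w + k • e₀‖ := by
  have he0 : e₀ ≠ 0 := by
    rintro rfl
    simp at hℓ
  let L : (S × ℝ) →ₗ[ℝ] (S × ℝ) :=
    { toFun := fun p => (M p.1 - p.1 + p.2 • e₀, ℓ p.1)
      map_add' := by
        intro p q
        ext
        · simp [add_smul]; abel
        · simp
      map_smul' := by
        intro r p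
        ext
        · simp [smul_sub, smul_smul]
        · simp }
  have hker : LinearMap.ker L = ⊥ := by
    rw [LinearMap.ker_eq_bot']
    rintro ⟨w, k⟩ hw
    have h1 : M w - w + k • e₀ = 0 := congrArg Prod.fst hw
    have h2 : ℓ w = 0 := congrArg Prod.snd hw
    have h3 : M w - w = -(k • e₀) := by
      rw [eq_neg_iff_add_eq_zero]; exact h1
    obtain ⟨c, hc⟩ := hs w (by rw [h3]; simp [he])
    have hc0 : c = 0 := by
      rw [hc] at h2; simpa [hℓ] using h2
    have hw0 : w = 0 := by rw [hc, hc0, zero_smul]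
    have hk : k = 0 := by
      rw [hw0] at h1
      simp at h1
      rcases h1 with h | h
      · exact h
      · exact absurd h he0
    rw [hw0, hk]; rfl
  obtain ⟨K, hK, hL⟩ := L.exists_antilipschitzWith hker
  refine ⟨2 * K, by positivity, ?_⟩
  intro w k hw
  have h := hL.le_mul_dist (w, k) 0
  rw [map_zero, dist_zero_right, dist_zero_right] at h
  have h1 : ‖L (w, k)‖ = ‖M w - w + k • e₀‖ := by
    change ‖(M w - w + k • e₀, ℓ w)‖ = _
    rw [hw, Prod.norm_def]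
    simp
  rw [h1] at h
  have h2 : ‖w‖ ≤ ‖(w, k)‖ := by rw [Prod.norm_def]; exact le_max_left _ _
  have h3 : |k| ≤ ‖(w, k)‖ := by rw [Prod.norm_def, ← Real.norm_eq_abs]; exact le_max_right _ _
  calc ‖w‖ + |k| ≤ ‖(w, k)‖ + ‖(w, k)‖ := add_le_add h2 h3
    _ ≤ K * ‖M w - w + k • e₀‖ + K * ‖M w - w + k • e₀‖ := add_le_add h h
    _ = 2 * K * ‖M w - w + k • e₀‖ := by ring

/-- Bound for periodic solutions of the linear inhomogeneous equation. -/
theorem linear_periodic_bound [FiniteDimensional ℝ S] {A : ℝ → S →L[ℝ] S} {e : ℝ → S} {T : ℝ}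
    {Φ : ℝ → S →L[ℝ] S} (hT : 0 < T) (hAc : Continuous A)
    (hΦ0 : Φ 0 = ContinuousLinearMap.id ℝ S)
    (hΦ : ∀ t, HasDerivAt Φ ((A t).comp (Φ t)) t) (he : ∀ t, HasDerivAt e (A t (e t)) t)
    (heT : e T = e 0) (ℓ : S →L[ℝ] ℝ) (hℓ : ℓ (e 0) = 1)
    (hs : ∀ v, Φ T (Φ T v - v) - (Φ T v - v) = 0 → ∃ c : ℝ, v = c • e 0) :
    ∃ C : ℝ, 0 < C ∧ ∀ (w R : ℝ → S) (k : ℝ), Continuous R →
      (∀ t, HasDerivAt w (A t (w t) + k • e t + R t) t) → w T = w 0 → ℓ (w 0) = 0 →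
      ∀ t ∈ Icc (0 : ℝ) T, ‖w t‖ + |k| ≤ C * ∫ s in (0 : ℝ)..T, ‖R s‖ := by
  have : CompleteSpace S := FiniteDimensional.complete ℝ S
  obtain ⟨K0, hK0⟩ := (isCompact_Icc (a := (0 : ℝ)) (b := T)).exists_bound_of_continuousOn
    hAc.continuousOn
  set K := max K0 1 with hKdef
  have hK : 0 < K := lt_of_lt_of_le one_pos (le_max_right _ _)
  have hA : ∀ t ∈ Icc (0 : ℝ) T, ‖A t‖ ≤ K := fun t ht => (hK0 t ht).trans (le_max_left _ _)
  have hΦc : Continuous Φ := continuous_iff_continuousAt.mpr fun t => (hΦ t).continuousAt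
  have hec : Continuous e := continuous_iff_continuousAt.mpr fun t => (he t).continuousAt
  obtain ⟨B1, hB1⟩ := (isCompact_Icc (a := (0 : ℝ)) (b := T)).exists_bound_of_continuousOn
    hΦc.continuousOn
  obtain ⟨B2, hB2⟩ := (isCompact_Icc (a := (0 : ℝ)) (b := T)).exists_bound_of_continuousOn
    hec.continuousOn
  have h0mem : (0 : ℝ) ∈ Icc (0 : ℝ) T := ⟨le_rfl, hT.le⟩
  have hTmem : T ∈ Icc (0 : ℝ) T := ⟨hT.le, le_rfl⟩
  have hB1' : 0 ≤ B1 := (norm_nonneg _).trans (hB1 0 h0mem)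
  have hB2' : 0 ≤ B2 := (norm_nonneg _).trans (hB2 0 h0mem)
  -- Φ T (e 0) = e 0
  have hΦe : ∀ t ∈ Icc (0 : ℝ) T, e t = Φ t (e 0) := by
    intro t ht
    have h := linear_zero (v := fun t => e t - Φ t (e 0)) hK hT.le hA (by
      intro t
      have h1 := (he t).fun_sub ((hΦ t).clm_apply (hasDerivAt_const t (e 0)))
      simpa using h1) (by simp [hΦ0]) t ht
    exact sub_eq_zero.mp h
  have hMe : Φ T (e 0) = e 0 := by rw [← hΦe T hTmem, heT]
  obtain ⟨c, hc, hcb⟩ := bordered_bound (Φ T) (e 0) ℓ hMe hℓ hs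
  set X := Real.exp (K * T) with hX
  have hX0 : 0 < X := Real.exp_pos _
  set c1 := c * (1 + T⁻¹) * X with hc1
  have hc1' : 0 < c1 := by positivity
  refine ⟨B1 * c1 + T * B2 * c1 + X + c1, by positivity, ?_⟩
  intro w R k hR hw hwT hw0 t ht
  set I := ∫ s in (0 : ℝ)..T, ‖R s‖ with hI
  have hI0 : 0 ≤ I := intervalIntegral.integral_nonneg hT.le (fun s _ => norm_nonneg _)
  set v : ℝ → S := fun t => w t - Φ t (w 0) - (k * t) • e t with hv
  have hv' : ∀ t, HasDerivAt v (A t (v t) + R t) t := by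
    intro t
    have h1 := ((hw t).fun_sub ((hΦ t).clm_apply (hasDerivAt_const t (w 0)))).fun_sub
      ((((hasDerivAt_id' t).const_mul k)).fun_smul (he t))
    convert h1 using 1
    simp only [hv, map_sub, map_smul, ContinuousLinearMap.comp_apply, map_zero, mul_one]
    abel
  have hv0 : v 0 = 0 := by simp [hv, hΦ0]
  have hvb := gronwall_L1 hK hT.le hA hR hv' hv0
  have hvT := hvb T hTmem
  have h4 : Φ T (w 0) - w 0 + (k * T) • e 0 = -(v T) := by
    simp only [hv, hwT, heT]; abel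
  have h5 := hcb (w 0) (k * T) hw0
  rw [h4, norm_neg] at h5
  have h6 : ‖w 0‖ ≤ c * (X * I) := by
    have : ‖w 0‖ ≤ c * ‖v T‖ := le_trans (le_add_of_nonneg_right (abs_nonneg _)) h5
    exact this.trans (by gcongr)
  have h7 : |k| ≤ T⁻¹ * (c * (X * I)) := by
    have h8 : |k * T| ≤ c * ‖v T‖ := le_trans (le_add_of_nonneg_left (norm_nonneg _)) h5
    rw [abs_mul, abs_of_pos hT] at h8
    have h9 : |k| * T ≤ c * (X * I) := h8.trans (by gcongr)
    rw [inv_mul_eq_div, le_div_iff₀ hT]; exact h9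
  have h6' : ‖w 0‖ ≤ c1 * I := by
    refine h6.trans ?_
    have : c * (X * I) = c * 1 * X * I := by ring
    rw [this, hc1]
    gcongr
    have : 0 < T⁻¹ := by positivity
    linarith
  have h7' : |k| ≤ c1 * I := by
    refine h7.trans ?_
    have : T⁻¹ * (c * (X * I)) = c * T⁻¹ * X * I := by ring
    rw [this, hc1]
    gcongr
    linarith
  have h10 : w t = v t + Φ t (w 0) + (k * t) • e t := by simp only [hv]; abel
  have h11 : ‖w t‖ ≤ X * I + B1 * (c1 * I) + (c1 * I) * T * B2 := by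
    rw [h10]
    calc ‖v t + Φ t (w 0) + (k * t) • e t‖ ≤ ‖v t‖ + ‖Φ t (w 0)‖ + ‖(k * t) • e t‖ :=
          norm_add₃_le
      _ ≤ X * I + B1 * (c1 * I) + (c1 * I) * T * B2 := by
          gcongr
          · exact hvb t ht
          · exact ((Φ t).le_opNorm _).trans (by gcongr; exact hB1 t ht)
          · rw [norm_smul, Real.norm_eq_abs, abs_mul, abs_of_nonneg ht.1]
            exact mul_le_mul (mul_le_mul h7' ht.2 ht.1 (by positivity)) (hB2 t ht)
              (norm_nonneg _) (by positivity)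
  calc ‖w t‖ + |k| ≤ (X * I + B1 * (c1 * I) + (c1 * I) * T * B2) + c1 * I := add_le_add h11 h7'
    _ = (B1 * c1 + T * B2 * c1 + X + c1) * I := by ring

end Run7.h173
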