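import Mathlib

/-!
# Selection of a bump function with small integrals along finitely many curves
-/

open Set MeasureTheory intervalIntegral

namespace Run7.h173

theorem bump_select {Q : Type*} [NormedAddCommGroup Q] [NormedSpace ℝ Q] [FiniteDimensional ℝ Q]
    (y : ℝ → Q) (hy : Continuous y) {a b : ℝ} (hab : y a ≠ y b) {ι : Type*} [Fintype ι]
    (g : ι → ℝ → Q) (hg : ∀ k, Continuous (g k)) {T θ ρ : ℝ} (hT : 0 < T) (hθ : 0 < θ)
    (hρ : 0 < ρ) :
    ∃ t ∈ uIcc a b, ∃ ψ : Q → ℝ, ContDiff ℝ 1 ψ ∧ HasCompactSupport ψ ∧ (∀ q, 0 ≤ ψ q) ∧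
      (∀ q, ψ q ≤ 1) ∧ ψ (y t) = 1 ∧ (∀ q, ρ ≤ ‖q - y t‖ → ψ q = 0) ∧
      ∑ k, ∫ s in (0 : ℝ)..T, ψ (g k s) ≤ θ := by
  set φ : ℝ → ℝ := fun t => ‖y t - y a‖ with hφ
  have hφc : Continuous φ := (hy.sub continuous_const).norm
  set D := φ b with hD
  have hD0 : 0 < D := by
    simp only [hD, hφ]
    exact norm_pos_iff.mpr (sub_ne_zero.mpr hab.symm)
  have hφa : φ a = 0 := by simp [hφ]
  obtain ⟨K0, hK0⟩ := exists_nat_gt ((Fintype.card ι : ℝ) * T / θ)
  set K : ℕ := K0 + 1 with hKdef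
  have hKpos : (0 : ℝ) < K := by simp only [hKdef]; positivity
  have hKθ : (Fintype.card ι : ℝ) * T < K * θ := by
    rw [div_lt_iff₀ hθ] at hK0
    refine hK0.trans_le ?_
    simp only [hKdef]; push_cast
    nlinarith
  -- the points
  have hex : ∀ j : Fin K, ∃ t ∈ uIcc a b, φ t = D * ((j : ℕ) + 1) / K := by
    intro j
    have h1 : D * ((j : ℕ) + 1) / K ∈ uIcc (φ a) (φ b) := by
      rw [hφa, uIcc_of_le hD0.le]
      refine ⟨by positivity, ?_⟩
      rw [div_le_iff₀ hKpos]
      have : ((j : ℕ) : ℝ) + 1 ≤ K := by exact_mod_cast j.2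
      gcongr
    obtain ⟨t, ht, h2⟩ := intermediate_value_uIcc hφc.continuousOn h1
    exact ⟨t, ht, h2⟩
  choose t ht hφt using hex
  set R := min ρ (D / (2 * K)) with hR
  have hR0 : 0 < R := by positivity
  let B : (j : Fin K) → ContDiffBump (y (t j)) := fun j =>
    { rIn := R / 2, rOut := R, rIn_pos := by positivity, rIn_lt_rOut := by linarith }
  have hsep : ∀ j k : Fin K, j ≠ k → D / K ≤ dist (y (t j)) (y (t k)) := by
    intro j k hjk
    have h1 : |φ (t j) - φ (t k)| ≤ dist (y (t j)) (y (t k)) := by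
      simp only [hφ]
      rw [dist_eq_norm]
      have := abs_norm_sub_norm_le (y (t j) - y a) (y (t k) - y a)
      simpa using this
    refine le_trans ?_ h1
    rw [hφt, hφt]
    have h2 : D * (((j : ℕ) : ℝ) + 1) / K - D * (((k : ℕ) : ℝ) + 1) / K =
        D / K * (((j : ℕ) : ℝ) - ((k : ℕ) : ℝ)) := by ring
    rw [h2, abs_mul, abs_of_pos (by positivity : (0 : ℝ) < D / K)]
    have h3 : (1 : ℝ) ≤ |((j : ℕ) : ℝ) - ((k : ℕ) : ℝ)| := by
      have h4 : (j : ℕ) ≠ (k : ℕ) := fun h => hjk (Fin.ext h)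
      have h5 : ((j : ℕ) : ℤ) - ((k : ℕ) : ℤ) ≠ 0 := by
        intro h; apply h4; omega
      have h6 : (1 : ℤ) ≤ |((j : ℕ) : ℤ) - ((k : ℕ) : ℤ)| := Int.one_le_abs h5
      exact_mod_cast h6
    calc D / K = D / K * 1 := by ring
      _ ≤ _ := by gcongr
  have hsum : ∀ q, ∑ j, (B j : Q → ℝ) q ≤ 1 := by
    intro q
    by_cases h : ∃ j, (B j : Q → ℝ) q ≠ 0
    · obtain ⟨j, hj⟩ := h
      rw [Finset.sum_eq_single j]
      · exact (B j).le_one
      · intro k _ hkj
        by_contra hk
        have h1 : dist q (y (t j)) < R := by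
          by_contra h2
          exact hj ((B j).zero_of_le_dist (not_lt.mp h2))
        have h2 : dist q (y (t k)) < R := by
          by_contra h2
          exact hk ((B k).zero_of_le_dist (not_lt.mp h2))
        have h3 := hsep k j hkj
        have h4 : dist (y (t k)) (y (t j)) < 2 * R := by
          calc dist (y (t k)) (y (t j)) ≤ dist (y (t k)) q + dist q (y (t j)) := dist_triangle _ _ _
            _ < R + R := by rw [dist_comm (y (t k)) q]; exact add_lt_add h2 h1
            _ = 2 * R := by ring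
        have h5 : 2 * R ≤ D / K := by
          have : R ≤ D / (2 * K) := min_le_right _ _
          calc 2 * R ≤ 2 * (D / (2 * K)) := by gcongr
            _ = D / K := by field_simp
        linarith
      · intro h; exact absurd (Finset.mem_univ j) h
    · push Not at h
      rw [Finset.sum_eq_zero (fun j _ => h j)]
      exact zero_le_one
  have hint : ∀ (j : Fin K) (k : ι), IntervalIntegrable (fun s => (B j : Q → ℝ) (g k s)) volume 0 T :=
    fun j k => ((B j).continuous.comp (hg k)).intervalIntegrable _ _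
  have htot : ∑ j, ∑ k, ∫ s in (0 : ℝ)..T, (B j : Q → ℝ) (g k s) ≤ Fintype.card ι * T := by
    rw [Finset.sum_comm]
    have h1 : ∀ k : ι, ∑ j, ∫ s in (0 : ℝ)..T, (B j : Q → ℝ) (g k s) ≤ T := by
      intro k
      rw [← intervalIntegral.integral_finsetSum (fun j _ => hint j k)]
      calc ∫ s in (0 : ℝ)..T, ∑ j, (B j : Q → ℝ) (g k s) ≤ ∫ s in (0 : ℝ)..T, (1 : ℝ) := by
            apply intervalIntegral.integral_mono_on hT.le
            · exact (continuous_finsetSum _ fun j _ =>
                (B j).continuous.comp (hg k)).intervalIntegrable _ _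
            · exact continuous_const.intervalIntegrable _ _
            · intro s _; exact hsum _
        _ = T := by simp
    calc ∑ k, ∑ j, ∫ s in (0 : ℝ)..T, (B j : Q → ℝ) (g k s) ≤ ∑ _k : ι, T :=
          Finset.sum_le_sum fun k _ => h1 k
      _ = Fintype.card ι * T := by simp
  obtain ⟨j, hj⟩ : ∃ j, ∑ k, ∫ s in (0 : ℝ)..T, (B j : Q → ℝ) (g k s) ≤ θ := by
    by_contra hcon
    push Not at hcon
    have h1 : ∑ _j : Fin K, θ ≤ ∑ j, ∑ k, ∫ s in (0 : ℝ)..T, (B j : Q → ℝ) (g k s) :=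
      Finset.sum_le_sum fun j _ => (hcon j).le
    simp only [Finset.sum_const, Finset.card_univ, Fintype.card_fin, nsmul_eq_mul] at h1
    linarith
  refine ⟨t j, ht j, (B j : Q → ℝ), (B j).contDiff, (B j).hasCompactSupport,
    fun q => (B j).nonneg, fun q => (B j).le_one, ?_, ?_, hj⟩
  · exact (B j).one_of_mem_closedBall (Metric.mem_closedBall_self (by positivity))
  · intro q hq
    apply (B j).zero_of_le_dist
    rw [dist_eq_norm]
    exact (min_le_left _ _).trans hq

end Run7.h173
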