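import Mathlib

/-!
# A semicontinuity / minimality lemma
-/

open Set Filter Topology

namespace Run7.h173

theorem fin_uniform {α : Type*} [Finite α] (p : α → ℝ → Prop)
    (hmono : ∀ a r s, 0 < s → s ≤ r → p a r → p a s) (h : ∀ a, ∃ r > 0, p a r) :
    ∃ r > 0, ∀ a, p a r := by
  have h1 : ∀ a, ∀ᶠ r in 𝓝[>] (0 : ℝ), p a r := by
    intro a
    obtain ⟨r, hr, hp⟩ := h a
    filter_upwards [Ioc_mem_nhdsGT hr] with s hs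
    exact hmono a r s hs.1 hs.2 hp
  have h2 : ∀ᶠ r in 𝓝[>] (0 : ℝ), ∀ a, p a r := Filter.eventually_all.mpr h1
  obtain ⟨r, hr1, hr2⟩ := (h2.and self_mem_nhdsWithin).exists
  exact ⟨r, hr2, hr1⟩

/-- Abstract balls. -/
theorem min_lemma {Ω α : Type*} [Fintype α] [DecidableEq α] (N : Ω → ℝ → Set Ω)
    (hself : ∀ ω r, 0 < r → ω ∈ N ω r)
    (hmono : ∀ ω r s, s ≤ r → N ω s ⊆ N ω r)
    (hopen : ∀ ω r ω', ω' ∈ N ω r → ∃ s > 0, N ω' s ⊆ N ω r)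
    (F : Ω → Finset α)
    (hF : ∀ ω a, a ∉ F ω → ∃ r > 0, ∀ ω' ∈ N ω r, a ∉ F ω') (ω₀ : Ω) (r₀ : ℝ) (hr₀ : 0 < r₀) :
    ∃ ω₁ ∈ N ω₀ r₀, ∃ r₁ > 0, N ω₁ r₁ ⊆ N ω₀ r₀ ∧ ∀ ω ∈ N ω₁ r₁, F ω = F ω₁ := by
  obtain ⟨ω₁, hω₁, hmin⟩ := WellFounded.has_min (measure fun ω => (F ω).card).wf (N ω₀ r₀)
    ⟨ω₀, hself ω₀ r₀ hr₀⟩
  obtain ⟨s, hs, hsub⟩ := hopen ω₀ r₀ ω₁ hω₁
  obtain ⟨r, hr, hp⟩ := fin_uniform (fun a r => a ∉ F ω₁ → ∀ ω' ∈ N ω₁ r, a ∉ F ω')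
    (fun a r s _ hsr h ha ω' hω' => h ha ω' (hmono _ _ _ hsr hω')) (by
      intro a
      by_cases ha : a ∈ F ω₁
      · exact ⟨1, one_pos, fun h => absurd ha h⟩
      · obtain ⟨r, hr, h⟩ := hF ω₁ a ha
        exact ⟨r, hr, fun _ => h⟩)
  refine ⟨ω₁, hω₁, min r s, lt_min hr hs, (hmono _ _ _ (min_le_right _ _)).trans hsub, ?_⟩
  intro ω hω
  apply Finset.eq_of_subset_of_card_le
  · intro a ha
    by_contra hna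
    exact hp a hna ω (hmono _ _ _ (min_le_left _ _) hω) ha
  · have h1 : ω ∈ N ω₀ r₀ := hsub (hmono _ _ _ (min_le_right _ _) hω)
    have h2 := hmin ω h1
    exact not_lt.mp h2

end Run7.h173
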