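import Mathlib

/-!
# Coupled cell networks, admissible vector fields, hyperbolic periodic orbits,
# rigid synchrony patterns and balanced relations.
-/

namespace Run7.h173

/-- A network: finitely many nodes and arrows, a type equivalence relation on nodes and one on
arrows, each arrow having a head and a tail; arrows of equal type have heads of equal type and
tails of equal type. -/
structure Network where
  Node : Type
  Arrow : Type
  fintypeNode : Fintype Node
  fintypeArrow : Fintype Arrow
  /-- `sameNodeType c d`: the nodes `c` and `d` have equal type. -/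
  sameNodeType : Node → Node → Prop
  sameNodeType_equiv : Equivalence sameNodeType
  /-- `sameArrowType a b`: the arrows `a` and `b` have equal type. -/
  sameArrowType : Arrow → Arrow → Prop
  sameArrowType_equiv : Equivalence sameArrowType
  head : Arrow → Node
  tail : Arrow → Node
  head_type : ∀ a b, sameArrowType a b → sameNodeType (head a) (head b)
  tail_type : ∀ a b, sameArrowType a b → sameNodeType (tail a) (tail b)

attribute [instance] Network.fintypeNode Network.fintypeArrow

/-- The input set `I(c)`: the arrows with head `c`. -/
def Network.Inputs (G : Network) (c : G.Node) : Type := {a : G.Arrow // G.head a = c}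

noncomputable instance (G : Network) (c : G.Node) : Fintype (G.Inputs c) :=
  Fintype.ofInjective (fun a : G.Inputs c => a.1) Subtype.val_injective

/-- The tail node of an input arrow. -/
def Network.src (G : Network) {c : G.Node} (a : G.Inputs c) : G.Node := G.tail a.1

/-- An input isomorphism `β : I(c) → I(d)` between nodes of equal type: a bijection
preserving arrow types. -/
structure Network.InputIso (G : Network) (c d : G.Node) where
  sameType : G.sameNodeType c d
  toEquiv : G.Inputs c ≃ G.Inputs d
  arrowType : ∀ a, G.sameArrowType a.1 (toEquiv a).1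

/-- A choice of nonzero finite-dimensional real state spaces `P c`, the same for nodes of equal
type.  They are given as subspaces of one finite-dimensional real normed space `W`. -/
structure StateSpaces (G : Network) (W : Type*) [NormedAddCommGroup W] [NormedSpace ℝ W] where
  space : G.Node → Submodule ℝ W
  same : ∀ c d, G.sameNodeType c d → space c = space d
  nonzero : ∀ c, space c ≠ ⊥

section

variable {G : Network} {W : Type*} [NormedAddCommGroup W] [NormedSpace ℝ W]
  (P : StateSpaces G W)

/-- The total state space `P = ∏_c P_c`. -/
abbrev StateSpaces.State : Type _ := (c : G.Node) → P.space c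

/-- The space `P_c × ∏_{a ∈ I(c)} P_{tail a}` of possible states of a node and of its inputs. -/
abbrev StateSpaces.Local (c : G.Node) : Type _ :=
  P.space c × ((a : G.Inputs c) → P.space (G.src a))

/-- The local state of node `c` in the total state `x`: the state of `c` and the states at the
tails of the arrows in `I(c)`. -/
def StateSpaces.localState (x : P.State) (c : G.Node) : P.Local c :=
  (x c, fun a => x (G.src a))

/-- `P.Relabel β q q'`: the local state `q'` at `d` is obtained from the local state `q` at `c` by
relabelling the tail variables by the input isomorphism `β : I(c) → I(d)`. -/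
def StateSpaces.Relabel {c d : G.Node} (β : G.InputIso c d) (q : P.Local c) (q' : P.Local d) :
    Prop :=
  (q.1 : W) = (q'.1 : W) ∧ ∀ a : G.Inputs c, (q.2 a : W) = (q'.2 (β.toEquiv a) : W)

/-- A vector field `f` on `P` is admissible if it is `C¹`, `f_c(x)` depends only on `x_c` and on
the states at the tails of the arrows in `I(c)` (this is the case `d = c`, `β = id` of the
condition), and, for every input isomorphism `β : I(c) → I(d)`, `f_d` equals `f_c` after the tail
variables are relabelled by `β`. -/
def StateSpaces.IsAdmissible (f : P.State → P.State) : Prop :=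
  ContDiff ℝ 1 f ∧
  ∀ (c d : G.Node) (β : G.InputIso c d) (x y : P.State),
    P.Relabel β (P.localState x c) (P.localState y d) → (f x c : W) = (f y d : W)

/-- A vector field `p` on `P` is strongly admissible if `p_c(x) = F_c(x_c, x_{tail a} : a ∈ I(c))`
with `C¹` functions `F_c` on the full product `P_c × ∏_{a ∈ I(c)} P_{tail a}`, and, for every input
isomorphism `β : I(c) → I(d)`, `F_d` equals `F_c` after the tail variables are relabelled by
`β`. -/
def StateSpaces.IsStronglyAdmissible (f : P.State → P.State) : Prop :=
  ∃ F : ∀ c, P.Local c → P.space c,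
    (∀ c, ContDiff ℝ 1 (F c)) ∧
    (∀ x c, f x c = F c (P.localState x c)) ∧
    (∀ c d (β : G.InputIso c d) (q : P.Local c) (q' : P.Local d),
      P.Relabel β q q' → (F c q : W) = (F d q' : W))

end

section orbits

variable {S : Type*} [NormedAddCommGroup S] [NormedSpace ℝ S]

/-- `x` is a non-constant solution of `x' = f(x)` with period `T > 0`. -/
structure IsPeriodicOrbit (f : S → S) (x : ℝ → S) (T : ℝ) : Prop where
  pos : 0 < T
  deriv : ∀ t, HasDerivAt x (f (x t)) t
  periodic : ∀ t, x (t + T) = x t
  nonconst : ∃ t, x t ≠ x 0

/-- Hyperbolicity of a `T`-periodic orbit `x` of `x' = f(x)`.  Here `Φ` is the fundamental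
solution of the variational equation `y' = Df(x(t)) y`, the Floquet multipliers are the complex
roots of the characteristic polynomial of the monodromy map `Φ(T)`; the multiplier `1` is simple
and there is no other multiplier of modulus `1`. -/
def IsHyperbolic [FiniteDimensional ℝ S] (f : S → S) (x : ℝ → S) (T : ℝ) : Prop :=
  ∃ Φ : ℝ → (S →L[ℝ] S), Φ 0 = ContinuousLinearMap.id ℝ S ∧
    (∀ t, HasDerivAt Φ ((fderiv ℝ f (x t)).comp (Φ t)) t) ∧
    (LinearMap.charpoly ((Φ T : S →L[ℝ] S) : S →ₗ[ℝ] S)).rootMultiplicity 1 = 1 ∧
    ∀ μ : ℂ, ((LinearMap.charpoly ((Φ T : S →L[ℝ] S) : S →ₗ[ℝ] S)).map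
      (algebraMap ℝ ℂ)).IsRoot μ → ‖μ‖ = 1 → μ = 1

/-- `g` is within `δ` of `f` in the uniform `C¹` sense. -/
def C1Close (f g : S → S) (δ : ℝ) : Prop :=
  ∀ y, ‖g y - f y‖ < δ ∧ ‖fderiv ℝ g y - fderiv ℝ f y‖ < δ

/-- The `S`-periodic curve `y` is within `η` of the `T`-periodic curve `x`: the periods differ by
less than `η`, and so do the curves after rescaling time to period `1`. -/
def OrbitClose (x : ℝ → S) (T : ℝ) (y : ℝ → S) (T' : ℝ) (η : ℝ) : Prop :=
  |T' - T| < η ∧ ∀ t, ‖y (T' * t) - x (T * t)‖ < η

end orbits

end Run7.h173
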