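import Mathlib
import Pool.Agent.Run7.h173.Defs

/-!
# Relabelling maps and admissible bump vector fields
-/

open Set MeasureTheory intervalIntegral

namespace Run7.h173

namespace Network.InputIso

variable {G : Network}

@[ext] theorem ext {c d : G.Node} {β γ : G.InputIso c d} (h : β.toEquiv = γ.toEquiv) : β = γ := by
  cases β; cases γ; cases h; rfl

def refl (c : G.Node) : G.InputIso c c where
  sameType := G.sameNodeType_equiv.refl c
  toEquiv := Equiv.refl _
  arrowType _ := G.sameArrowType_equiv.refl _

def symm {c d : G.Node} (β : G.InputIso c d) : G.InputIso d c where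
  sameType := G.sameNodeType_equiv.symm β.sameType
  toEquiv := β.toEquiv.symm
  arrowType a := by
    have := β.arrowType (β.toEquiv.symm a)
    rw [Equiv.apply_symm_apply] at this
    exact G.sameArrowType_equiv.symm this

def trans {c d e : G.Node} (β : G.InputIso c d) (γ : G.InputIso d e) : G.InputIso c e where
  sameType := G.sameNodeType_equiv.trans β.sameType γ.sameType
  toEquiv := β.toEquiv.trans γ.toEquiv
  arrowType a := G.sameArrowType_equiv.trans (β.arrowType a) (γ.arrowType _)

noncomputable instance (c d : G.Node) : Fintype (G.InputIso c d) := by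
  classical
  exact Fintype.ofInjective (fun β : G.InputIso c d => β.toEquiv) (fun _ _ h => ext h)

/-- Precomposition by an input isomorphism. -/
def transEquiv {c c' : G.Node} (γ : G.InputIso c c') (d : G.Node) :
    G.InputIso c' d ≃ G.InputIso c d where
  toFun β := γ.trans β
  invFun β := γ.symm.trans β
  left_inv β := by ext a; simp [trans, symm]
  right_inv β := by ext a; simp [trans, symm]

theorem src_type {c d : G.Node} (β : G.InputIso c d) (a : G.Inputs c) :
    G.sameNodeType (G.src a) (G.src (β.toEquiv a)) := G.tail_type _ _ (β.arrowType a)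

theorem src_type' {c d : G.Node} (β : G.InputIso c d) (a : G.Inputs d) :
    G.sameNodeType (G.src (β.toEquiv.symm a)) (G.src a) := by
  have := β.src_type (β.toEquiv.symm a)
  rwa [Equiv.apply_symm_apply] at this

end Network.InputIso

variable {G : Network} {W : Type*} [NormedAddCommGroup W] [NormedSpace ℝ W]
  (P : StateSpaces G W)

/-- Identification of the state spaces of nodes of equal type. -/
def StateSpaces.cast {c d : G.Node} (h : G.sameNodeType c d) : P.space c ≃ₗᵢ[ℝ] P.space d :=
  LinearIsometryEquiv.ofEq _ _ (P.same c d h)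

@[simp] theorem StateSpaces.coe_cast {c d : G.Node} (h : G.sameNodeType c d) (v : P.space c) :
    (P.cast h v : W) = v := rfl

/-- The local state as a continuous linear map. -/
def StateSpaces.localL (c : G.Node) : P.State →L[ℝ] P.Local c :=
  (ContinuousLinearMap.proj (R := ℝ) (φ := fun c => P.space c) c).prod
    (ContinuousLinearMap.pi fun a : G.Inputs c =>
      ContinuousLinearMap.proj (R := ℝ) (φ := fun c => P.space c) (G.src a))

@[simp] theorem StateSpaces.localL_apply (c : G.Node) (x : P.State) :
    P.localL c x = P.localState x c := rfl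

/-- Relabelling by an input isomorphism. -/
def StateSpaces.relabelL {c d : G.Node} (β : G.InputIso c d) : P.Local c →L[ℝ] P.Local d :=
  (((P.cast β.sameType).toContinuousLinearEquiv : P.space c →L[ℝ] P.space d).comp
      (ContinuousLinearMap.fst ℝ _ _)).prod
    (ContinuousLinearMap.pi fun a : G.Inputs d =>
      ((P.cast (β.src_type' a)).toContinuousLinearEquiv :
        P.space (G.src (β.toEquiv.symm a)) →L[ℝ] P.space (G.src a)).comp
      ((ContinuousLinearMap.proj (R := ℝ) (φ := fun a : G.Inputs c => P.space (G.src a))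
        (β.toEquiv.symm a)).comp (ContinuousLinearMap.snd ℝ _ _)))

theorem StateSpaces.relabelL_fst {c d : G.Node} (β : G.InputIso c d) (q : P.Local c) :
    ((P.relabelL β q).1 : W) = q.1 := rfl

theorem StateSpaces.relabelL_snd {c d : G.Node} (β : G.InputIso c d) (q : P.Local c)
    (a : G.Inputs d) : ((P.relabelL β q).2 a : W) = q.2 (β.toEquiv.symm a) := rfl

theorem StateSpaces.local_ext {c : G.Node} {q q' : P.Local c} (h1 : (q.1 : W) = q'.1)
    (h2 : ∀ a, (q.2 a : W) = q'.2 a) : q = q' :=
  Prod.ext (Subtype.ext h1) (funext fun a => Subtype.ext (h2 a))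

theorem StateSpaces.relabel_relabelL {c d : G.Node} (β : G.InputIso c d) (q : P.Local c) :
    P.Relabel β q (P.relabelL β q) := by
  refine ⟨rfl, fun a => ?_⟩
  rw [P.relabelL_snd]
  have h : ∀ a', a' = a → (q.2 a : W) = q.2 a' := by rintro _ rfl; rfl
  exact h _ (Equiv.symm_apply_apply _ _)

theorem StateSpaces.relabel_iff {c d : G.Node} (β : G.InputIso c d) (q : P.Local c)
    (q' : P.Local d) : P.Relabel β q q' ↔ P.relabelL β q = q' := by
  constructor
  · rintro ⟨h1, h2⟩
    refine P.local_ext h1 fun a => ?_
    rw [P.relabelL_snd, h2, Equiv.apply_symm_apply]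
  · rintro rfl
    exact P.relabel_relabelL β q

theorem StateSpaces.relabelL_refl {c : G.Node} (q : P.Local c) :
    P.relabelL (Network.InputIso.refl c) q = q := P.local_ext rfl fun _ => rfl

theorem StateSpaces.relabelL_trans {c d e : G.Node} (β : G.InputIso c d) (γ : G.InputIso d e)
    (q : P.Local c) : P.relabelL (β.trans γ) q = P.relabelL γ (P.relabelL β q) :=
  P.local_ext rfl fun _ => rfl

theorem StateSpaces.relabelL_symm {c d : G.Node} (β : G.InputIso c d) (q : P.Local c) :
    P.relabelL β.symm (P.relabelL β q) = q := by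
  refine P.local_ext rfl fun a => ?_
  rw [P.relabelL_snd, P.relabelL_snd]
  have h : ∀ a', a' = a → (q.2 a' : W) = q.2 a := by rintro _ rfl; rfl
  exact h _ (Equiv.symm_apply_apply _ _)

/-- The local form of the bump vector field. -/
noncomputable def StateSpaces.bumpLocal {d : G.Node} (ψ : P.Local d → ℝ) (v : P.space d)
    (e : G.Node) (q : P.Local e) : P.space e :=
  ∑ β : G.InputIso e d, ψ (P.relabelL β q) • P.cast (G.sameNodeType_equiv.symm β.sameType) v

/-- The bump vector field. -/
noncomputable def StateSpaces.bump {d : G.Node} (ψ : P.Local d → ℝ) (v : P.space d)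
    (y : P.State) : P.State := fun e => P.bumpLocal ψ v e (P.localState y e)

/-- The total weight of the bump at node `e`. -/
noncomputable def StateSpaces.weight {d : G.Node} (ψ : P.Local d → ℝ) (e : G.Node)
    (q : P.Local e) : ℝ := ∑ β : G.InputIso e d, ψ (P.relabelL β q)

theorem StateSpaces.coe_bumpLocal {d : G.Node} (ψ : P.Local d → ℝ) (v : P.space d)
    (e : G.Node) (q : P.Local e) :
    (P.bumpLocal ψ v e q : W) = P.weight ψ e q • (v : W) := by
  simp only [StateSpaces.bumpLocal, StateSpaces.weight, Submodule.coe_sum, Submodule.coe_smul,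
    P.coe_cast, Finset.sum_smul]

theorem StateSpaces.coe_bump {d : G.Node} (ψ : P.Local d → ℝ) (v : P.space d)
    (y : P.State) (e : G.Node) :
    (P.bump ψ v y e : W) = P.weight ψ e (P.localState y e) • (v : W) :=
  P.coe_bumpLocal ψ v e _

theorem StateSpaces.weight_relabel {d : G.Node} (ψ : P.Local d → ℝ) {c c' : G.Node}
    (γ : G.InputIso c c') (q : P.Local c) :
    P.weight ψ c' (P.relabelL γ q) = P.weight ψ c q := by
  unfold StateSpaces.weight
  rw [← Equiv.sum_comp (γ.transEquiv d)]
  refine Finset.sum_congr rfl fun β _ => ?_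
  change ψ (P.relabelL β (P.relabelL γ q)) = ψ (P.relabelL (γ.trans β) q)
  rw [P.relabelL_trans]

theorem StateSpaces.bump_admissible {d : G.Node} {ψ : P.Local d → ℝ} (hψ : ContDiff ℝ 1 ψ)
    (v : P.space d) : P.IsStronglyAdmissible (P.bump ψ v) := by
  refine ⟨P.bumpLocal ψ v, ?_, fun x c => rfl, ?_⟩
  · intro c
    unfold StateSpaces.bumpLocal
    refine ContDiff.sum fun β _ => ?_
    exact (hψ.comp (P.relabelL β).contDiff).smul contDiff_const
  · intro c c' γ q q' hq
    rw [P.relabel_iff] at hq
    rw [P.coe_bumpLocal, P.coe_bumpLocal, ← hq, P.weight_relabel]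

theorem StateSpaces.IsStronglyAdmissible.contDiff {f : P.State → P.State} (hf : P.IsStronglyAdmissible f) :
    ContDiff ℝ 1 f := by
  obtain ⟨F, hF1, hF2, -⟩ := hf
  rw [contDiff_pi]
  intro c
  have : (fun x => f x c) = fun x => F c (P.localL c x) := by
    funext x; rw [hF2]; rfl
  rw [this]
  exact (hF1 c).comp (P.localL c).contDiff

theorem StateSpaces.IsStronglyAdmissible.add {f g : P.State → P.State} (hf : P.IsStronglyAdmissible f)
    (hg : P.IsStronglyAdmissible g) : P.IsStronglyAdmissible (fun x => f x + g x) := by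
  obtain ⟨F, hF1, hF2, hF3⟩ := hf
  obtain ⟨F', hF1', hF2', hF3'⟩ := hg
  refine ⟨fun c q => F c q + F' c q, fun c => (hF1 c).add (hF1' c), ?_, ?_⟩
  · intro x c
    change f x c + g x c = _
    rw [hF2, hF2']
  · intro c d β q q' h
    rw [Submodule.coe_add, Submodule.coe_add, hF3 c d β q q' h, hF3' c d β q q' h]

theorem StateSpaces.IsStronglyAdmissible.smul {f : P.State → P.State} (hf : P.IsStronglyAdmissible f) (r : ℝ) :
    P.IsStronglyAdmissible (fun x => r • f x) := by
  obtain ⟨F, hF1, hF2, hF3⟩ := hf
  refine ⟨fun c q => r • F c q, fun c => (hF1 c).const_smul r, ?_, ?_⟩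
  · intro x c
    change r • f x c = _
    rw [hF2]
  · intro c d β q q' h
    rw [Submodule.coe_smul, Submodule.coe_smul, hF3 c d β q q' h]

/-- Values of an admissible vector field at related local states agree. -/
theorem StateSpaces.IsStronglyAdmissible.eq_of_relabel {f : P.State → P.State} (hf : P.IsStronglyAdmissible f)
    {c d : G.Node} (β : G.InputIso c d) {x y : P.State}
    (h : P.Relabel β (P.localState x c) (P.localState y d)) : (f x c : W) = f y d := by
  obtain ⟨F, -, hF2, hF3⟩ := hf
  rw [hF2, hF2]
  exact hF3 c d β _ _ h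

/-- Strong admissibility implies admissibility. -/
theorem StateSpaces.IsStronglyAdmissible.admissible {f : P.State → P.State}
    (hf : P.IsStronglyAdmissible f) : P.IsAdmissible f :=
  ⟨StateSpaces.IsStronglyAdmissible.contDiff P hf, fun _ _ β _ _ h =>
    StateSpaces.IsStronglyAdmissible.eq_of_relabel P hf β h⟩

theorem StateSpaces.IsAdmissible.add {f g : P.State → P.State} (hf : P.IsAdmissible f)
    (hg : P.IsAdmissible g) : P.IsAdmissible (fun x => f x + g x) := by
  refine ⟨hf.1.add hg.1, fun c d β x y h => ?_⟩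
  change ((f x c + g x c : P.space c) : W) = ((f y d + g y d : P.space d) : W)
  rw [Submodule.coe_add, Submodule.coe_add, hf.2 c d β x y h, hg.2 c d β x y h]

theorem StateSpaces.norm_bump_le {d : G.Node} {ψ : P.Local d → ℝ} (hψ : ∀ q, 0 ≤ ψ q)
    (v : P.space d) (y : P.State) :
    ‖P.bump ψ v y‖ ≤ ‖v‖ * ∑ k : (Σ e, G.InputIso e d), ψ (P.relabelL k.2 (P.localState y k.1)) := by
  have hsum : 0 ≤ ∑ k : (Σ e, G.InputIso e d), ψ (P.relabelL k.2 (P.localState y k.1)) :=
    Finset.sum_nonneg fun _ _ => hψ _
  rw [pi_norm_le_iff_of_nonneg (by positivity)]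
  intro e
  have h1 : ‖P.bump ψ v y e‖ = ‖(P.bump ψ v y e : W)‖ := rfl
  have hw : 0 ≤ P.weight ψ e (P.localState y e) := Finset.sum_nonneg fun _ _ => hψ _
  rw [h1, P.coe_bump, norm_smul, Real.norm_eq_abs, abs_of_nonneg hw, mul_comm]
  have h2 : ‖(v : W)‖ = ‖v‖ := rfl
  rw [h2]
  gcongr
  rw [Fintype.sum_sigma]
  exact Finset.single_le_sum (f := fun e => ∑ β : G.InputIso e d,
    ψ (P.relabelL β (P.localState y e))) (fun _ _ => Finset.sum_nonneg fun _ _ => hψ _)
    (Finset.mem_univ e)

end Run7.h173
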