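import Mathlib
import Pool.Agent.Run7.h173.Apriori

/-!
# A priori estimate for perturbed periodic orbits (nonlinear part)
-/

open Set MeasureTheory intervalIntegral

namespace Run7.h173

variable {S : Type*} [NormedAddCommGroup S] [NormedSpace ℝ S]

/-- `g` is `C¹` and within `δ` of `f` in the uniform `C¹` sense. -/
structure NearC1 (f g : S → S) (δ : ℝ) : Prop where
  contDiff : ContDiff ℝ 1 g
  near : ∀ y, ‖g y - f y‖ ≤ δ
  nearD : ∀ y, ‖fderiv ℝ g y - fderiv ℝ f y‖ ≤ δ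

theorem NearC1.mono {f g : S → S} {δ δ' : ℝ} (h : NearC1 f g δ) (hd : δ ≤ δ') : NearC1 f g δ' :=
  ⟨h.contDiff, fun y => (h.near y).trans hd, fun y => (h.nearD y).trans hd⟩

/-- Normalised periodic orbits near `x`. -/
structure NOrb (x : ℝ → S) (T η : ℝ) (ℓ : S →L[ℝ] ℝ) (g : S → S) (z : ℝ → S) (κ : ℝ) :
    Prop where
  deriv : ∀ t, HasDerivAt z ((1 + κ) • g (z t)) t
  per : ∀ t, z (t + T) = z t
  close : ∀ t, ‖z t - x t‖ ≤ η
  kap : |κ| ≤ η
  phase : ℓ (z 0 - x 0) = 0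

theorem NOrb.mono {x : ℝ → S} {T η η' : ℝ} {ℓ : S →L[ℝ] ℝ} {g : S → S} {z : ℝ → S} {κ : ℝ}
    (h : NOrb x T η ℓ g z κ) (hd : η ≤ η') : NOrb x T η' ℓ g z κ :=
  ⟨h.deriv, h.per, fun t => (h.close t).trans hd, h.kap.trans hd, h.phase⟩

theorem NOrb.continuous {x : ℝ → S} {T η : ℝ} {ℓ : S →L[ℝ] ℝ} {g : S → S} {z : ℝ → S} {κ : ℝ}
    (h : NOrb x T η ℓ g z κ) : Continuous z :=
  continuous_iff_continuousAt.mpr fun t => (h.deriv t).continuousAt

/-- The a priori estimate. -/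
theorem apriori [FiniteDimensional ℝ S] {f : S → S} {x : ℝ → S} {T : ℝ} (hT : 0 < T)
    (hf : ContDiff ℝ 1 f) (hx : ∀ t, HasDerivAt x (f (x t)) t) (hper : ∀ t, x (t + T) = x t)
    {Φ : ℝ → S →L[ℝ] S} (hΦ0 : Φ 0 = ContinuousLinearMap.id ℝ S)
    (hΦ : ∀ t, HasDerivAt Φ ((fderiv ℝ f (x t)).comp (Φ t)) t)
    (ℓ : S →L[ℝ] ℝ) (hℓ : ℓ (f (x 0)) = 1)
    (hs : ∀ v, Φ T (Φ T v - v) - (Φ T v - v) = 0 → ∃ c : ℝ, v = c • f (x 0)) :
    ∃ C L η₀ : ℝ, 0 < C ∧ 0 < L ∧ 0 < η₀ ∧ η₀ ≤ 1 / 2 ∧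
      (∀ g, NearC1 f g η₀ → ∀ t y₁ y₂, ‖y₁ - x t‖ ≤ η₀ → ‖y₂ - x t‖ ≤ η₀ →
        ‖g y₂ - g y₁‖ ≤ L * ‖y₂ - y₁‖) ∧
      (∀ g₁ g₂ z₁ z₂ κ₁ κ₂, NearC1 f g₁ η₀ → NearC1 f g₂ η₀ → NOrb x T η₀ ℓ g₁ z₁ κ₁ →
        NOrb x T η₀ ℓ g₂ z₂ κ₂ →
        ∀ t, ‖z₂ t - z₁ t‖ + |κ₂ - κ₁| ≤ C * ∫ s in (0 : ℝ)..T, ‖g₂ (z₂ s) - g₁ (z₂ s)‖) := by
  have hxc : Continuous x := continuous_iff_continuousAt.mpr fun t => (hx t).continuousAt
  have hDf : Continuous (fderiv ℝ f) := hf.continuous_fderiv one_ne_zero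
  have hfd : Differentiable ℝ f := hf.differentiable one_ne_zero
  set A : ℝ → S →L[ℝ] S := fun t => fderiv ℝ f (x t) with hA
  have hAc : Continuous A := hDf.comp hxc
  set e : ℝ → S := fun t => f (x t) with he
  have hec : Continuous e := hf.continuous.comp hxc
  have he' : ∀ t, HasDerivAt e (A t (e t)) t := fun t =>
    (hfd (x t)).hasFDerivAt.comp_hasDerivAt t (hx t)
  have heT : e T = e 0 := by simp only [he]; rw [← hper 0, zero_add]
  obtain ⟨C0, hC0, hlin⟩ := linear_periodic_bound hT hAc hΦ0 hΦ he' heT ℓ hℓ hs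
  -- compact orbit
  have hcomp : IsCompact (x '' Icc 0 T) := isCompact_Icc.image hxc
  have hmem : ∀ t, x t ∈ x '' Icc 0 T := by
    intro t
    obtain ⟨s, hs1, hs2⟩ := Function.Periodic.exists_mem_Ico₀ (f := x) (c := T) hper hT t
    exact ⟨s, ⟨hs1.1, hs1.2.le⟩, hs2.symm⟩
  obtain ⟨K0, hK0⟩ := hcomp.exists_bound_of_continuousOn hDf.continuousOn
  set K := max K0 1 with hKdef
  have hK1 : 1 ≤ K := le_max_right _ _
  have hK : ∀ t, ‖A t‖ ≤ K := fun t => (hK0 _ (hmem t)).trans (le_max_left _ _)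
  set ε := min (1 / (16 * C0 * T)) 1 with hε
  have hε0 : 0 < ε := by positivity
  have hε1 : ε ≤ 1 := min_le_right _ _
  have hε2 : C0 * T * ε ≤ 1 / 16 := by
    have : ε ≤ 1 / (16 * C0 * T) := min_le_left _ _
    calc C0 * T * ε ≤ C0 * T * (1 / (16 * C0 * T)) := by gcongr
      _ = 1 / 16 := by field_simp
  -- modulus of continuity
  obtain ⟨η1, hη1, hmod⟩ : ∃ η1 > 0, ∀ t y, ‖y - x t‖ ≤ η1 →
      ‖fderiv ℝ f y - A t‖ ≤ ε := by
    have h := hcomp.uniformContinuousAt_of_continuousAt (fderiv ℝ f)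
      (fun a _ => hDf.continuousAt) (Metric.dist_mem_uniformity hε0)
    obtain ⟨η, hη, h2⟩ := Metric.mem_uniformity_dist.mp h
    refine ⟨η / 2, by positivity, ?_⟩
    intro t y hy
    have h3 : dist (x t) y < η := by
      rw [dist_comm, dist_eq_norm]; linarith
    have h4 := h2 h3 (hmem t)
    have h5 : dist (fderiv ℝ f (x t)) (fderiv ℝ f y) < ε := h4
    rw [dist_comm, dist_eq_norm] at h5
    exact h5.le
  set η₀ := min (min η1 (1 / 2)) (1 / (16 * C0 * T * (K + 2))) with hη₀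
  have hη₀0 : 0 < η₀ := by positivity
  have hη₀1 : η₀ ≤ η1 := (min_le_left _ _).trans (min_le_left _ _)
  have hη₀2 : η₀ ≤ 1 / 2 := (min_le_left _ _).trans (min_le_right _ _)
  have hη₀3 : C0 * T * (η₀ * (K + 2)) ≤ 1 / 16 := by
    have : η₀ ≤ 1 / (16 * C0 * T * (K + 2)) := min_le_right _ _
    calc C0 * T * (η₀ * (K + 2)) ≤ C0 * T * (1 / (16 * C0 * T * (K + 2)) * (K + 2)) := by gcongr
      _ = 1 / 16 := by field_simp
  -- key local estimate
  have hloc : ∀ g, NearC1 f g η₀ → ∀ t y₁ y₂, ‖y₁ - x t‖ ≤ η₀ → ‖y₂ - x t‖ ≤ η₀ →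
      ‖g y₂ - g y₁ - A t (y₂ - y₁)‖ ≤ (ε + η₀) * ‖y₂ - y₁‖ := by
    intro g hg t y₁ y₂ h1 h2
    have hconv : Convex ℝ (Metric.closedBall (x t) η₀) := convex_closedBall _ _
    refine hconv.norm_image_sub_le_of_norm_fderiv_le' (𝕜 := ℝ) (f := g)
      (fun y _ => (hg.contDiff.differentiable one_ne_zero) y) ?_ ?_ ?_
    · intro y hy
      rw [mem_closedBall_iff_norm] at hy
      calc ‖fderiv ℝ g y - A t‖ = ‖(fderiv ℝ f y - A t) + (fderiv ℝ g y - fderiv ℝ f y)‖ := by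
            congr 1; abel
        _ ≤ ‖fderiv ℝ f y - A t‖ + ‖fderiv ℝ g y - fderiv ℝ f y‖ := norm_add_le _ _
        _ ≤ ε + η₀ := add_le_add (hmod t y (hy.trans hη₀1)) (hg.nearD y)
    · rwa [mem_closedBall_iff_norm]
    · rwa [mem_closedBall_iff_norm]
  refine ⟨4 * C0, K + 2, η₀, by positivity, by positivity, hη₀0, hη₀2, ?_, ?_⟩
  · intro g hg t y₁ y₂ h1 h2
    have h3 := hloc g hg t y₁ y₂ h1 h2
    calc ‖g y₂ - g y₁‖ = ‖(g y₂ - g y₁ - A t (y₂ - y₁)) + A t (y₂ - y₁)‖ := by congr 1; abel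
      _ ≤ ‖g y₂ - g y₁ - A t (y₂ - y₁)‖ + ‖A t (y₂ - y₁)‖ := norm_add_le _ _
      _ ≤ (ε + η₀) * ‖y₂ - y₁‖ + K * ‖y₂ - y₁‖ := by
          gcongr
          exact ((A t).le_opNorm _).trans (by gcongr; exact hK t)
      _ = (ε + η₀ + K) * ‖y₂ - y₁‖ := by ring
      _ ≤ (K + 2) * ‖y₂ - y₁‖ := mul_le_mul_of_nonneg_right (by linarith) (norm_nonneg _)
  · intro g₁ g₂ z₁ z₂ κ₁ κ₂ hg₁ hg₂ hz₁ hz₂
    have hz₁c := hz₁.continuous
    have hz₂c := hz₂.continuous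
    have hg₁c := hg₁.contDiff.continuous
    have hg₂c := hg₂.contDiff.continuous
    set G := ∫ s in (0 : ℝ)..T, ‖g₂ (z₂ s) - g₁ (z₂ s)‖ with hG
    set w : ℝ → S := fun t => z₂ t - z₁ t with hw
    set k := κ₂ - κ₁ with hk
    set R : ℝ → S := fun t => (1 + κ₂) • g₂ (z₂ t) - (1 + κ₁) • g₁ (z₁ t) - A t (w t) - k • e t
      with hR
    have hwc : Continuous w := hz₂c.sub hz₁c
    have hRc : Continuous R := by
      have h1 : Continuous fun t => A t (w t) := hAc.clm_apply hwc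
      have h2 : Continuous fun t => g₂ (z₂ t) := hg₂c.comp hz₂c
      have h3 : Continuous fun t => g₁ (z₁ t) := hg₁c.comp hz₁c
      exact (((h2.const_smul _).sub (h3.const_smul _)).sub h1).sub (hec.const_smul _)
    have hw' : ∀ t, HasDerivAt w (A t (w t) + k • e t + R t) t := by
      intro t
      have h1 := (hz₂.deriv t).fun_sub (hz₁.deriv t)
      convert h1 using 1
      simp only [hR]; abel
    have hwT : w T = w 0 := by
      have h1 := hz₁.per 0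
      have h2 := hz₂.per 0
      rw [zero_add] at h1 h2
      simp only [hw, h1, h2]
    have hw0 : ℓ (w 0) = 0 := by
      have h1 := hz₁.phase
      have h2 := hz₂.phase
      have h3 : w 0 = (z₂ 0 - x 0) - (z₁ 0 - x 0) := by simp only [hw]; abel
      rw [h3, map_sub, h1, h2, sub_zero]
    have hmain := hlin w R k hRc hw' hwT hw0
    -- maximum of ‖w‖ on [0,T]
    obtain ⟨tm, htm, hmax⟩ := isCompact_Icc.exists_isMaxOn
      (⟨0, ⟨le_rfl, hT.le⟩⟩ : (Icc (0 : ℝ) T).Nonempty) hwc.norm.continuousOn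
    have hmax' : ∀ t ∈ Icc (0 : ℝ) T, ‖w t‖ ≤ ‖w tm‖ := fun t ht => hmax ht
    set m := ‖w tm‖ with hm
    have hm0 : 0 ≤ m := norm_nonneg _
    have hκ₂ : |κ₂| ≤ η₀ := hz₂.kap
    have hκ₂' : |κ₂| ≤ 1 / 2 := hκ₂.trans hη₀2
    have hRb : ∀ t ∈ Icc (0 : ℝ) T, ‖R t‖ ≤ 2 * ‖g₂ (z₂ t) - g₁ (z₂ t)‖ +
        ((2 * (ε + η₀) + η₀ * K) * m + |k| * (η₀ * (K + 2 + 1))) := by
      intro t ht
      have hdec : R t = (1 + κ₂) • (g₂ (z₂ t) - g₁ (z₂ t)) +
          (1 + κ₂) • (g₁ (z₂ t) - g₁ (z₁ t) - A t (z₂ t - z₁ t)) + κ₂ • A t (w t) +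
          k • (g₁ (z₁ t) - e t) := by
        simp only [hR, hk, hw, map_sub]
        module
      have h1k : ‖(1 + κ₂ : ℝ)‖ ≤ 2 := by
        rw [Real.norm_eq_abs]
        calc |1 + κ₂| ≤ |1| + |κ₂| := abs_add_le _ _
          _ ≤ 2 := by rw [abs_one]; linarith
      have ha : ‖g₁ (z₂ t) - g₁ (z₁ t) - A t (z₂ t - z₁ t)‖ ≤ (ε + η₀) * m := by
        refine (hloc g₁ hg₁ t (z₁ t) (z₂ t) (hz₁.close t) (hz₂.close t)).trans ?_
        gcongr
        exact hmax' t ht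
      have hb : ‖A t (w t)‖ ≤ K * m :=
        ((A t).le_opNorm _).trans (mul_le_mul (hK t) (hmax' t ht) (norm_nonneg _) (by positivity))
      have hc : ‖g₁ (z₁ t) - e t‖ ≤ η₀ * (K + 2 + 1) := by
        have h3 := hloc f ⟨hf, fun y => by simpa using hη₀0.le, fun y => by simpa using hη₀0.le⟩ t
          (x t) (z₁ t) (by simpa using hη₀0.le) (hz₁.close t)
        calc ‖g₁ (z₁ t) - e t‖ = ‖(g₁ (z₁ t) - f (z₁ t)) +
              (f (z₁ t) - f (x t) - A t (z₁ t - x t)) + A t (z₁ t - x t)‖ := by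
              congr 1; simp only [he]; abel
          _ ≤ ‖g₁ (z₁ t) - f (z₁ t)‖ + ‖f (z₁ t) - f (x t) - A t (z₁ t - x t)‖ +
              ‖A t (z₁ t - x t)‖ := norm_add₃_le
          _ ≤ η₀ + (ε + η₀) * ‖z₁ t - x t‖ + K * ‖z₁ t - x t‖ := by
              gcongr
              · exact hg₁.near _
              · exact ((A t).le_opNorm _).trans (by gcongr; exact hK t)
          _ ≤ η₀ + (ε + η₀) * η₀ + K * η₀ := by
              have := hz₁.close t
              gcongr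
          _ ≤ η₀ * (K + 2 + 1) := by nlinarith
      calc ‖R t‖ ≤ ‖(1 + κ₂) • (g₂ (z₂ t) - g₁ (z₂ t))‖ +
            ‖(1 + κ₂) • (g₁ (z₂ t) - g₁ (z₁ t) - A t (z₂ t - z₁ t))‖ + ‖κ₂ • A t (w t)‖ +
            ‖k • (g₁ (z₁ t) - e t)‖ := by
            rw [hdec]
            refine (norm_add_le _ _).trans ?_
            gcongr
            exact norm_add₃_le
        _ ≤ 2 * ‖g₂ (z₂ t) - g₁ (z₂ t)‖ + 2 * ((ε + η₀) * m) + η₀ * (K * m) +
            |k| * (η₀ * (K + 2 + 1)) := by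
            rw [norm_smul, norm_smul, norm_smul, norm_smul, Real.norm_eq_abs κ₂,
              Real.norm_eq_abs k]
            gcongr
        _ = 2 * ‖g₂ (z₂ t) - g₁ (z₂ t)‖ +
            ((2 * (ε + η₀) + η₀ * K) * m + |k| * (η₀ * (K + 2 + 1))) := by ring
    have hint : ∫ s in (0 : ℝ)..T, ‖R s‖ ≤ 2 * G +
        T * ((2 * (ε + η₀) + η₀ * K) * m + |k| * (η₀ * (K + 2 + 1))) := by
      have hgc : Continuous fun t => ‖g₂ (z₂ t) - g₁ (z₂ t)‖ :=
        ((hg₂c.comp hz₂c).sub (hg₁c.comp hz₂c)).norm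
      calc ∫ s in (0 : ℝ)..T, ‖R s‖ ≤ ∫ s in (0 : ℝ)..T, (2 * ‖g₂ (z₂ s) - g₁ (z₂ s)‖ +
            ((2 * (ε + η₀) + η₀ * K) * m + |k| * (η₀ * (K + 2 + 1)))) := by
            apply intervalIntegral.integral_mono_on hT.le
            · exact hRc.norm.intervalIntegrable _ _
            · exact ((hgc.const_mul _).add continuous_const).intervalIntegrable _ _
            · exact hRb
        _ = 2 * G + T * ((2 * (ε + η₀) + η₀ * K) * m + |k| * (η₀ * (K + 2 + 1))) := by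
            rw [intervalIntegral.integral_add ((hgc.const_mul _).intervalIntegrable _ _)
              (continuous_const.intervalIntegrable _ _), intervalIntegral.integral_const_mul,
              intervalIntegral.integral_const]
            simp [hG]
    have hfin := hmain tm htm
    have hG0 : 0 ≤ G := intervalIntegral.integral_nonneg hT.le (fun s _ => norm_nonneg _)
    have hk0 : 0 ≤ |k| := abs_nonneg k
    have hfin2 : m + |k| ≤ 2 * C0 * G + (1 / 2) * (m + |k|) := by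
      have h1 : m + |k| ≤ C0 * (2 * G +
          T * ((2 * (ε + η₀) + η₀ * K) * m + |k| * (η₀ * (K + 2 + 1)))) :=
        hfin.trans (by gcongr)
      have h2 : C0 * T * (2 * (ε + η₀) + η₀ * K) ≤ 1 / 2 := by
        have : C0 * T * (2 * (ε + η₀) + η₀ * K) = 2 * (C0 * T * ε) + C0 * T * (η₀ * (K + 2)) := by
          ring
        rw [this]; linarith
      have h3 : C0 * T * (η₀ * (K + 2 + 1)) ≤ 1 / 2 := by
        have h4 : C0 * T * (η₀ * (K + 2 + 1)) ≤ 2 * (C0 * T * (η₀ * (K + 2))) := by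
          have : 0 < C0 * T * η₀ := by positivity
          nlinarith
        linarith
      calc m + |k| ≤ C0 * (2 * G +
          T * ((2 * (ε + η₀) + η₀ * K) * m + |k| * (η₀ * (K + 2 + 1)))) := h1
        _ = 2 * C0 * G + (C0 * T * (2 * (ε + η₀) + η₀ * K)) * m +
            (C0 * T * (η₀ * (K + 2 + 1))) * |k| := by ring
        _ ≤ 2 * C0 * G + (1 / 2) * m + (1 / 2) * |k| := by gcongr
        _ = 2 * C0 * G + (1 / 2) * (m + |k|) := by ring
    have hfin3 : m + |k| ≤ 4 * C0 * G := by linarith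
    intro t
    obtain ⟨s, hs1, hs2⟩ := Function.Periodic.exists_mem_Ico₀ (f := w) (c := T)
      (fun t => by simp only [hw, hz₁.per, hz₂.per]) hT t
    have h5 : ‖w t‖ ≤ m := by rw [hs2]; exact hmax' s ⟨hs1.1, hs1.2.le⟩
    linarith

end Run7.h173
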