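import Mathlib
import Pool.Agent.Run7.h173.Nonlin
import Pool.Agent.Run7.h173.NetBump
import Pool.Agent.Run7.h173.MinLemma

/-!
# Families of perturbed orbits: continuity and response
-/

open Set MeasureTheory intervalIntegral Filter Topology

namespace Run7.h173

section ball

variable {S : Type*} [NormedAddCommGroup S] [NormedSpace ℝ S]

/-- `g` is at `C¹` distance less than `r` from `g₁`. -/
def Ball (g₁ : S → S) (r : ℝ) (g : S → S) : Prop := ∃ r' < r, NearC1 g₁ g r'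

theorem Ball.contDiff {g₁ g : S → S} {r : ℝ} (h : Ball g₁ r g) : ContDiff ℝ 1 g := by
  obtain ⟨_, _, h⟩ := h
  exact h.contDiff

theorem Ball.near {g₁ g : S → S} {r : ℝ} (h : Ball g₁ r g) (y : S) : ‖g y - g₁ y‖ ≤ r := by
  obtain ⟨_, hr, h⟩ := h
  exact (h.near y).trans hr.le

theorem ball_self {g : S → S} (hg : ContDiff ℝ 1 g) {r : ℝ} (hr : 0 < r) : Ball g r g :=
  ⟨0, hr, hg, fun y => by simp, fun y => by simp⟩

theorem Ball.mono {g₁ g : S → S} {r s : ℝ} (h : Ball g₁ r g) (hrs : r ≤ s) : Ball g₁ s g := by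
  obtain ⟨r', hr, h⟩ := h
  exact ⟨r', hr.trans_le hrs, h⟩

theorem Ball.open {g₁ g : S → S} {r : ℝ} (h : Ball g₁ r g) :
    ∃ s > 0, ∀ k, Ball g s k → Ball g₁ r k := by
  obtain ⟨r', hr, h⟩ := h
  refine ⟨r - r', by linarith, ?_⟩
  rintro k ⟨s', hs', hk⟩
  refine ⟨r' + s', by linarith, hk.contDiff, fun y => ?_, fun y => ?_⟩
  · calc ‖k y - g₁ y‖ = ‖(g y - g₁ y) + (k y - g y)‖ := by congr 1; abel
      _ ≤ ‖g y - g₁ y‖ + ‖k y - g y‖ := norm_add_le _ _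
      _ ≤ r' + s' := add_le_add (h.near y) (hk.near y)
  · calc ‖fderiv ℝ k y - fderiv ℝ g₁ y‖
        = ‖(fderiv ℝ g y - fderiv ℝ g₁ y) + (fderiv ℝ k y - fderiv ℝ g y)‖ := by congr 1; abel
      _ ≤ ‖fderiv ℝ g y - fderiv ℝ g₁ y‖ + ‖fderiv ℝ k y - fderiv ℝ g y‖ := norm_add_le _ _
      _ ≤ r' + s' := add_le_add (h.nearD y) (hk.nearD y)

/-- A perturbation `g + ε p` with `p` bounded and Lipschitz is close to `g`. -/
theorem ball_perturb {g p : S → S} (hg : ContDiff ℝ 1 g) (hp : ContDiff ℝ 1 p) {b : ℝ}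
    (hb : ∀ y, ‖p y‖ ≤ b) (hb' : ∀ y y', ‖p y - p y'‖ ≤ b * ‖y - y'‖) {ε r : ℝ} (hε : 0 ≤ ε)
    (hr : ε * b < r) : Ball g r (fun y => g y + ε • p y) := by
  have hb0 : 0 ≤ b := (norm_nonneg _).trans (hb 0)
  refine ⟨ε * b, hr, hg.add (hp.const_smul ε), fun y => ?_, fun y => ?_⟩
  · rw [add_sub_cancel_left, norm_smul, Real.norm_eq_abs, abs_of_nonneg hε]
    gcongr
    exact hb y
  · have h1 : fderiv ℝ (fun y => g y + ε • p y) y = fderiv ℝ g y + ε • fderiv ℝ p y := by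
      have h2 := ((hg.differentiable one_ne_zero) y).hasFDerivAt
      have h3 := (((hp.differentiable one_ne_zero) y).hasFDerivAt).const_smul ε
      exact (h2.add h3).fderiv
    rw [h1, add_sub_cancel_left, norm_smul, Real.norm_eq_abs, abs_of_nonneg hε]
    gcongr
    have hlip : LipschitzWith ⟨b, hb0⟩ p := by
      refine LipschitzWith.of_dist_le_mul fun y y' => ?_
      rw [dist_eq_norm, dist_eq_norm]
      exact hb' y y'
    exact norm_fderiv_le_of_lipschitz ℝ hlip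

end ball

variable {G : Network} {W : Type*} [NormedAddCommGroup W] [NormedSpace ℝ W]

/-- A family of normalised perturbed orbits, with its a priori estimates. -/
structure OrbitFamily (P : StateSpaces G W) where
  f : P.State → P.State
  /-- the class of vector fields considered -/
  adm : (P.State → P.State) → Prop
  hf : adm f
  adm_add : ∀ (g p : P.State → P.State) (ε : ℝ), adm g → P.IsStronglyAdmissible p →
    adm (fun y => g y + ε • p y)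
  adm_ok : ∀ g, adm g → P.IsAdmissible g
  T : ℝ
  δ : ℝ
  C : ℝ
  L : ℝ
  hT : 0 < T
  hδ : 0 < δ
  hC : 0 < C
  hL : 0 < L
  z : (P.State → P.State) → ℝ → P.State
  κ : (P.State → P.State) → ℝ
  deriv : ∀ g, adm g → Ball f δ g →
    ∀ t, HasDerivAt (z g) ((1 + κ g) • g (z g t)) t
  kap : ∀ g, adm g → Ball f δ g → |κ g| ≤ 1 / 2
  lip : ∀ g g', adm g → Ball f δ g → adm g' → Ball f δ g' →
    ∀ t, ‖g (z g' t) - g (z g t)‖ ≤ L * ‖z g' t - z g t‖
  est : ∀ g g', adm g → Ball f δ g → adm g' → Ball f δ g' →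
    ∀ t, ‖z g' t - z g t‖ ≤ C * ∫ s in (0 : ℝ)..T, ‖g' (z g' s) - g (z g' s)‖

namespace OrbitFamily

variable {P : StateSpaces G W} (Φ : OrbitFamily P)

/-- The admissible vector fields near `f`. -/
def U (g : P.State → P.State) : Prop := Φ.adm g ∧ Ball Φ.f Φ.δ g

variable {Φ}

theorem U.contDiff {g : P.State → P.State} (hg : Φ.U g) : ContDiff ℝ 1 g := hg.2.contDiff

theorem U.continuous_z {g : P.State → P.State} (hg : Φ.U g) : Continuous (Φ.z g) :=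
  continuous_iff_continuousAt.mpr fun t => (Φ.deriv g hg.1 hg.2 t).continuousAt

theorem crude {g g' : P.State → P.State} (hg : Φ.U g) (hg' : Φ.U g') {r : ℝ}
    (h : ∀ y, ‖g' y - g y‖ ≤ r) (t : ℝ) : ‖Φ.z g' t - Φ.z g t‖ ≤ Φ.C * (Φ.T * r) := by
  refine (Φ.est g g' hg.1 hg.2 hg'.1 hg'.2 t).trans ?_
  have hC := Φ.hC
  gcongr
  have hc : Continuous fun s => ‖g' (Φ.z g' s) - g (Φ.z g' s)‖ :=
    ((hg'.contDiff.continuous.comp hg'.continuous_z).sub
      (hg.contDiff.continuous.comp hg'.continuous_z)).norm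
  calc ∫ s in (0 : ℝ)..Φ.T, ‖g' (Φ.z g' s) - g (Φ.z g' s)‖ ≤ ∫ s in (0 : ℝ)..Φ.T, r := by
        apply intervalIntegral.integral_mono_on Φ.hT.le (hc.intervalIntegrable _ _)
          (continuous_const.intervalIntegrable _ _)
        intro s _
        exact h _
    _ = Φ.T * r := by simp

theorem cont {g₁ : P.State → P.State} (h₁ : Φ.U g₁) (t₁ : ℝ) {ε : ℝ} (hε : 0 < ε) :
    ∃ r > 0, ∀ g t, Φ.U g → Ball g₁ r g → |t - t₁| < r →
      ‖Φ.z g t - Φ.z g₁ t₁‖ < ε ∧ ‖g (Φ.z g t) - g₁ (Φ.z g₁ t₁)‖ < ε := by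
  have hC := Φ.hC
  have hT := Φ.hT
  have hL := Φ.hL
  have hc1 : ContinuousAt (Φ.z g₁) t₁ := h₁.continuous_z.continuousAt
  have hc2 : ContinuousAt (fun t => g₁ (Φ.z g₁ t)) t₁ :=
    (h₁.contDiff.continuous.comp h₁.continuous_z).continuousAt
  obtain ⟨r1, hr1, h1⟩ := Metric.continuousAt_iff.mp hc1 (ε / 2) (by positivity)
  obtain ⟨r2, hr2, h2⟩ := Metric.continuousAt_iff.mp hc2 (ε / 2) (by positivity)
  set M := 1 + Φ.C * Φ.T + Φ.L * (Φ.C * Φ.T) with hM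
  have hM0 : 0 < M := by positivity
  refine ⟨min (min r1 r2) (ε / (2 * M)), by positivity, ?_⟩
  intro g t hg hb ht
  have ht1 : dist t t₁ < r1 := by
    rw [Real.dist_eq]; exact ht.trans_le ((min_le_left _ _).trans (min_le_left _ _))
  have ht2 : dist t t₁ < r2 := by
    rw [Real.dist_eq]; exact ht.trans_le ((min_le_left _ _).trans (min_le_right _ _))
  have hb' : ∀ y, ‖g y - g₁ y‖ ≤ ε / (2 * M) := fun y => (hb.near y).trans (min_le_right _ _)
  have h3 := crude h₁ hg hb' t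
  have h4 := h1 ht1
  have h5 := h2 ht2
  rw [dist_eq_norm] at h4 h5
  have he : ε / (2 * M) * M = ε / 2 := by field_simp
  have he0 : 0 < ε / (2 * M) := by positivity
  have h6 : Φ.C * (Φ.T * (ε / (2 * M))) ≤ ε / 2 := by
    calc Φ.C * (Φ.T * (ε / (2 * M))) = ε / (2 * M) * (Φ.C * Φ.T) := by ring
      _ ≤ ε / (2 * M) * M := by
          gcongr
          rw [hM]
          have : 0 < Φ.L * (Φ.C * Φ.T) := by positivity
          linarith
      _ = ε / 2 := he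
  constructor
  · calc ‖Φ.z g t - Φ.z g₁ t₁‖ = ‖(Φ.z g t - Φ.z g₁ t) + (Φ.z g₁ t - Φ.z g₁ t₁)‖ := by
          congr 1; abel
      _ ≤ ‖Φ.z g t - Φ.z g₁ t‖ + ‖Φ.z g₁ t - Φ.z g₁ t₁‖ := norm_add_le _ _
      _ < ε / 2 + ε / 2 := add_lt_add_of_le_of_lt (h3.trans h6) h4
      _ = ε := by ring
  · have h7 := Φ.lip g₁ g h₁.1 h₁.2 hg.1 hg.2 t
    calc ‖g (Φ.z g t) - g₁ (Φ.z g₁ t₁)‖ = ‖(g (Φ.z g t) - g₁ (Φ.z g t)) +
          (g₁ (Φ.z g t) - g₁ (Φ.z g₁ t)) + (g₁ (Φ.z g₁ t) - g₁ (Φ.z g₁ t₁))‖ := by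
          congr 1; abel
      _ ≤ ‖g (Φ.z g t) - g₁ (Φ.z g t)‖ + ‖g₁ (Φ.z g t) - g₁ (Φ.z g₁ t)‖ +
          ‖g₁ (Φ.z g₁ t) - g₁ (Φ.z g₁ t₁)‖ := norm_add₃_le
      _ < (ε / (2 * M) + Φ.L * (Φ.C * (Φ.T * (ε / (2 * M))))) + ε / 2 := by
          refine add_lt_add_of_le_of_lt (add_le_add (hb' _) (h7.trans ?_)) h5
          gcongr
      _ = ε / (2 * M) * (1 + Φ.L * (Φ.C * Φ.T)) + ε / 2 := by ring
      _ ≤ ε / (2 * M) * M + ε / 2 := by
          gcongr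
          rw [hM]
          have : 0 < Φ.C * Φ.T := by positivity
          linarith
      _ = ε := by rw [he]; ring

/-- Response to a small multiple of a perturbation whose integral along the orbit is small. -/
theorem resp {g₁ p : P.State → P.State} (h₁ : Φ.U g₁) (hp : P.IsStronglyAdmissible p) {b : ℝ}
    (hb : ∀ y, ‖p y‖ ≤ b) (hb' : ∀ y y', ‖p y - p y'‖ ≤ b * ‖y - y'‖) {θ r : ℝ} (hr : 0 < r)
    (hθ : ∫ s in (0 : ℝ)..Φ.T, ‖p (Φ.z g₁ s)‖ < θ) :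
    ∃ ε₀ > 0, ∀ ε, 0 < ε → ε < ε₀ → Φ.U (fun y => g₁ y + ε • p y) ∧
      Ball g₁ r (fun y => g₁ y + ε • p y) ∧
      ∀ t, ‖Φ.z (fun y => g₁ y + ε • p y) t - Φ.z g₁ t‖ ≤ Φ.C * θ * ε := by
  have hC := Φ.hC
  have hT := Φ.hT
  have hb0 : 0 ≤ b := (norm_nonneg _).trans (hb 0)
  obtain ⟨s, hs, hsub⟩ := h₁.2.open
  set I := ∫ s in (0 : ℝ)..Φ.T, ‖p (Φ.z g₁ s)‖ with hI
  have hpc : Continuous p := (StateSpaces.IsStronglyAdmissible.contDiff P hp).continuous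
  -- choice of ε₀
  refine ⟨min (min s r / (b + 1)) ((θ - I) / (Φ.T * b * (Φ.C * (Φ.T * b)) + 1)), ?_, ?_⟩
  · have : 0 < θ - I := by linarith
    positivity
  intro ε hε hε₀
  have hε1 : ε < min s r / (b + 1) := hε₀.trans_le (min_le_left _ _)
  have hε2 : ε < (θ - I) / (Φ.T * b * (Φ.C * (Φ.T * b)) + 1) := hε₀.trans_le (min_le_right _ _)
  have hεb : ε * b < min s r := by
    rw [lt_div_iff₀ (by positivity)] at hε1
    nlinarith
  have hball : Ball g₁ (min s r) (fun y => g₁ y + ε • p y) :=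
    ball_perturb h₁.contDiff (StateSpaces.IsStronglyAdmissible.contDiff P hp) hb hb' hε.le hεb
  have hU : Φ.U (fun y => g₁ y + ε • p y) :=
    ⟨Φ.adm_add g₁ p ε h₁.1 hp,
      hsub _ (hball.mono (min_le_left _ _))⟩
  refine ⟨hU, hball.mono (min_le_right _ _), ?_⟩
  set g₂ : P.State → P.State := fun y => g₁ y + ε • p y with hg₂
  have hdiff : ∀ y, g₂ y - g₁ y = ε • p y := fun y => by simp [hg₂]
  have hcr : ∀ t, ‖Φ.z g₂ t - Φ.z g₁ t‖ ≤ Φ.C * (Φ.T * (ε * b)) := by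
    apply crude h₁ hU
    intro y
    rw [hdiff, norm_smul, Real.norm_eq_abs, abs_of_pos hε]
    gcongr
    exact hb y
  have hc1 : Continuous fun s => ‖p (Φ.z g₁ s)‖ := (hpc.comp h₁.continuous_z).norm
  have hc2 : Continuous fun s => ‖p (Φ.z g₂ s)‖ := (hpc.comp hU.continuous_z).norm
  have hint : ∫ s in (0 : ℝ)..Φ.T, ‖p (Φ.z g₂ s)‖ ≤ θ := by
    calc ∫ s in (0 : ℝ)..Φ.T, ‖p (Φ.z g₂ s)‖
        ≤ ∫ s in (0 : ℝ)..Φ.T, (‖p (Φ.z g₁ s)‖ + b * (Φ.C * (Φ.T * (ε * b)))) := by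
          apply intervalIntegral.integral_mono_on hT.le (hc2.intervalIntegrable _ _)
            ((hc1.add continuous_const).intervalIntegrable _ _)
          intro s _
          calc ‖p (Φ.z g₂ s)‖ = ‖p (Φ.z g₁ s) + (p (Φ.z g₂ s) - p (Φ.z g₁ s))‖ := by
                congr 1; abel
            _ ≤ ‖p (Φ.z g₁ s)‖ + ‖p (Φ.z g₂ s) - p (Φ.z g₁ s)‖ := norm_add_le _ _
            _ ≤ ‖p (Φ.z g₁ s)‖ + b * (Φ.C * (Φ.T * (ε * b))) :=
                add_le_add le_rfl ((hb' _ _).trans (mul_le_mul_of_nonneg_left (hcr s) hb0))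
      _ = I + Φ.T * (b * (Φ.C * (Φ.T * (ε * b)))) := by
          rw [intervalIntegral.integral_add (hc1.intervalIntegrable _ _)
            (continuous_const.intervalIntegrable _ _), intervalIntegral.integral_const]
          simp [hI]
      _ = I + ε * (Φ.T * b * (Φ.C * (Φ.T * b))) := by ring
      _ ≤ θ := by
          rw [lt_div_iff₀ (by positivity)] at hε2
          nlinarith
  intro t
  refine (Φ.est g₁ g₂ h₁.1 h₁.2 hU.1 hU.2 t).trans ?_
  have h3 : ∫ s in (0 : ℝ)..Φ.T, ‖g₂ (Φ.z g₂ s) - g₁ (Φ.z g₂ s)‖ =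
      ε * ∫ s in (0 : ℝ)..Φ.T, ‖p (Φ.z g₂ s)‖ := by
    rw [← intervalIntegral.integral_const_mul]
    congr 1
    funext s
    rw [hdiff, norm_smul, Real.norm_eq_abs, abs_of_pos hε]
  rw [h3]
  calc Φ.C * (ε * ∫ s in (0 : ℝ)..Φ.T, ‖p (Φ.z g₂ s)‖) ≤ Φ.C * (ε * θ) := by gcongr
    _ = Φ.C * θ * ε := by ring

end OrbitFamily

end Run7.h173
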