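import Mathlib
import Pool.Agent.Run7.h173.Family
import Pool.Agent.Run7.h173.BumpSel

/-!
# Core argument, part 1: good base point, moving nodes
-/

open Set MeasureTheory intervalIntegral Filter Topology

namespace Run7.h173

variable {G : Network} {W : Type*} [NormedAddCommGroup W] [NormedSpace ℝ W]

theorem StateSpaces.bump_bounds (P : StateSpaces G W) {d : G.Node} {ψ : P.Local d → ℝ}
    (hψ : ContDiff ℝ 1 ψ) (hψc : HasCompactSupport ψ) (hψ0 : ∀ q, 0 ≤ ψ q) (hψ1 : ∀ q, ψ q ≤ 1)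
    (v : P.space d) :
    ∃ b, (∀ y, ‖P.bump ψ v y‖ ≤ b) ∧ ∀ y y', ‖P.bump ψ v y - P.bump ψ v y'‖ ≤ b * ‖y - y'‖ := by
  obtain ⟨Cψ, hCψ⟩ := ContDiff.lipschitzWith_of_hasCompactSupport hψc hψ one_ne_zero
  set Λ : (Σ e, G.InputIso e d) → ℝ := fun k => Cψ * ‖(P.relabelL k.2).comp (P.localL k.1)‖ with hΛ
  have hΛ0 : ∀ k, 0 ≤ Λ k := fun k => by positivity
  have hlip : ∀ (k : Σ e, G.InputIso e d) (y y' : P.State),
      |ψ (P.relabelL k.2 (P.localState y k.1)) - ψ (P.relabelL k.2 (P.localState y' k.1))| ≤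
        Λ k * ‖y - y'‖ := by
    intro k y y'
    have h1 := hCψ.dist_le_mul (P.relabelL k.2 (P.localState y k.1))
      (P.relabelL k.2 (P.localState y' k.1))
    rw [Real.dist_eq, dist_eq_norm] at h1
    refine h1.trans ?_
    have h2 : P.relabelL k.2 (P.localState y k.1) - P.relabelL k.2 (P.localState y' k.1) =
        ((P.relabelL k.2).comp (P.localL k.1)) (y - y') := by
      rw [map_sub]; rfl
    rw [h2, hΛ]
    simp only
    rw [mul_assoc]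
    gcongr
    exact ContinuousLinearMap.le_opNorm _ _
  refine ⟨‖v‖ * (Fintype.card (Σ e, G.InputIso e d)) + ‖v‖ * ∑ k, Λ k, fun y => ?_,
    fun y y' => ?_⟩
  · refine (P.norm_bump_le hψ0 v y).trans ?_
    have h1 : ∑ k : (Σ e, G.InputIso e d), ψ (P.relabelL k.2 (P.localState y k.1)) ≤
        Fintype.card (Σ e, G.InputIso e d) := by
      calc _ ≤ ∑ _k : (Σ e, G.InputIso e d), (1 : ℝ) := Finset.sum_le_sum fun _ _ => hψ1 _
        _ = _ := by simp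
    have h2 : 0 ≤ ‖v‖ * ∑ k, Λ k := mul_nonneg (norm_nonneg _) (Finset.sum_nonneg fun k _ => hΛ0 k)
    have h3 := mul_le_mul_of_nonneg_left h1 (norm_nonneg v)
    linarith
  · have hS : 0 ≤ ∑ k, Λ k := Finset.sum_nonneg fun k _ => hΛ0 k
    have hN : 0 ≤ ‖v‖ * (Fintype.card (Σ e, G.InputIso e d) : ℝ) := by positivity
    have key : ‖P.bump ψ v y - P.bump ψ v y'‖ ≤ (‖v‖ * ∑ k, Λ k) * ‖y - y'‖ := by
      rw [pi_norm_le_iff_of_nonneg (by positivity)]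
      intro e
      have h1 : ‖(P.bump ψ v y - P.bump ψ v y') e‖ =
          ‖(P.bump ψ v y e : W) - (P.bump ψ v y' e : W)‖ := rfl
      rw [h1, P.coe_bump, P.coe_bump, ← sub_smul, norm_smul, Real.norm_eq_abs]
      have h2 : ‖(v : W)‖ = ‖v‖ := rfl
      rw [h2]
      have h3 : |P.weight ψ e (P.localState y e) - P.weight ψ e (P.localState y' e)| ≤
          (∑ k, Λ k) * ‖y - y'‖ := by
        unfold StateSpaces.weight
        rw [← Finset.sum_sub_distrib]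
        calc |∑ β : G.InputIso e d, (ψ (P.relabelL β (P.localState y e)) -
              ψ (P.relabelL β (P.localState y' e)))|
            ≤ ∑ β : G.InputIso e d, |ψ (P.relabelL β (P.localState y e)) -
              ψ (P.relabelL β (P.localState y' e))| := Finset.abs_sum_le_sum_abs _ _
          _ ≤ ∑ β : G.InputIso e d, Λ ⟨e, β⟩ * ‖y - y'‖ :=
              Finset.sum_le_sum fun β _ => hlip ⟨e, β⟩ y y'
          _ = (∑ β : G.InputIso e d, Λ ⟨e, β⟩) * ‖y - y'‖ := by rw [Finset.sum_mul]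
          _ ≤ (∑ k, Λ k) * ‖y - y'‖ := by
              gcongr
              rw [Fintype.sum_sigma]
              exact Finset.single_le_sum (f := fun e => ∑ β : G.InputIso e d, Λ ⟨e, β⟩)
                (fun _ _ => Finset.sum_nonneg fun _ _ => hΛ0 _) (Finset.mem_univ e)
      calc |P.weight ψ e (P.localState y e) - P.weight ψ e (P.localState y' e)| * ‖v‖
          ≤ ((∑ k, Λ k) * ‖y - y'‖) * ‖v‖ := by gcongr
        _ = ‖v‖ * (∑ k, Λ k) * ‖y - y'‖ := by ring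
    refine key.trans ?_
    gcongr
    linarith

namespace OrbitFamily

variable {P : StateSpaces G W} {Φ : OrbitFamily P}

/-- A base point near which the equality pattern and the set of resting nodes are constant. -/
theorem good_base (Φ : OrbitFamily P) (cmp : G.Node → G.Node → Prop) :
    ∃ g₁ t₁ r₁, Φ.U g₁ ∧ 0 < r₁ ∧ ∀ g t, Φ.U g → Ball g₁ r₁ g → |t - t₁| < r₁ →
      (∀ i j, cmp i j → ((Φ.z g t i : W) = Φ.z g t j ↔ (Φ.z g₁ t₁ i : W) = Φ.z g₁ t₁ j)) ∧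
      (∀ i, g (Φ.z g t) i = 0 ↔ g₁ (Φ.z g₁ t₁) i = 0) := by
  classical
  let Ω := {p : (P.State → P.State) × ℝ // Φ.U p.1}
  let N : Ω → ℝ → Set Ω := fun ω r => {ω' | Ball ω.1.1 r ω'.1.1 ∧ |ω'.1.2 - ω.1.2| < r}
  let Q : Ω → (G.Node × G.Node) ⊕ G.Node → Prop := fun ω s =>
    Sum.elim (fun ij => cmp ij.1 ij.2 ∧ (Φ.z ω.1.1 ω.1.2 ij.1 : W) = Φ.z ω.1.1 ω.1.2 ij.2)
      (fun i => ω.1.1 (Φ.z ω.1.1 ω.1.2) i = 0) s
  let F : Ω → Finset ((G.Node × G.Node) ⊕ G.Node) := fun ω => Finset.univ.filter (Q ω)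
  have hf0 : Φ.U Φ.f := ⟨Φ.hf, ball_self (Φ.adm_ok _ Φ.hf).1 Φ.hδ⟩
  obtain ⟨ω₁, -, r₁, hr₁, -, hF⟩ := min_lemma N
    (fun ω r hr => ⟨ball_self ω.2.contDiff hr, by simpa using hr⟩)
    (fun ω r s hsr ω' h => ⟨h.1.mono hsr, h.2.trans_le hsr⟩)
    (by
      intro ω r ω' h
      obtain ⟨s, hs, hsub⟩ := h.1.open
      refine ⟨min s (r - |ω'.1.2 - ω.1.2|), lt_min hs (by linarith [h.2]), ?_⟩
      intro ω'' h'
      refine ⟨hsub _ (h'.1.mono (min_le_left _ _)), ?_⟩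
      have h1 : |ω''.1.2 - ω'.1.2| < r - |ω'.1.2 - ω.1.2| := h'.2.trans_le (min_le_right _ _)
      have h2 := abs_sub_le ω''.1.2 ω'.1.2 ω.1.2
      linarith)
    F
    (by
      intro ω s hs
      simp only [F, Finset.mem_filter, Finset.mem_univ, true_and] at hs ⊢
      rcases s with ⟨i, j⟩ | i
      · by_cases hc : cmp i j
        · have hne : (Φ.z ω.1.1 ω.1.2 i : W) ≠ Φ.z ω.1.1 ω.1.2 j := fun h => hs ⟨hc, h⟩
          have hpos : 0 < ‖(Φ.z ω.1.1 ω.1.2 i : W) - Φ.z ω.1.1 ω.1.2 j‖ :=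
            norm_pos_iff.mpr (sub_ne_zero.mpr hne)
          obtain ⟨r, hr, hcont⟩ := cont ω.2 ω.1.2 (half_pos hpos)
          refine ⟨r, hr, ?_⟩
          intro ω' h' hQ
          have hQ2 : (Φ.z ω'.1.1 ω'.1.2 i : W) = Φ.z ω'.1.1 ω'.1.2 j := hQ.2
          have h3 := (hcont ω'.1.1 ω'.1.2 ω'.2 h'.1 h'.2).1
          have hi : ‖(Φ.z ω'.1.1 ω'.1.2 i : W) - Φ.z ω.1.1 ω.1.2 i‖ ≤
              ‖Φ.z ω'.1.1 ω'.1.2 - Φ.z ω.1.1 ω.1.2‖ :=
            norm_le_pi_norm (Φ.z ω'.1.1 ω'.1.2 - Φ.z ω.1.1 ω.1.2) i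
          have hj : ‖(Φ.z ω'.1.1 ω'.1.2 j : W) - Φ.z ω.1.1 ω.1.2 j‖ ≤
              ‖Φ.z ω'.1.1 ω'.1.2 - Φ.z ω.1.1 ω.1.2‖ :=
            norm_le_pi_norm (Φ.z ω'.1.1 ω'.1.2 - Φ.z ω.1.1 ω.1.2) j
          have h4 : (Φ.z ω.1.1 ω.1.2 i : W) - Φ.z ω.1.1 ω.1.2 j =
              ((Φ.z ω'.1.1 ω'.1.2 j : W) - Φ.z ω.1.1 ω.1.2 j) -
              ((Φ.z ω'.1.1 ω'.1.2 i : W) - Φ.z ω.1.1 ω.1.2 i) := by rw [hQ2]; abel
          have h5 : ‖(Φ.z ω.1.1 ω.1.2 i : W) - Φ.z ω.1.1 ω.1.2 j‖ ≤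
              ‖(Φ.z ω'.1.1 ω'.1.2 j : W) - Φ.z ω.1.1 ω.1.2 j‖ +
              ‖(Φ.z ω'.1.1 ω'.1.2 i : W) - Φ.z ω.1.1 ω.1.2 i‖ := by
            rw [h4]; exact norm_sub_le _ _
          linarith
        · exact ⟨1, one_pos, fun ω' _ hQ => hc hQ.1⟩
      · have hne : ω.1.1 (Φ.z ω.1.1 ω.1.2) i ≠ 0 := hs
        obtain ⟨r, hr, hcont⟩ := cont ω.2 ω.1.2 (norm_pos_iff.mpr hne)
        refine ⟨r, hr, ?_⟩
        intro ω' h' hQ
        have hQ2 : ω'.1.1 (Φ.z ω'.1.1 ω'.1.2) i = 0 := hQ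
        have h3 := (hcont ω'.1.1 ω'.1.2 ω'.2 h'.1 h'.2).2
        have hi : ‖ω'.1.1 (Φ.z ω'.1.1 ω'.1.2) i - ω.1.1 (Φ.z ω.1.1 ω.1.2) i‖ ≤
            ‖ω'.1.1 (Φ.z ω'.1.1 ω'.1.2) - ω.1.1 (Φ.z ω.1.1 ω.1.2)‖ :=
          norm_le_pi_norm (ω'.1.1 (Φ.z ω'.1.1 ω'.1.2) - ω.1.1 (Φ.z ω.1.1 ω.1.2)) i
        rw [hQ2, zero_sub, norm_neg] at hi
        linarith)
    ⟨(Φ.f, 0), hf0⟩ 1 one_pos
  refine ⟨ω₁.1.1, ω₁.1.2, r₁, ω₁.2, hr₁, ?_⟩
  intro g t hg hb ht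
  have h1 : F ⟨(g, t), hg⟩ = F ω₁ := hF ⟨(g, t), hg⟩ ⟨hb, ht⟩
  have h2 : ∀ s, Q ⟨(g, t), hg⟩ s ↔ Q ω₁ s := by
    intro s
    have : s ∈ F ⟨(g, t), hg⟩ ↔ s ∈ F ω₁ := by rw [h1]
    simpa [F] using this
  constructor
  · intro i j hc
    have := h2 (Sum.inl (i, j))
    simp only [Q, Sum.elim_inl, hc, true_and] at this
    exact this
  · intro i
    exact h2 (Sum.inr i)

end OrbitFamily

end Run7.h173
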