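import Mathlib
import Pool.Agent.Run7.h173.Core1

/-!
# Core argument, part 2: response and jump lemmas
-/

open Set MeasureTheory intervalIntegral Filter Topology

namespace Run7.h173

variable {G : Network} {W : Type*} [NormedAddCommGroup W] [NormedSpace ℝ W]

namespace OrbitFamily

variable {P : StateSpaces G W} {Φ : OrbitFamily P}

/-- Response to a perturbation, with control of all first-order errors. -/
theorem resp_lim {g₁ p : P.State → P.State} (h₁ : Φ.U g₁) (hp : P.IsStronglyAdmissible p) {b : ℝ}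
    (hb : ∀ y, ‖p y‖ ≤ b) (hb' : ∀ y y', ‖p y - p y'‖ ≤ b * ‖y - y'‖) {θ r : ℝ} (hr : 0 < r)
    (hθ : ∫ s in (0 : ℝ)..Φ.T, ‖p (Φ.z g₁ s)‖ < θ) (t' : ℝ) {η : ℝ} (hη : 0 < η) :
    ∃ ε > 0, Φ.U (fun y => g₁ y + ε • p y) ∧ Ball g₁ r (fun y => g₁ y + ε • p y) ∧
      (∀ t, ‖Φ.z (fun y => g₁ y + ε • p y) t - Φ.z g₁ t‖ ≤ Φ.C * θ * ε) ∧
      (∀ t, ‖p (Φ.z (fun y => g₁ y + ε • p y) t) - p (Φ.z g₁ t)‖ ≤ η) ∧
      ‖g₁ (Φ.z (fun y => g₁ y + ε • p y) t') - g₁ (Φ.z g₁ t') -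
        fderiv ℝ g₁ (Φ.z g₁ t') (Φ.z (fun y => g₁ y + ε • p y) t' - Φ.z g₁ t')‖ ≤ η * ε := by
  have hC := Φ.hC
  have hT := Φ.hT
  have hb0 : 0 ≤ b := (norm_nonneg _).trans (hb 0)
  have hθ0 : 0 < θ := by
    refine lt_of_le_of_lt ?_ hθ
    apply intervalIntegral.integral_nonneg hT.le
    intro s _
    exact norm_nonneg _
  obtain ⟨ε₀, hε₀, hresp⟩ := resp h₁ hp hb hb' hr hθ
  have hd : HasFDerivAt g₁ (fderiv ℝ g₁ (Φ.z g₁ t')) (Φ.z g₁ t') :=
    ((h₁.contDiff.differentiable one_ne_zero) _).hasFDerivAt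
  have hlo := hd.isLittleO
  rw [Asymptotics.isLittleO_iff] at hlo
  have hc : 0 < η / (Φ.C * θ) := by positivity
  have hev := hlo hc
  rw [Metric.eventually_nhds_iff] at hev
  obtain ⟨δ', hδ', hev⟩ := hev
  set ε := min (ε₀ / 2) (min (η / (b * (Φ.C * θ) + 1)) (δ' / (2 * (Φ.C * θ)))) with hε
  have hε0 : 0 < ε := by positivity
  have hε1 : ε < ε₀ := (min_le_left _ _).trans_lt (by linarith)
  have hε2 : ε ≤ η / (b * (Φ.C * θ) + 1) := (min_le_right _ _).trans (min_le_left _ _)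
  have hε3 : ε ≤ δ' / (2 * (Φ.C * θ)) := (min_le_right _ _).trans (min_le_right _ _)
  obtain ⟨hU, hB, hz⟩ := hresp ε hε0 hε1
  refine ⟨ε, hε0, hU, hB, hz, fun t => ?_, ?_⟩
  · refine (hb' _ _).trans ?_
    calc b * ‖Φ.z (fun y => g₁ y + ε • p y) t - Φ.z g₁ t‖ ≤ b * (Φ.C * θ * ε) := by
          gcongr
          exact hz t
      _ = (b * (Φ.C * θ)) * ε := by ring
      _ ≤ (b * (Φ.C * θ) + 1) * ε := by gcongr; linarith
      _ ≤ (b * (Φ.C * θ) + 1) * (η / (b * (Φ.C * θ) + 1)) := by gcongr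
      _ = η := by field_simp
  · have h1 : dist (Φ.z (fun y => g₁ y + ε • p y) t') (Φ.z g₁ t') < δ' := by
      rw [dist_eq_norm]
      refine (hz t').trans_lt ?_
      calc Φ.C * θ * ε ≤ Φ.C * θ * (δ' / (2 * (Φ.C * θ))) := by gcongr
        _ = δ' / 2 := by field_simp
        _ < δ' := by linarith
    refine (hev h1).trans ?_
    calc η / (Φ.C * θ) * ‖Φ.z (fun y => g₁ y + ε • p y) t' - Φ.z g₁ t'‖
        ≤ η / (Φ.C * θ) * (Φ.C * θ * ε) := by
          gcongr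
          exact hz t'
      _ = η * ε := by field_simp

variable [FiniteDimensional ℝ W]

/-- A perturbation with small influence on the orbit but large value at one point of it. -/
theorem jump {g₁ : P.State → P.State} (h₁ : Φ.U g₁) {d : G.Node} {a b : ℝ}
    (hab : P.localState (Φ.z g₁ a) d ≠ P.localState (Φ.z g₁ b) d) (v : P.space d)
    {θ ρ r η : ℝ} (hθ : 0 < θ) (hρ : 0 < ρ) (hr : 0 < r) (hη : 0 < η) :
    ∃ t ∈ uIcc a b, ∃ (p : P.State → P.State) (g₂ : P.State → P.State) (ε : ℝ), 0 < ε ∧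
      (∀ y, g₂ y = g₁ y + ε • p y) ∧ Φ.U g₂ ∧ Ball g₁ r g₂ ∧
      (∀ t, ‖Φ.z g₂ t - Φ.z g₁ t‖ ≤ Φ.C * θ * ε) ∧
      (∀ t, ‖p (Φ.z g₂ t) - p (Φ.z g₁ t)‖ ≤ η) ∧
      ‖v‖ ≤ ‖p (Φ.z g₁ t) d‖ ∧
      ∀ e, (∀ β : G.InputIso e d,
        ρ ≤ ‖P.relabelL β (P.localState (Φ.z g₁ t) e) - P.localState (Φ.z g₁ t) d‖) →
        p (Φ.z g₁ t) e = 0 := by
  have hT := Φ.hT
  have hzc := h₁.continuous_z
  have hθ₀ : 0 < θ / (‖v‖ + 1) := by positivity
  obtain ⟨t, ht, ψ, hψ, hψc, hψ0, hψ1, hψt, hψz, hψi⟩ := bump_select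
    (fun s => P.localState (Φ.z g₁ s) d) ((P.localL d).continuous.comp hzc) hab
    (fun (k : Σ e, G.InputIso e d) s => P.relabelL k.2 (P.localState (Φ.z g₁ s) k.1))
    (fun k => (P.relabelL k.2).continuous.comp ((P.localL k.1).continuous.comp hzc))
    hT hθ₀ hρ
  obtain ⟨b', hb1, hb2⟩ := P.bump_bounds hψ hψc hψ0 hψ1 v
  have hpa := P.bump_admissible hψ v
  have hpc : Continuous (P.bump ψ v) := (StateSpaces.IsStronglyAdmissible.contDiff P hpa).continuous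
  have hint : ∫ s in (0 : ℝ)..Φ.T, ‖P.bump ψ v (Φ.z g₁ s)‖ < θ := by
    have hck : ∀ k : (Σ e, G.InputIso e d), Continuous fun s =>
        ψ (P.relabelL k.2 (P.localState (Φ.z g₁ s) k.1)) := fun k =>
      hψ.continuous.comp ((P.relabelL k.2).continuous.comp ((P.localL k.1).continuous.comp hzc))
    have h1 : ∫ s in (0 : ℝ)..Φ.T, ‖P.bump ψ v (Φ.z g₁ s)‖ ≤
        ∫ s in (0 : ℝ)..Φ.T, ‖v‖ * ∑ k : (Σ e, G.InputIso e d),
          ψ (P.relabelL k.2 (P.localState (Φ.z g₁ s) k.1)) := by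
      apply intervalIntegral.integral_mono_on hT.le
      · exact (hpc.comp hzc).norm.intervalIntegrable _ _
      · exact (continuous_const.mul (continuous_finsetSum _ fun k _ => hck k)).intervalIntegrable _ _
      · intro s _
        exact P.norm_bump_le hψ0 v _
    have h2 : ∫ s in (0 : ℝ)..Φ.T, ‖v‖ * ∑ k : (Σ e, G.InputIso e d),
          ψ (P.relabelL k.2 (P.localState (Φ.z g₁ s) k.1)) =
        ‖v‖ * ∑ k : (Σ e, G.InputIso e d), ∫ s in (0 : ℝ)..Φ.T,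
          ψ (P.relabelL k.2 (P.localState (Φ.z g₁ s) k.1)) := by
      rw [intervalIntegral.integral_const_mul,
        intervalIntegral.integral_finsetSum fun k _ => (hck k).intervalIntegrable _ _]
    rw [h2] at h1
    refine h1.trans_lt ?_
    calc ‖v‖ * ∑ k : (Σ e, G.InputIso e d), ∫ s in (0 : ℝ)..Φ.T,
          ψ (P.relabelL k.2 (P.localState (Φ.z g₁ s) k.1)) ≤ ‖v‖ * (θ / (‖v‖ + 1)) := by gcongr
      _ < (‖v‖ + 1) * (θ / (‖v‖ + 1)) := by gcongr; linarith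
      _ = θ := by
        have : ‖v‖ + 1 ≠ 0 := by positivity
        field_simp
  obtain ⟨ε, hε, hU, hB, hz, hpz, -⟩ := resp_lim h₁ hpa hb1 hb2 hr hint 0 hη
  refine ⟨t, ht, P.bump ψ v, _, ε, hε, fun y => rfl, hU, hB, hz, hpz, ?_, ?_⟩
  · have h1 : ‖P.bump ψ v (Φ.z g₁ t) d‖ = ‖(P.bump ψ v (Φ.z g₁ t) d : W)‖ := rfl
    rw [h1, P.coe_bump, norm_smul]
    have h2 : (1 : ℝ) ≤ P.weight ψ d (P.localState (Φ.z g₁ t) d) := by
      unfold StateSpaces.weight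
      have h3 : ψ (P.relabelL (Network.InputIso.refl d) (P.localState (Φ.z g₁ t) d)) = 1 := by
        rw [P.relabelL_refl]; exact hψt
      rw [← h3]
      exact Finset.single_le_sum (f := fun β : G.InputIso d d =>
        ψ (P.relabelL β (P.localState (Φ.z g₁ t) d))) (fun _ _ => hψ0 _) (Finset.mem_univ _)
    have h4 : (1 : ℝ) ≤ ‖P.weight ψ d (P.localState (Φ.z g₁ t) d)‖ := h2.trans (le_abs_self _)
    have h5 : ‖(v : W)‖ = ‖v‖ := rfl
    rw [h5]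
    calc ‖v‖ = 1 * ‖v‖ := by ring
      _ ≤ _ := by gcongr
  · intro e he
    apply Subtype.ext
    rw [P.coe_bump]
    have h1 : P.weight ψ e (P.localState (Φ.z g₁ t) e) = 0 := by
      unfold StateSpaces.weight
      apply Finset.sum_eq_zero
      intro β _
      exact hψz _ (he β)
    rw [h1, zero_smul]
    rfl

end OrbitFamily

end Run7.h173
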