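import Mathlib
import Pool.Agent.Run7.h173.Core2

/-!
# Core argument, part 3: resting nodes are upstream closed; moving nodes are balanced
-/

open Set MeasureTheory intervalIntegral Filter Topology

namespace Run7.h173

variable {G : Network} {W : Type*} [NormedAddCommGroup W] [NormedSpace ℝ W]

namespace OrbitFamily

variable {P : StateSpaces G W}

/-- A base point near which the equality pattern and the set of resting nodes are constant. -/
structure Base (Φ : OrbitFamily P) (cmp : G.Node → G.Node → Prop) where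
  g : P.State → P.State
  t : ℝ
  r : ℝ
  hg : Φ.U g
  hr : 0 < r
  eqp : ∀ g' t', Φ.U g' → Ball g r g' → |t' - t| < r → ∀ i j, cmp i j →
    ((Φ.z g' t' i : W) = Φ.z g' t' j ↔ (Φ.z g t i : W) = Φ.z g t j)
  rest : ∀ g' t', Φ.U g' → Ball g r g' → |t' - t| < r → ∀ i,
    (g' (Φ.z g' t') i = 0 ↔ g (Φ.z g t) i = 0)

theorem exists_base (Φ : OrbitFamily P) (cmp : G.Node → G.Node → Prop) :
    Nonempty (Base Φ cmp) := by
  obtain ⟨g₁, t₁, r₁, h1, h2, h3⟩ := good_base Φ cmp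
  exact ⟨⟨g₁, t₁, r₁, h1, h2, fun g t hg hb ht => (h3 g t hg hb ht).1,
    fun g t hg hb ht => (h3 g t hg hb ht).2⟩⟩

variable {Φ : OrbitFamily P} {cmp : G.Node → G.Node → Prop}

theorem one_add_kap_ne {g : P.State → P.State} (hg : Φ.U g) : 1 + Φ.κ g ≠ 0 := by
  have := Φ.kap g hg.1 hg.2
  rw [abs_le] at this
  linarith [this.1]

/-- The `c`-component of the derivative, in `W`. -/
theorem hasDerivAt_coe {g : P.State → P.State} (hg : Φ.U g) (c : G.Node) (t : ℝ) :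
    HasDerivAt (fun s => (Φ.z g s c : W)) ((1 + Φ.κ g) • (g (Φ.z g t) c : W)) t := by
  have h1 := Φ.deriv g hg.1 hg.2 t
  rw [hasDerivAt_pi] at h1
  have h2 := h1 c
  exact ((P.space c).subtypeL.hasFDerivAt.comp_hasDerivAt t h2)

namespace Base

variable (B : Base Φ cmp)

theorem ballself : Ball B.g B.r B.g := ball_self B.hg.contDiff B.hr

/-- Nodes of equal state at the base point have equal velocities. -/
theorem vel_eq {c d : G.Node} (hcd : cmp c d) (he : (Φ.z B.g B.t c : W) = Φ.z B.g B.t d)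
    {g' : P.State → P.State} {t' : ℝ} (hg' : Φ.U g') (hb : Ball B.g B.r g')
    (ht : |t' - B.t| < B.r) : (g' (Φ.z g' t') c : W) = g' (Φ.z g' t') d := by
  have h1 := hasDerivAt_coe hg' c t'
  have h2 := hasDerivAt_coe hg' d t'
  have h3 : (fun s => (Φ.z g' s c : W)) =ᶠ[𝓝 t'] fun s => (Φ.z g' s d : W) := by
    have h4 : ∀ᶠ s in 𝓝 t', |s - B.t| < B.r := by
      have hc : Continuous fun s : ℝ => |s - B.t| := by fun_prop
      exact hc.continuousAt.eventually_lt continuousAt_const ht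
    filter_upwards [h4] with s hs
    exact (B.eqp g' s hg' hb hs c d hcd).mpr he
  have h5 := (h2.congr_of_eventuallyEq h3).unique h1
  exact (smul_right_injective W (one_add_kap_ne hg') h5).symm

theorem rest_iff {c d : G.Node} (hcd : cmp c d) (he : (Φ.z B.g B.t c : W) = Φ.z B.g B.t d) :
    B.g (Φ.z B.g B.t) c = 0 ↔ B.g (Φ.z B.g B.t) d = 0 := by
  have h := B.vel_eq hcd he B.hg B.ballself (t' := B.t) (by simpa using B.hr)
  constructor
  · intro h0
    apply Subtype.ext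
    rw [← h, h0]; rfl
  · intro h0
    apply Subtype.ext
    rw [h, h0]; rfl

theorem exists_ne {e : G.Node} (he : B.g (Φ.z B.g B.t) e ≠ 0) {s : ℝ} (hs : 0 < s) :
    ∃ b, |b - B.t| < s ∧ Φ.z B.g b e ≠ Φ.z B.g B.t e := by
  have h1 := hasDerivAt_coe B.hg e B.t
  have hne : (1 + Φ.κ B.g) • (B.g (Φ.z B.g B.t) e : W) ≠ 0 := by
    refine smul_ne_zero (one_add_kap_ne B.hg) ?_
    intro h
    apply he
    exact Subtype.ext h
  have h2 := h1.eventually_ne hne (c := (Φ.z B.g B.t e : W))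
  have h3 : ∀ᶠ b in 𝓝[≠] B.t, |b - B.t| < s := by
    apply eventually_nhdsWithin_of_eventually_nhds
    have hc : Continuous fun s : ℝ => |s - B.t| := by fun_prop
    exact hc.continuousAt.eventually_lt continuousAt_const (by simpa using hs)
  obtain ⟨b, hb1, hb2⟩ := (h3.and h2).exists
  exact ⟨b, hb1, fun h => hb2 (by rw [h])⟩

theorem exists_vec (P : StateSpaces G W) (i : G.Node) : ∃ v : P.space i, 0 < ‖v‖ := by
  obtain ⟨w, hw, hne⟩ := (Submodule.ne_bot_iff _).mp (P.nonzero i)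
  refine ⟨⟨w, hw⟩, norm_pos_iff.mpr fun h => hne ?_⟩
  exact congrArg Subtype.val h

theorem abs_le_of_mem_uIcc {a b t : ℝ} (h : t ∈ uIcc a b) : |t - a| ≤ |b - a| := by
  have := Set.abs_sub_left_of_mem_uIcc h
  exact this

variable [FiniteDimensional ℝ W]

/-- The set of resting nodes is upstream closed. -/
theorem rest_upstream {i : G.Node} (hi : B.g (Φ.z B.g B.t) i = 0) (a : G.Inputs i) :
    B.g (Φ.z B.g B.t) (G.src a) = 0 := by
  by_contra hne
  have hC := Φ.hC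
  have hL := Φ.hL
  obtain ⟨b, hb, hbne⟩ := B.exists_ne hne B.hr
  have hab : P.localState (Φ.z B.g B.t) i ≠ P.localState (Φ.z B.g b) i := by
    intro h
    apply hbne
    have := congrFun (congrArg Prod.snd h) a
    exact this.symm
  obtain ⟨v, hv⟩ := exists_vec P i
  obtain ⟨t', ht', p, g₂, ε, hε, hg₂, hU, hB, hz, hpz, hpv, -⟩ := jump B.hg hab v
    (θ := ‖v‖ / (8 * (Φ.L * Φ.C))) (ρ := 1) (r := B.r) (η := ‖v‖ / 8) (by positivity) one_pos
    B.hr (by positivity)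
  have ht : |t' - B.t| < B.r := (abs_le_of_mem_uIcc ht').trans_lt hb
  have h1 : g₂ (Φ.z g₂ t') i = 0 := (B.rest g₂ t' hU hB ht i).mpr hi
  have h2 : B.g (Φ.z B.g t') i = 0 := (B.rest B.g t' B.hg B.ballself ht i).mpr hi
  have h3 : ε • p (Φ.z g₂ t') i = -(B.g (Φ.z g₂ t') - B.g (Φ.z B.g t')) i := by
    have h4 := congrFun (hg₂ (Φ.z g₂ t')) i
    rw [h1] at h4
    simp only [Pi.add_apply, Pi.smul_apply] at h4
    simp only [Pi.sub_apply, h2, sub_zero]
    exact (neg_eq_of_add_eq_zero_right h4.symm).symm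
  have h5 : ‖ε • p (Φ.z g₂ t') i‖ ≤ Φ.L * (Φ.C * (‖v‖ / (8 * (Φ.L * Φ.C))) * ε) := by
    rw [h3, norm_neg]
    refine (norm_le_pi_norm _ i).trans ((Φ.lip B.g g₂ B.hg.1 B.hg.2 hU.1 hU.2 t').trans ?_)
    gcongr
    exact hz t'
  have h6 : Φ.L * (Φ.C * (‖v‖ / (8 * (Φ.L * Φ.C))) * ε) = ε * (‖v‖ / 8) := by
    field_simp
  rw [h6, norm_smul, Real.norm_eq_abs, abs_of_pos hε] at h5
  have h7 : ‖p (Φ.z g₂ t') i‖ ≤ ‖v‖ / 8 := le_of_mul_le_mul_left h5 hε
  have h8 : ‖p (Φ.z g₂ t') i - p (Φ.z B.g t') i‖ ≤ ‖v‖ / 8 :=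
    (norm_le_pi_norm (p (Φ.z g₂ t') - p (Φ.z B.g t')) i).trans (hpz t')
  have h9 : ‖p (Φ.z B.g t') i‖ ≤ ‖p (Φ.z g₂ t') i‖ + ‖p (Φ.z g₂ t') i - p (Φ.z B.g t') i‖ := by
    calc ‖p (Φ.z B.g t') i‖ = ‖p (Φ.z g₂ t') i - (p (Φ.z g₂ t') i - p (Φ.z B.g t') i)‖ := by
          congr 1; abel
      _ ≤ _ := norm_sub_le _ _
  linarith

/-- Moving synchronous nodes have related local states. -/
theorem moving {c d : G.Node} (hcd : cmp c d) (he : (Φ.z B.g B.t c : W) = Φ.z B.g B.t d)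
    (hd : B.g (Φ.z B.g B.t) d ≠ 0) :
    ∃ β : G.InputIso c d, P.Relabel β (P.localState (Φ.z B.g B.t) c)
      (P.localState (Φ.z B.g B.t) d) := by
  by_contra hcon
  push Not at hcon
  have hC := Φ.hC
  have hL := Φ.hL
  have hzc := B.hg.continuous_z
  obtain ⟨ρ, hρ, hsep⟩ := fin_uniform (fun (β : G.InputIso c d) (ρ : ℝ) => ∀ t', |t' - B.t| < ρ →
    ρ ≤ ‖P.relabelL β (P.localState (Φ.z B.g t') c) - P.localState (Φ.z B.g t') d‖)
    (fun β r s _ hsr h t' ht' => hsr.trans (h t' (ht'.trans_le hsr))) (by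
      intro β
      have hne : P.relabelL β (P.localState (Φ.z B.g B.t) c) - P.localState (Φ.z B.g B.t) d ≠ 0 := by
        intro h
        exact hcon β ((P.relabel_iff β _ _).mpr (sub_eq_zero.mp h))
      have hpos := norm_pos_iff.mpr hne
      have hcont : Continuous fun t' =>
          ‖P.relabelL β (P.localState (Φ.z B.g t') c) - P.localState (Φ.z B.g t') d‖ :=
        (((P.relabelL β).continuous.comp ((P.localL c).continuous.comp hzc)).sub
          ((P.localL d).continuous.comp hzc)).norm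
      set h0 := ‖P.relabelL β (P.localState (Φ.z B.g B.t) c) - P.localState (Φ.z B.g B.t) d‖
        with hh0
      have h1 : ∀ᶠ t' in 𝓝 B.t, h0 / 2 <
          ‖P.relabelL β (P.localState (Φ.z B.g t') c) - P.localState (Φ.z B.g t') d‖ :=
        continuousAt_const.eventually_lt hcont.continuousAt (by rw [← hh0]; linarith)
      rw [Metric.eventually_nhds_iff] at h1
      obtain ⟨s, hs, h1⟩ := h1
      refine ⟨min s (h0 / 2), by positivity, fun t' ht' => ?_⟩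
      have h2 := h1 (y := t') (by rw [Real.dist_eq]; exact ht'.trans_le (min_le_left _ _))
      exact (min_le_right _ _).trans h2.le)
  obtain ⟨b, hb, hbne⟩ := B.exists_ne hd (lt_min hρ B.hr)
  have hab : P.localState (Φ.z B.g B.t) d ≠ P.localState (Φ.z B.g b) d := by
    intro h
    apply hbne
    exact (congrArg Prod.fst h).symm
  obtain ⟨v, hv⟩ := exists_vec P d
  obtain ⟨t', ht', p, g₂, ε, hε, hg₂, hU, hB, hz, hpz, hpv, hpc⟩ := jump B.hg hab v
    (θ := ‖v‖ / (8 * (Φ.L * Φ.C))) (ρ := ρ) (r := B.r) (η := ‖v‖ / 8) (by positivity) hρ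
    B.hr (by positivity)
  have htb : |t' - B.t| < min ρ B.r := (abs_le_of_mem_uIcc ht').trans_lt hb
  have htρ : |t' - B.t| < ρ := htb.trans_le (min_le_left _ _)
  have ht : |t' - B.t| < B.r := htb.trans_le (min_le_right _ _)
  have hpc0 : p (Φ.z B.g t') c = 0 := hpc c (fun β => hsep β t' htρ)
  have e1 : (g₂ (Φ.z g₂ t') c : W) = g₂ (Φ.z g₂ t') d := B.vel_eq hcd he hU hB ht
  have e2 : (B.g (Φ.z B.g t') c : W) = B.g (Φ.z B.g t') d := B.vel_eq hcd he B.hg B.ballself ht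
  rw [hg₂] at e1
  simp only [Pi.add_apply, Pi.smul_apply, Submodule.coe_add, Submodule.coe_smul] at e1
  -- bounds
  have hX : ∀ i, ‖(B.g (Φ.z g₂ t') i : W) - B.g (Φ.z B.g t') i‖ ≤ ε * (‖v‖ / 8) := by
    intro i
    have h1 : ‖(B.g (Φ.z g₂ t') i : W) - B.g (Φ.z B.g t') i‖ ≤
        ‖B.g (Φ.z g₂ t') - B.g (Φ.z B.g t')‖ :=
      norm_le_pi_norm (B.g (Φ.z g₂ t') - B.g (Φ.z B.g t')) i
    refine h1.trans ((Φ.lip B.g g₂ B.hg.1 B.hg.2 hU.1 hU.2 t').trans ?_)
    calc Φ.L * ‖Φ.z g₂ t' - Φ.z B.g t'‖ ≤ Φ.L * (Φ.C * (‖v‖ / (8 * (Φ.L * Φ.C))) * ε) := by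
          gcongr
          exact hz t'
      _ = ε * (‖v‖ / 8) := by field_simp
  have hY : ∀ i, ‖(p (Φ.z g₂ t') i : W) - p (Φ.z B.g t') i‖ ≤ ‖v‖ / 8 := fun i =>
    (norm_le_pi_norm (p (Φ.z g₂ t') - p (Φ.z B.g t')) i).trans (hpz t')
  have h3 : ε • ((p (Φ.z g₂ t') d : W) - p (Φ.z g₂ t') c) =
      ((B.g (Φ.z g₂ t') c : W) - B.g (Φ.z B.g t') c) -
      ((B.g (Φ.z g₂ t') d : W) - B.g (Φ.z B.g t') d) := by
    rw [e2, smul_sub]
    have := e1
    rw [← sub_eq_zero] at this ⊢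
    rw [← neg_eq_zero, ← this]
    abel
  have h4 : ε * ‖(p (Φ.z g₂ t') d : W) - p (Φ.z g₂ t') c‖ ≤ ε * (‖v‖ / 4) := by
    calc ε * ‖(p (Φ.z g₂ t') d : W) - p (Φ.z g₂ t') c‖
        = ‖ε • ((p (Φ.z g₂ t') d : W) - p (Φ.z g₂ t') c)‖ := by
          rw [norm_smul, Real.norm_eq_abs, abs_of_pos hε]
      _ ≤ ε * (‖v‖ / 8) + ε * (‖v‖ / 8) := by
          rw [h3]
          exact (norm_sub_le _ _).trans (add_le_add (hX c) (hX d))
      _ = ε * (‖v‖ / 4) := by ring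
  have h5 : ‖(p (Φ.z g₂ t') d : W) - p (Φ.z g₂ t') c‖ ≤ ‖v‖ / 4 := le_of_mul_le_mul_left h4 hε
  have h6 : ‖v‖ ≤ ‖(p (Φ.z B.g t') d : W)‖ := hpv
  have h7 : (p (Φ.z B.g t') d : W) = ((p (Φ.z g₂ t') d : W) - p (Φ.z g₂ t') c) -
      ((p (Φ.z g₂ t') d : W) - p (Φ.z B.g t') d) + ((p (Φ.z g₂ t') c : W) - p (Φ.z B.g t') c) := by
    rw [hpc0, ZeroMemClass.coe_zero]
    abel
  have h8 : ‖(p (Φ.z B.g t') d : W)‖ ≤ ‖v‖ / 4 + ‖v‖ / 8 + ‖v‖ / 8 := by
    rw [h7]
    refine (norm_add_le _ _).trans (add_le_add ((norm_sub_le _ _).trans (add_le_add h5 (hY d))) (hY c))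
  linarith

end Base

end OrbitFamily

end Run7.h173
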