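import Mathlib
import Pool.Agent.Run7.h173.Core3

/-!
# Core argument, part 4: resting nodes; the equality pattern is balanced
-/

open Set MeasureTheory intervalIntegral Filter Topology

namespace Run7.h173

variable {G : Network} {W : Type*} [NormedAddCommGroup W] [NormedSpace ℝ W]

/-- The `i`-th component of the derivative of an admissible vector field only depends on the
local state at `i` of the direction. -/
theorem StateSpaces.IsAdmissible.fderiv_congr (P : StateSpaces G W) {f : P.State → P.State}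
    (hf : P.IsAdmissible f) (y : P.State) {w w' : P.State} {i : G.Node}
    (h : P.localState w i = P.localState w' i) : fderiv ℝ f y w i = fderiv ℝ f y w' i := by
  have hd : HasFDerivAt f (fderiv ℝ f y) y :=
    ((hf.1.differentiable one_ne_zero) y).hasFDerivAt
  set v := w - w' with hv
  have hv0 : P.localL i v = 0 := by
    rw [hv, map_sub, sub_eq_zero]
    exact h
  have h1 : HasDerivAt (fun s : ℝ => f (y + s • v)) (fderiv ℝ f y v) 0 := by
    have h2 : HasDerivAt (fun s : ℝ => y + s • v) v 0 := by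
      simpa using ((hasDerivAt_id (0 : ℝ)).smul_const v).const_add y
    have h3 : HasFDerivAt f (fderiv ℝ f y) (y + (0 : ℝ) • v) := by simpa using hd
    exact h3.comp_hasDerivAt 0 h2
  rw [hasDerivAt_pi] at h1
  have h4 : (fun s : ℝ => f (y + s • v) i) = fun _ => f y i := by
    funext s
    apply Subtype.ext
    apply hf.2 i i (Network.InputIso.refl i)
    rw [P.relabel_iff, P.relabelL_refl, ← P.localL_apply, ← P.localL_apply, map_add, map_smul,
      hv0, smul_zero, add_zero]
  have h5 := h1 i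
  rw [h4] at h5
  have h6 : fderiv ℝ f y v i = 0 := h5.unique (hasDerivAt_const _ _)
  rw [hv, map_sub, Pi.sub_apply, sub_eq_zero] at h6
  exact h6

namespace OrbitFamily

variable {P : StateSpaces G W} {Φ : OrbitFamily P} {cmp : G.Node → G.Node → Prop}

namespace Base

variable (B : Base Φ cmp)

/-- The base state. -/
def y : P.State := Φ.z B.g B.t

/-- The resting nodes. -/
def Z (i : G.Node) : Prop := B.g B.y i = 0

/-- Nodes with related local states. -/
def sim (i j : G.Node) : Prop :=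
  ∃ β : G.InputIso i j, P.Relabel β (P.localState B.y i) (P.localState B.y j)

theorem sim_refl (i : G.Node) : B.sim i i :=
  ⟨Network.InputIso.refl i, (P.relabel_iff _ _ _).mpr (P.relabelL_refl _)⟩

theorem sim_symm {i j : G.Node} (h : B.sim i j) : B.sim j i := by
  obtain ⟨β, h⟩ := h
  refine ⟨β.symm, (P.relabel_iff _ _ _).mpr ?_⟩
  rw [P.relabel_iff] at h
  rw [← h, P.relabelL_symm]

theorem sim_trans {i j k : G.Node} (h : B.sim i j) (h' : B.sim j k) : B.sim i k := by
  obtain ⟨β, h⟩ := h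
  obtain ⟨γ, h'⟩ := h'
  refine ⟨β.trans γ, (P.relabel_iff _ _ _).mpr ?_⟩
  rw [P.relabel_iff] at h h'
  rw [P.relabelL_trans, h, h']

theorem Z_of_sim {i j : G.Node} (h : B.sim i j) (hj : B.Z j) : B.Z i := by
  obtain ⟨β, h⟩ := h
  have h1 := (Φ.adm_ok _ B.hg.1).2 i j β _ _ h
  apply Subtype.ext
  rw [h1]
  have h2 : B.g B.y j = 0 := hj
  rw [h2]; rfl

/-- The synchrony relation at the base point. -/
def E (i j : G.Node) : Prop := cmp i j ∧ (B.y i : W) = B.y j

theorem E_of_sim (hcmp : ∀ c d, G.sameNodeType c d → cmp c d) {i j : G.Node} (h : B.sim i j) :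
    B.E i j := by
  obtain ⟨β, h⟩ := h
  exact ⟨hcmp _ _ β.sameType, h.1⟩

open Classical in
/-- Restriction to the resting nodes. -/
noncomputable def RZ : P.State →ₗ[ℝ] P.State where
  toFun w i := if B.Z i then w i else 0
  map_add' w w' := by
    funext i
    by_cases h : B.Z i <;> simp [h]
  map_smul' r w := by
    funext i
    by_cases h : B.Z i <;> simp [h]

theorem RZ_pos {i : G.Node} (h : B.Z i) (w : P.State) : B.RZ w i = w i := if_pos h

theorem RZ_neg {i : G.Node} (h : ¬ B.Z i) (w : P.State) : B.RZ w i = 0 := if_neg h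

/-- The polydiagonal of the synchrony relation. -/
def D : Submodule ℝ P.State where
  carrier := {w | ∀ i j, B.E i j → (w i : W) = w j}
  add_mem' {w w'} h h' i j hE := by
    rw [Pi.add_apply, Pi.add_apply, Submodule.coe_add, Submodule.coe_add, h i j hE, h' i j hE]
  zero_mem' i j _ := by
    rw [Pi.zero_apply, Pi.zero_apply, Submodule.coe_zero, Submodule.coe_zero]
  smul_mem' r w h i j hE := by
    rw [Pi.smul_apply, Pi.smul_apply, Submodule.coe_smul, Submodule.coe_smul, h i j hE]

/-- The polydiagonal of `sim`, on the resting nodes. -/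
def Ds : Submodule ℝ P.State where
  carrier := {w | (∀ i, ¬ B.Z i → w i = 0) ∧ ∀ i j, B.sim i j → (w i : W) = w j}
  add_mem' {w w'} h h' := by
    refine ⟨fun i hi => by rw [Pi.add_apply, h.1 i hi, h'.1 i hi, add_zero], fun i j hE => ?_⟩
    rw [Pi.add_apply, Pi.add_apply, Submodule.coe_add, Submodule.coe_add, h.2 i j hE, h'.2 i j hE]
  zero_mem' := by
    refine ⟨fun i hi => rfl, fun i j hE => ?_⟩
    rw [Pi.zero_apply, Pi.zero_apply, Submodule.coe_zero, Submodule.coe_zero]
  smul_mem' r w h := by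
    refine ⟨fun i hi => by rw [Pi.smul_apply, h.1 i hi, smul_zero], fun i j hE => ?_⟩
    rw [Pi.smul_apply, Pi.smul_apply, Submodule.coe_smul, Submodule.coe_smul, h.2 i j hE]

theorem RZ_D_le (hcmp : ∀ c d, G.sameNodeType c d → cmp c d) : B.D.map B.RZ ≤ B.Ds := by
  rintro _ ⟨w, hw, rfl⟩
  refine ⟨fun i hi => B.RZ_neg hi w, fun i j h => ?_⟩
  by_cases hj : B.Z j
  · rw [B.RZ_pos hj, B.RZ_pos (B.Z_of_sim h hj)]
    exact hw i j (B.E_of_sim hcmp h)
  · have hi : ¬ B.Z i := fun hi => hj (B.Z_of_sim (B.sim_symm h) hi)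
    rw [B.RZ_neg hj, B.RZ_neg hi]
    rfl

open Classical in
/-- The state equal to `v` on the `sim` class of `d` and zero elsewhere. -/
noncomputable def u (d : G.Node) (v : P.space d) : P.State := fun i =>
  if h : B.sim i d then P.cast (G.sameNodeType_equiv.symm h.choose.sameType) v else 0

theorem u_pos {i d : G.Node} (v : P.space d) (h : B.sim i d) : (B.u d v i : W) = v := by
  unfold u
  rw [dif_pos h]
  rfl

theorem u_neg {i d : G.Node} (v : P.space d) (h : ¬ B.sim i d) : B.u d v i = 0 := by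
  unfold u
  rw [dif_neg h]

theorem u_mem {d : G.Node} (hd : B.Z d) (v : P.space d) : B.u d v ∈ B.Ds := by
  refine ⟨fun i hi => B.u_neg v fun h => hi (B.Z_of_sim h hd), fun i j h => ?_⟩
  by_cases hj : B.sim j d
  · rw [B.u_pos v hj, B.u_pos v (B.sim_trans h hj)]
  · have hi : ¬ B.sim i d := fun hi => hj (B.sim_trans (B.sim_symm h) hi)
    rw [B.u_neg v hj, B.u_neg v hi]
    rfl

theorem mem_D_diff {g' : P.State → P.State} (hU : Φ.U g') (hB : Ball B.g B.r g') (r : ℝ) :
    r • (Φ.z g' B.t - B.y) ∈ B.D := by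
  apply Submodule.smul_mem
  intro i j hE
  have h1 : (Φ.z g' B.t i : W) = Φ.z g' B.t j :=
    (B.eqp g' B.t hU hB (by simpa using B.hr) i j hE.1).mpr hE.2
  rw [Pi.sub_apply, Pi.sub_apply, Submodule.coe_sub, Submodule.coe_sub, h1, hE.2]

variable [FiniteDimensional ℝ W]

theorem exists_bump (d : G.Node) : ∃ ψ : P.Local d → ℝ, ContDiff ℝ 1 ψ ∧ HasCompactSupport ψ ∧
    (∀ q, 0 ≤ ψ q) ∧ (∀ q, ψ q ≤ 1) ∧ ψ (P.localState B.y d) = 1 ∧
    ∀ (i : G.Node) (β : G.InputIso i d), ¬ P.Relabel β (P.localState B.y i) (P.localState B.y d) →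
      ψ (P.relabelL β (P.localState B.y i)) = 0 := by
  obtain ⟨ρ, hρ, h⟩ := fin_uniform (fun (k : Σ i, G.InputIso i d) (ρ : ℝ) =>
    ¬ P.Relabel k.2 (P.localState B.y k.1) (P.localState B.y d) →
    ρ ≤ dist (P.relabelL k.2 (P.localState B.y k.1)) (P.localState B.y d))
    (fun k r s _ hsr h hk => hsr.trans (h hk)) (by
      intro k
      by_cases hk : P.Relabel k.2 (P.localState B.y k.1) (P.localState B.y d)
      · exact ⟨1, one_pos, fun h => absurd hk h⟩
      · refine ⟨_, ?_, fun _ => le_rfl⟩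
        apply dist_pos.mpr
        intro h
        exact hk ((P.relabel_iff _ _ _).mpr h))
  let b : ContDiffBump (P.localState B.y d) :=
    { rIn := ρ / 2, rOut := ρ, rIn_pos := by positivity, rIn_lt_rOut := by linarith }
  refine ⟨(b : P.Local d → ℝ), b.contDiff, b.hasCompactSupport, fun q => b.nonneg,
    fun q => b.le_one, b.one_of_mem_closedBall (Metric.mem_closedBall_self (by positivity)), ?_⟩
  intro i β hβ
  exact b.zero_of_le_dist (h ⟨i, β⟩ hβ)

/-- The range of the restricted linearisation on the polydiagonal contains `u d v`. -/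
theorem u_mem_map {d : G.Node} (hd : B.Z d) (v : P.space d) :
    B.u d v ∈ B.D.map (B.RZ ∘ₗ (fderiv ℝ B.g B.y : P.State →ₗ[ℝ] P.State)) := by
  have hC := Φ.hC
  obtain ⟨ψ, hψ, hψc, hψ0, hψ1, hψd, hψz⟩ := B.exists_bump d
  obtain ⟨b, hb1, hb2⟩ := P.bump_bounds hψ hψc hψ0 hψ1 v
  have hpa := P.bump_admissible hψ v
  set p := P.bump ψ v with hp
  set N := P.weight ψ d (P.localState B.y d) with hN
  have hN1 : 1 ≤ N := by
    rw [hN]
    unfold StateSpaces.weight
    have h3 : ψ (P.relabelL (Network.InputIso.refl d) (P.localState B.y d)) = 1 := by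
      rw [P.relabelL_refl]; exact hψd
    rw [← h3]
    exact Finset.single_le_sum (f := fun β : G.InputIso d d =>
      ψ (P.relabelL β (P.localState B.y d))) (fun _ _ => hψ0 _) (Finset.mem_univ _)
  have hN0 : N ≠ 0 := by positivity
  have hpy : p B.y = N • B.u d v := by
    funext i
    apply Subtype.ext
    rw [Pi.smul_apply, Submodule.coe_smul, hp, P.coe_bump]
    by_cases h : B.sim i d
    · rw [B.u_pos v h]
      obtain ⟨β, h⟩ := h
      rw [P.relabel_iff] at h
      rw [hN, ← h, P.weight_relabel]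
    · rw [B.u_neg v h]
      have : P.weight ψ i (P.localState B.y i) = 0 := by
        unfold StateSpaces.weight
        apply Finset.sum_eq_zero
        intro β _
        exact hψz i β fun h' => h ⟨β, h'⟩
      rw [this]
      simp
  -- closedness
  set K := B.D.map (B.RZ ∘ₗ (fderiv ℝ B.g B.y : P.State →ₗ[ℝ] P.State)) with hK
  have hclosed : IsClosed (K : Set P.State) := Submodule.closed_of_finiteDimensional K
  have hmem : -(p B.y) ∈ K := by
    have : -(p B.y) ∈ closure (K : Set P.State) := by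
      rw [Metric.mem_closure_iff]
      intro e he
      obtain ⟨ε, hε, hU, hB, hz, hpz, hrem⟩ := resp_lim B.hg hpa hb1 hb2 (θ :=
        (∫ s in (0 : ℝ)..Φ.T, ‖P.bump ψ v (Φ.z B.g s)‖) + 1) B.hr (by linarith) B.t
        (η := e / 4) (by positivity)
      set g₂ : P.State → P.State := fun y => B.g y + ε • P.bump ψ v y with hg₂
      refine ⟨_, Submodule.mem_map_of_mem (B.mem_D_diff hU hB (1 / ε)), ?_⟩
      rw [dist_eq_norm]
      refine lt_of_le_of_lt (b := e / 2) ?_ (by linarith)
      rw [pi_norm_le_iff_of_nonneg (by positivity)]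
      intro i
      rw [Pi.sub_apply, Pi.neg_apply]
      by_cases hi : B.Z i
      · change ‖-(p B.y i) - B.RZ (fderiv ℝ B.g B.y ((1 / ε) • (Φ.z g₂ B.t - B.y))) i‖ ≤ e / 2
        rw [B.RZ_pos hi, map_smul, Pi.smul_apply]
        have h1 : g₂ (Φ.z g₂ B.t) i = 0 := (B.rest g₂ B.t hU hB (by simpa using B.hr) i).mpr hi
        have h1' : B.g (Φ.z g₂ B.t) i + ε • p (Φ.z g₂ B.t) i = 0 := h1
        have hi' : B.g B.y i = 0 := hi
        set R := B.g (Φ.z g₂ B.t) - B.g (Φ.z B.g B.t) -
          fderiv ℝ B.g (Φ.z B.g B.t) (Φ.z g₂ B.t - Φ.z B.g B.t) with hR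
        have h2 : fderiv ℝ B.g B.y (Φ.z g₂ B.t - B.y) i = -(ε • p (Φ.z g₂ B.t) i) - R i := by
          have h3 : R i = B.g (Φ.z g₂ B.t) i - B.g B.y i -
            fderiv ℝ B.g B.y (Φ.z g₂ B.t - B.y) i := rfl
          rw [h3, hi', ← eq_neg_of_add_eq_zero_left h1']
          abel
        rw [h2]
        have h4 : -(p B.y i) - (1 / ε) • (-(ε • p (Φ.z g₂ B.t) i) - R i) =
            (p (Φ.z g₂ B.t) - p B.y) i + (1 / ε) • R i := by
          rw [smul_sub, smul_neg, smul_smul, one_div_mul_cancel hε.ne', one_smul, Pi.sub_apply]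
          abel
        rw [h4]
        calc ‖(p (Φ.z g₂ B.t) - p B.y) i + (1 / ε) • R i‖
            ≤ ‖(p (Φ.z g₂ B.t) - p B.y) i‖ + ‖(1 / ε) • R i‖ := norm_add_le _ _
          _ ≤ e / 4 + (1 / ε) * (e / 4 * ε) := by
              refine add_le_add ((norm_le_pi_norm _ i).trans (hpz B.t)) ?_
              rw [norm_smul, Real.norm_eq_abs, abs_of_pos (by positivity : (0 : ℝ) < 1 / ε)]
              gcongr
              exact (norm_le_pi_norm R i).trans hrem
          _ = e / 2 := by field_simp; ring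
      · change ‖-(p B.y i) - B.RZ (fderiv ℝ B.g B.y ((1 / ε) • (Φ.z g₂ B.t - B.y))) i‖ ≤ e / 2
        rw [B.RZ_neg hi, hpy, Pi.smul_apply, (B.u_mem hd v).1 i hi]
        simp only [smul_zero, neg_zero, sub_zero, norm_zero]
        positivity
    rwa [hclosed.closure_eq] at this
  have h5 : B.u d v = (-N⁻¹) • (-(p B.y)) := by
    rw [hpy, smul_neg, neg_smul, neg_neg, smul_smul, inv_mul_cancel₀ hN0, one_smul]
  rw [h5]
  exact Submodule.smul_mem _ _ hmem

open Classical in
theorem Ds_le : B.Ds ≤ B.D.map (B.RZ ∘ₗ (fderiv ℝ B.g B.y : P.State →ₗ[ℝ] P.State)) := by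
  intro w hw
  set k : G.Node → ℕ := fun d => (Finset.univ.filter fun i => B.sim i d).card with hk
  have hk0 : ∀ d, 0 < k d := fun d => Finset.card_pos.mpr ⟨d, by simp [B.sim_refl d]⟩
  have hkeq : ∀ i d, B.sim i d → k i = k d := by
    intro i d h
    simp only [hk]
    congr 1
    ext j
    simp only [Finset.mem_filter, Finset.mem_univ, true_and]
    exact ⟨fun hj => B.sim_trans hj h, fun hj => B.sim_trans hj (B.sim_symm h)⟩
  have hsum : w = ∑ d, if B.Z d then (k d : ℝ)⁻¹ • B.u d (w d) else 0 := by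
    funext i
    apply Subtype.ext
    rw [Finset.sum_apply, Submodule.coe_sum]
    by_cases hi : B.Z i
    · have h1 : ∀ d, (((if B.Z d then (k d : ℝ)⁻¹ • B.u d (w d) else 0) i : P.space i) : W) =
          if B.sim d i then (k i : ℝ)⁻¹ • (w i : W) else 0 := by
        intro d
        by_cases h : B.sim d i
        · have hd : B.Z d := B.Z_of_sim h hi
          rw [if_pos hd, if_pos h, Pi.smul_apply, Submodule.coe_smul, B.u_pos _ (B.sim_symm h),
            hw.2 d i h, hkeq d i h]
        · rw [if_neg h]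
          split_ifs with hd
          · rw [Pi.smul_apply, B.u_neg _ (fun h' => h (B.sim_symm h'))]
            simp
          · rfl
      rw [Finset.sum_congr rfl fun d _ => h1 d, ← Finset.sum_filter, Finset.sum_const,
        ← Nat.cast_smul_eq_nsmul ℝ, smul_smul]
      have h2 : ((Finset.univ.filter fun d => B.sim d i).card : ℝ) * (k i : ℝ)⁻¹ = 1 := by
        apply mul_inv_cancel₀
        exact_mod_cast (hk0 i).ne'
      rw [h2, one_smul]
    · rw [hw.1 i hi]
      symm
      rw [Submodule.coe_zero]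
      apply Finset.sum_eq_zero
      intro d _
      split_ifs with hd
      · rw [Pi.smul_apply, B.u_neg _ (fun h' => hi (B.Z_of_sim h' hd))]
        simp
      · rfl
  rw [hsum]
  apply Submodule.sum_mem
  intro d _
  split_ifs with hd
  · exact Submodule.smul_mem _ _ (B.u_mem_map hd _)
  · exact Submodule.zero_mem _

theorem RZ_comp : B.RZ ∘ₗ (fderiv ℝ B.g B.y : P.State →ₗ[ℝ] P.State) =
    (B.RZ ∘ₗ (fderiv ℝ B.g B.y : P.State →ₗ[ℝ] P.State)) ∘ₗ B.RZ := by
  ext1 w
  funext i
  change B.RZ (fderiv ℝ B.g B.y w) i = B.RZ (fderiv ℝ B.g B.y (B.RZ w)) i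
  by_cases hi : B.Z i
  · rw [B.RZ_pos hi, B.RZ_pos hi]
    apply StateSpaces.IsAdmissible.fderiv_congr P (Φ.adm_ok _ B.hg.1)
    refine Prod.ext (B.RZ_pos hi w).symm (funext fun a => ?_)
    exact (B.RZ_pos (B.rest_upstream hi a) w).symm
  · rw [B.RZ_neg hi, B.RZ_neg hi]

theorem resting (hcmp : ∀ c d, G.sameNodeType c d → cmp c d) {c d : G.Node} (hE : B.E c d)
    (hc : B.Z c) (hd : B.Z d) : B.sim c d := by
  by_contra hcon
  have h1 : B.D.map B.RZ < B.Ds := by
    refine lt_of_le_of_ne (B.RZ_D_le hcmp) ?_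
    intro heq
    obtain ⟨v, hv⟩ := exists_vec P d
    have h2 := B.u_mem hd v
    rw [← heq] at h2
    obtain ⟨w, hw, hwu⟩ := h2
    have h3 : (w c : W) = w d := hw c d hE
    have h4 : w c = B.u d v c := by rw [← hwu, B.RZ_pos hc]
    have h5 : w d = B.u d v d := by rw [← hwu, B.RZ_pos hd]
    rw [h4, h5, B.u_neg v hcon, B.u_pos v (B.sim_refl d)] at h3
    have h6 : v = 0 := Subtype.ext h3.symm
    rw [h6, norm_zero] at hv
    exact lt_irrefl _ hv
  have h2 := Submodule.finrank_lt_finrank_of_lt h1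
  have h3 := Submodule.finrank_mono B.Ds_le
  rw [B.RZ_comp, Submodule.map_comp] at h3
  have h4 := Submodule.finrank_map_le (B.RZ ∘ₗ (fderiv ℝ B.g B.y : P.State →ₗ[ℝ] P.State))
    (B.D.map B.RZ)
  omega

/-- The equality pattern at the base point is balanced. -/
theorem balanced (hcmp : ∀ c d, G.sameNodeType c d → cmp c d) {c d : G.Node} (hE : B.E c d) :
    ∃ β : G.InputIso c d, ∀ a, B.E (G.src a) (G.src (β.toEquiv a)) := by
  have h1 : B.sim c d := by
    by_cases hd : B.Z d
    · exact B.resting hcmp hE ((B.rest_iff hE.1 hE.2).mpr hd) hd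
    · exact B.moving hE.1 hE.2 hd
  obtain ⟨β, hβ⟩ := h1
  exact ⟨β, fun a => ⟨hcmp _ _ (β.src_type a), hβ.2 a⟩⟩

end Base

end OrbitFamily

end Run7.h173
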