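import Mathlib
import Pool.Agent.Run7.h173.Core4

/-!
# Core argument, part 5: flow invariance and the conclusion for orbit families
-/

open Set MeasureTheory intervalIntegral Filter Topology

namespace Run7.h173

section stays

variable {S : Type*} [NormedAddCommGroup S] [NormedSpace ℝ S]

theorem stays_forward [FiniteDimensional ℝ S] {g : S → S} (hg : ContDiff ℝ 1 g) {z : ℝ → S}
    {k : ℝ} (hz : ∀ t, HasDerivAt z (k • g (z t)) t) (D : Submodule ℝ S)
    (hD : ∀ w ∈ D, g w ∈ D) {t₀ : ℝ} (h0 : z t₀ ∈ D) : ∀ t, t₀ ≤ t → z t ∈ D := by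
  intro t ht
  have hzc : Continuous z := continuous_iff_continuousAt.mpr fun t => (hz t).continuousAt
  obtain ⟨π, hπ⟩ := Submodule.ClosedComplemented.of_finiteDimensional D
  let Q : S →L[ℝ] S := ContinuousLinearMap.id ℝ S - D.subtypeL.comp π
  have hQ : ∀ w, Q w = w - (π w : S) := fun w => rfl
  have hQD : ∀ w ∈ D, Q w = 0 := by
    intro w hw
    have := hπ ⟨w, hw⟩
    rw [hQ, this]
    simp
  have hQ' : ∀ w, Q w = 0 → w ∈ D := by
    intro w hw
    rw [hQ, sub_eq_zero] at hw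
    rw [hw]
    exact (π w).2
  -- bound for the orbit
  obtain ⟨M₁, hM₁⟩ := isCompact_Icc.exists_bound_of_continuousOn (s := Icc t₀ t) hzc.continuousOn
  obtain ⟨M₂, hM₂⟩ := isCompact_Icc.exists_bound_of_continuousOn (s := Icc t₀ t)
    (f := fun s => z s - Q (z s)) (hzc.sub (Q.continuous.comp hzc)).continuousOn
  set M := max M₁ M₂ with hM
  obtain ⟨K, hK⟩ := (isCompact_closedBall (0 : S) M).exists_bound_of_continuousOn
    (f := fun w => fderiv ℝ g w) (hg.continuous_fderiv one_ne_zero).continuousOn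
  have hlip : ∀ w ∈ Metric.closedBall (0 : S) M, ∀ w' ∈ Metric.closedBall (0 : S) M,
      ‖g w' - g w‖ ≤ K * ‖w' - w‖ := by
    intro w hw w' hw'
    exact Convex.norm_image_sub_le_of_norm_fderiv_le (fun x _ => (hg.differentiable one_ne_zero) x)
      hK (convex_closedBall _ _) hw hw'
  have hK0 : 0 ≤ K := by
    have h1 : z t₀ ∈ Metric.closedBall (0 : S) M := by
      rw [mem_closedBall_zero_iff]
      exact (hM₁ t₀ ⟨le_rfl, ht⟩).trans (le_max_left _ _)
    exact (norm_nonneg _).trans (hK _ h1)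
  have hu : ∀ s, HasDerivAt (fun s => Q (z s)) (Q (k • g (z s))) s := fun s =>
    Q.hasFDerivAt.comp_hasDerivAt s (hz s)
  have hbound : ∀ s ∈ Ico t₀ t, ‖Q (k • g (z s))‖ ≤ (|k| * ‖Q‖ * K) * ‖Q (z s)‖ + 0 := by
    intro s hs
    have hs' : s ∈ Icc t₀ t := ⟨hs.1, hs.2.le⟩
    have h1 : z s ∈ Metric.closedBall (0 : S) M := by
      rw [mem_closedBall_zero_iff]
      exact (hM₁ s hs').trans (le_max_left _ _)
    have h2 : z s - Q (z s) ∈ Metric.closedBall (0 : S) M := by
      rw [mem_closedBall_zero_iff]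
      exact (hM₂ s hs').trans (le_max_right _ _)
    have h3 : z s - Q (z s) ∈ D := by
      rw [hQ, sub_sub_cancel]
      exact (π (z s)).2
    have h4 : Q (k • g (z s)) = k • Q (g (z s) - g (z s - Q (z s))) := by
      rw [map_smul, map_sub, hQD _ (hD _ h3), sub_zero]
    rw [h4, norm_smul, Real.norm_eq_abs, add_zero]
    calc |k| * ‖Q (g (z s) - g (z s - Q (z s)))‖ ≤ |k| * (‖Q‖ * (K * ‖Q (z s)‖)) := by
          gcongr
          refine (Q.le_opNorm _).trans ?_
          gcongr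
          have h5 := hlip _ h2 _ h1
          rwa [sub_sub_cancel] at h5
      _ = |k| * ‖Q‖ * K * ‖Q (z s)‖ := by ring
  have hgr := norm_le_gronwallBound_of_norm_deriv_right_le (f := fun s => Q (z s))
    (f' := fun s => Q (k • g (z s))) (δ := 0) (K := |k| * ‖Q‖ * K) (ε := 0) (a := t₀) (b := t)
    (Q.continuous.comp hzc).continuousOn (fun s _ => (hu s).hasDerivWithinAt)
    (by rw [hQD _ h0, norm_zero]) hbound t ⟨ht, le_rfl⟩
  rw [gronwallBound_ε0, zero_mul] at hgr
  exact hQ' _ (norm_le_zero_iff.mp hgr)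

/-- A subspace mapped into itself by a `C¹` vector field is invariant under its flow. -/
theorem stays [FiniteDimensional ℝ S] {g : S → S} (hg : ContDiff ℝ 1 g) {z : ℝ → S}
    {k : ℝ} (hz : ∀ t, HasDerivAt z (k • g (z t)) t) (D : Submodule ℝ S)
    (hD : ∀ w ∈ D, g w ∈ D) {t₀ : ℝ} (h0 : z t₀ ∈ D) (t : ℝ) : z t ∈ D := by
  rcases le_total t₀ t with h | h
  · exact stays_forward hg hz D hD h0 t h
  · have h1 : ∀ s, HasDerivAt (fun s => z (-s)) ((-k) • g (z (-s))) s := by
      intro s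
      have h3 : HasDerivAt (fun s => z (-s)) ((-1 : ℝ) • (k • g (z (-s)))) s :=
        (hz (-s)).scomp s (hasDerivAt_neg s)
      have h4 : (-1 : ℝ) • (k • g (z (-s))) = (-k) • g (z (-s)) := by
        rw [smul_smul, neg_one_mul]
      rwa [h4] at h3
    have h2 := stays_forward hg h1 D hD (t₀ := -t₀) (by simpa using h0) (-t) (by linarith)
    simpa using h2

end stays

variable {G : Network} {W : Type*} [NormedAddCommGroup W] [NormedSpace ℝ W]
  [FiniteDimensional ℝ W]

/-- The conclusion for a family of perturbed orbits which keep the pattern of `x` and stay close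
to `x`. -/
theorem OrbitFamily.conclusion {P : StateSpaces G W} (Φ : OrbitFamily P)
    (cmp : G.Node → G.Node → Prop) (hcmp : ∀ c d, G.sameNodeType c d → cmp c d)
    (x : ℝ → P.State) (η : ℝ)
    (hsep : ∀ c d, cmp c d → (∃ t, (x t c : W) ≠ x t d) →
      ∃ t, 2 * η ≤ ‖(x t c : W) - x t d‖)
    (hclose : ∀ g, Φ.U g → ∀ t, ‖Φ.z g t - x t‖ < η)
    (hrig : ∀ g, Φ.U g → ∀ c d, cmp c d → (∀ t, (x t c : W) = x t d) →
      ∀ t, (Φ.z g t c : W) = Φ.z g t d)
    (c d : G.Node) (hcd : cmp c d) (hx : ∀ t, (x t c : W) = x t d) :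
    ∃ β : G.InputIso c d, ∀ a, cmp (G.src a) (G.src (β.toEquiv a)) ∧
      ∀ t, (x t (G.src a) : W) = x t (G.src (β.toEquiv a)) := by
  obtain ⟨B⟩ := Φ.exists_base cmp
  have hbal := fun {c d} => B.balanced hcmp (c := c) (d := d)
  -- the polydiagonal is invariant
  have hD : ∀ w ∈ B.D, B.g w ∈ B.D := by
    intro w hw i j hE
    obtain ⟨β, hβ⟩ := hbal hE
    exact (Φ.adm_ok _ B.hg.1).2 i j β w w ⟨hw i j hE, fun a => hw _ _ (hβ a)⟩
  have hy : Φ.z B.g B.t ∈ B.D := fun i j hE => hE.2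
  have hst := stays B.hg.contDiff (Φ.deriv B.g B.hg.1 B.hg.2) B.D hD hy
  -- E is contained in the pattern of x
  have h1 : ∀ i j, B.E i j → ∀ t, (x t i : W) = x t j := by
    intro i j hE
    by_contra hcon
    push Not at hcon
    obtain ⟨t, ht⟩ := hsep i j hE.1 hcon
    have h2 : (Φ.z B.g t i : W) = Φ.z B.g t j := hst t i j hE
    have h3 : ‖(Φ.z B.g t i : W) - x t i‖ < η :=
      (norm_le_pi_norm (Φ.z B.g t - x t) i).trans_lt (hclose B.g B.hg t)
    have h4 : ‖(Φ.z B.g t j : W) - x t j‖ < η :=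
      (norm_le_pi_norm (Φ.z B.g t - x t) j).trans_lt (hclose B.g B.hg t)
    have h5 : (x t i : W) - x t j = ((Φ.z B.g t j : W) - x t j) - ((Φ.z B.g t i : W) - x t i) := by
      rw [h2]; abel
    have h6 : ‖(x t i : W) - x t j‖ ≤ ‖(Φ.z B.g t j : W) - x t j‖ +
        ‖(Φ.z B.g t i : W) - x t i‖ := by
      rw [h5]; exact norm_sub_le _ _
    linarith
  have h2 : B.E c d := ⟨hcd, hrig B.g B.hg c d hcd hx B.t⟩
  obtain ⟨β, hβ⟩ := hbal h2
  exact ⟨β, fun a => ⟨(hβ a).1, h1 _ _ (hβ a)⟩⟩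

end Run7.h173
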