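import Mathlib
import Pool.Agent.Run7.h173.Defs
import Pool.Agent.Run7.h173.Nonlin

open Set

namespace Run7.h173

variable {S : Type*} [NormedAddCommGroup S] [NormedSpace ℝ S] [FiniteDimensional ℝ S]

theorem gen_of_simple (M : S →L[ℝ] S)
    (h : (LinearMap.charpoly (M : S →ₗ[ℝ] S)).rootMultiplicity 1 = 1) (e₀ : S)
    (he : M e₀ = e₀) (hne : e₀ ≠ 0) :
    ∀ v, M (M v - v) - (M v - v) = 0 → ∃ c : ℝ, v = c • e₀ := by
  intro v hv
  set φ : Module.End ℝ S := (M : S →ₗ[ℝ] S) with hφ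
  have hfr : Module.finrank ℝ (φ.maxGenEigenspace 1) = 1 := by
    rw [LinearMap.finrank_maxGenEigenspace_eq, h]
  have he0 : e₀ ∈ φ.maxGenEigenspace 1 := by
    rw [Module.End.mem_maxGenEigenspace]
    refine ⟨1, ?_⟩
    simp [hφ, he]
  have hv0 : v ∈ φ.maxGenEigenspace 1 := by
    rw [Module.End.mem_maxGenEigenspace]
    refine ⟨2, ?_⟩
    rw [pow_two]
    simpa [hφ] using hv
  have hne' : (⟨e₀, he0⟩ : φ.maxGenEigenspace 1) ≠ 0 := by
    intro h0
    exact hne (congrArg Subtype.val h0)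
  obtain ⟨c, hc⟩ := (finrank_eq_one_iff_of_nonzero' _ hne').mp hfr ⟨v, hv0⟩
  exact ⟨c, (congrArg Subtype.val hc).symm⟩

/-- The velocity of a non-constant periodic orbit with a fundamental solution is nonzero. -/
theorem velocity_ne_zero {f : S → S} {x : ℝ → S} {T : ℝ} (hf : ContDiff ℝ 1 f)
    (hx : IsPeriodicOrbit f x T) {Φ : ℝ → S →L[ℝ] S} (hΦ0 : Φ 0 = ContinuousLinearMap.id ℝ S)
    (hΦ : ∀ t, HasDerivAt Φ ((fderiv ℝ f (x t)).comp (Φ t)) t) :
    f (x 0) ≠ 0 ∧ Φ T (f (x 0)) = f (x 0) := by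
  have hT := hx.pos
  have : CompleteSpace S := FiniteDimensional.complete ℝ S
  have hxc : Continuous x := continuous_iff_continuousAt.mpr fun t => (hx.deriv t).continuousAt
  have hDf : Continuous (fderiv ℝ f) := hf.continuous_fderiv one_ne_zero
  have hfd : Differentiable ℝ f := hf.differentiable one_ne_zero
  have he' : ∀ t, HasDerivAt (fun t => f (x t)) (fderiv ℝ f (x t) (f (x t))) t := fun t =>
    (hfd (x t)).hasFDerivAt.comp_hasDerivAt t (hx.deriv t)
  obtain ⟨K0, hK0⟩ := (isCompact_Icc (a := (0 : ℝ)) (b := T)).exists_bound_of_continuousOn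
    (hDf.comp hxc).continuousOn
  have hΦe : ∀ t ∈ Icc (0 : ℝ) T, f (x t) = Φ t (f (x 0)) := by
    intro t ht
    have h := linear_zero (A := fun t => fderiv ℝ f (x t)) (v := fun t => f (x t) - Φ t (f (x 0)))
      (K := max K0 1) (lt_of_lt_of_le one_pos (le_max_right _ _)) hT.le
      (fun t ht => (hK0 t ht).trans (le_max_left _ _)) (by
      intro t
      have h1 := (he' t).fun_sub ((hΦ t).clm_apply (hasDerivAt_const t (f (x 0))))
      simpa using h1) (by simp [hΦ0]) t ht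
    exact sub_eq_zero.mp h
  constructor
  · intro h0
    -- then x is constant on [0,T], hence constant
    have h1 : ∀ t ∈ Icc (0 : ℝ) T, x t = x 0 := by
      intro t ht
      have hd : ∀ s ∈ Ico (0 : ℝ) T, HasDerivWithinAt x 0 (Ici s) s := by
        intro s hs
        have := hx.deriv s
        rw [hΦe s ⟨hs.1, hs.2.le⟩, h0, map_zero] at this
        exact this.hasDerivWithinAt
      exact constant_of_has_deriv_right_zero hxc.continuousOn hd t ht
    obtain ⟨t, ht⟩ := hx.nonconst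
    obtain ⟨s, hs1, hs2⟩ := Function.Periodic.exists_mem_Ico₀ (f := x) (c := T) hx.periodic hT t
    exact ht (by rw [hs2]; exact h1 s ⟨hs1.1, hs1.2.le⟩)
  · rw [← hΦe T ⟨hT.le, le_rfl⟩]
    have := hx.periodic 0
    rw [zero_add] at this
    rw [this]

/-- A continuous linear functional equal to `1` on a given nonzero vector. -/
theorem exists_functional (e₀ : S) (hne : e₀ ≠ 0) : ∃ ℓ : S →L[ℝ] ℝ, ℓ e₀ = 1 := by
  obtain ⟨g, hg⟩ := SeparatingDual.exists_eq_one (R := ℝ) hne
  exact ⟨g, hg⟩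

end Run7.h173
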