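import Mathlib
import Pool.Agent.Run7.h173.Core5
import Pool.Agent.Run7.h173.Spectral

/-!
# Core argument, part 6: normalisation of perturbed orbits and construction of the family
-/

open Set MeasureTheory intervalIntegral Filter Topology

namespace Run7.h173

section norm

variable {S : Type*} [NormedAddCommGroup S] [NormedSpace ℝ S]

/-- Normalisation of time scale and phase. -/
theorem exists_normalised {f : S → S} {x : ℝ → S} {T : ℝ} (hT : 0 < T)
    (hf : Continuous f) (hx : ∀ t, HasDerivAt x (f (x t)) t) (hper : ∀ t, x (t + T) = x t)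
    (ℓ : S →L[ℝ] ℝ) (hℓ : ℓ (f (x 0)) = 1) {η : ℝ} (hη : 0 < η) :
    ∃ η' > 0, ∀ (g : S → S) (y : ℝ → S) (T' : ℝ), IsPeriodicOrbit g y T' →
      OrbitClose x T y T' η' →
      ∃ (z : ℝ → S) (κ : ℝ), NOrb x T η ℓ g z κ ∧ ∀ t, ∃ t', z t = y t' := by
  have hxc : Continuous x := continuous_iff_continuousAt.mpr fun t => (hx t).continuousAt
  -- bound for the velocity
  obtain ⟨M₀, hM₀⟩ := isCompact_Icc.exists_bound_of_continuousOn (s := Icc (0 : ℝ) T)
    (f := fun s => f (x s)) (hf.comp hxc).continuousOn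
  set M := max M₀ 1 with hM
  have hM0 : 0 < M := lt_of_lt_of_le one_pos (le_max_right _ _)
  have hMall : ∀ t, ‖f (x t)‖ ≤ M := by
    intro t
    obtain ⟨s, hs1, hs2⟩ := Function.Periodic.exists_mem_Ico₀ (f := x) (c := T) hper hT t
    rw [hs2]
    exact (hM₀ s ⟨hs1.1, hs1.2.le⟩).trans (le_max_left _ _)
  have hlip : ∀ s t, ‖x s - x t‖ ≤ M * |s - t| := by
    intro s t
    have := convex_univ.norm_image_sub_le_of_norm_hasDerivWithin_le (f := x)
      (f' := fun t => f (x t)) (s := univ) (C := M) (x := t) (y := s)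
      (fun t _ => (hx t).hasDerivWithinAt) (fun t _ => hMall t) (mem_univ _) (mem_univ _)
    simpa [Real.norm_eq_abs] using this
  -- the phase function
  have hφ : HasDerivAt (fun s => ℓ (x s)) 1 0 := by
    have := ℓ.hasFDerivAt.comp_hasDerivAt 0 (hx 0)
    rw [hℓ] at this
    exact this
  have hlo := hφ.isLittleO
  rw [Asymptotics.isLittleO_iff] at hlo
  have hev := hlo (by norm_num : (0 : ℝ) < 1 / 2)
  rw [Metric.eventually_nhds_iff] at hev
  obtain ⟨δ, hδ, hev⟩ := hev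
  set s₀ := min (δ / 2) (η / (2 * M)) with hs₀
  have hs₀0 : 0 < s₀ := by positivity
  have hs₀1 : s₀ < δ := (min_le_left _ _).trans_lt (by linarith)
  have hs₀2 : M * s₀ ≤ η / 2 := by
    calc M * s₀ ≤ M * (η / (2 * M)) := by gcongr; exact min_le_right _ _
      _ = η / 2 := by field_simp
  have hp1 : s₀ / 2 ≤ ℓ (x s₀) - ℓ (x 0) := by
    have h1 := hev (y := s₀) (by rw [dist_zero_right, Real.norm_eq_abs, abs_of_pos hs₀0]; exact hs₀1)
    simp only [sub_zero, smul_eq_mul, mul_one, Real.norm_eq_abs, abs_of_pos hs₀0] at h1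
    rw [abs_le] at h1
    linarith [h1.1]
  have hp2 : ℓ (x (-s₀)) - ℓ (x 0) ≤ -(s₀ / 2) := by
    have h1 := hev (y := -s₀)
      (by rw [dist_zero_right, Real.norm_eq_abs, abs_neg, abs_of_pos hs₀0]; exact hs₀1)
    simp only [sub_zero, smul_eq_mul, mul_one, Real.norm_eq_abs, abs_neg, abs_of_pos hs₀0] at h1
    rw [abs_le] at h1
    linarith [h1.2]
  refine ⟨min (min (η / 2) (T * η)) (s₀ / (2 * (‖ℓ‖ + 1))), by positivity, ?_⟩
  intro g y T' hy hc
  obtain ⟨hT', hcl⟩ := hc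
  set η' := min (min (η / 2) (T * η)) (s₀ / (2 * (‖ℓ‖ + 1))) with hη'
  have hη'1 : η' ≤ η / 2 := (min_le_left _ _).trans (min_le_left _ _)
  have hη'2 : η' ≤ T * η := (min_le_left _ _).trans (min_le_right _ _)
  have hη'3 : η' ≤ s₀ / (2 * (‖ℓ‖ + 1)) := min_le_right _ _
  have hη'0 : 0 < η' := by positivity
  set k := T' / T with hk
  set w : ℝ → S := fun t => y (k * t) with hw
  have hwd : ∀ t, HasDerivAt w (k • g (w t)) t := by
    intro t
    have h1 : HasDerivAt (fun t : ℝ => k * t) k t := by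
      simpa using (hasDerivAt_id t).const_mul k
    exact (hy.deriv (k * t)).scomp t h1
  have hwT : ∀ t, w (t + T) = w t := by
    intro t
    have h1 : k * (t + T) = k * t + T' := by
      rw [hk]; field_simp
    simp only [hw]
    rw [h1, hy.periodic]
  have hwx : ∀ t, ‖w t - x t‖ < η' := by
    intro t
    have h1 := hcl (t / T)
    have h2 : T' * (t / T) = k * t := by rw [hk]; ring
    have h3 : T * (t / T) = t := by field_simp
    rw [h2, h3] at h1
    exact h1
  have hwc : Continuous w := continuous_iff_continuousAt.mpr fun t => (hwd t).continuousAt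
  have hℓb : ∀ t, |ℓ (w t) - ℓ (x t)| < s₀ / 2 := by
    intro t
    rw [← map_sub]
    calc |ℓ (w t - x t)| ≤ ‖ℓ‖ * ‖w t - x t‖ := ℓ.le_opNorm _
      _ ≤ ‖ℓ‖ * η' := by gcongr; exact (hwx t).le
      _ < (‖ℓ‖ + 1) * η' := by gcongr; linarith
      _ ≤ (‖ℓ‖ + 1) * (s₀ / (2 * (‖ℓ‖ + 1))) := by gcongr
      _ = s₀ / 2 := by
        have : ‖ℓ‖ + 1 ≠ 0 := by positivity
        field_simp
  -- intermediate value
  obtain ⟨s, hs, hs0⟩ : ∃ s ∈ Icc (-s₀) s₀, ℓ (w s) - ℓ (x 0) = 0 := by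
    have h1 := hℓb s₀
    have h2 := hℓb (-s₀)
    rw [abs_lt] at h1 h2
    have hcont : ContinuousOn (fun s => ℓ (w s) - ℓ (x 0)) (Icc (-s₀) s₀) :=
      ((ℓ.continuous.comp hwc).sub continuous_const).continuousOn
    have h3 := intermediate_value_Icc (by linarith : -s₀ ≤ s₀) hcont
    have h4 : (0 : ℝ) ∈ Icc (ℓ (w (-s₀)) - ℓ (x 0)) (ℓ (w s₀) - ℓ (x 0)) := by
      constructor
      · linarith [h2.2]
      · linarith [h1.1]
    obtain ⟨s, hs, hs0⟩ := h3 h4
    exact ⟨s, hs, hs0⟩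
  refine ⟨fun t => w (t + s), k - 1, ⟨?_, ?_, ?_, ?_, ?_⟩, ?_⟩
  · intro t
    have h1 := (hwd (t + s)).comp_add_const t s
    rw [add_sub_cancel]
    exact h1
  · intro t
    have h1 : t + T + s = t + s + T := by ring
    change w (t + T + s) = w (t + s)
    rw [h1, hwT]
  · intro t
    have h1 : |t + s - t| ≤ s₀ := by
      rw [add_sub_cancel_left, abs_le]
      exact ⟨hs.1, hs.2⟩
    calc ‖w (t + s) - x t‖ = ‖(w (t + s) - x (t + s)) + (x (t + s) - x t)‖ := by congr 1; abel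
      _ ≤ ‖w (t + s) - x (t + s)‖ + ‖x (t + s) - x t‖ := norm_add_le _ _
      _ ≤ η' + M * s₀ := by
          refine add_le_add (hwx _).le ((hlip _ _).trans ?_)
          gcongr
      _ ≤ η := by linarith
  · have h1 : k - 1 = (T' - T) / T := by rw [hk]; field_simp
    rw [h1, abs_div, abs_of_pos hT, div_le_iff₀ hT]
    linarith [hT'.le]
  · simp only [zero_add]
    rw [map_sub]
    exact hs0
  · intro t
    exact ⟨k * (t + s), rfl⟩

end norm

variable {G : Network} {W : Type*} [NormedAddCommGroup W] [NormedSpace ℝ W]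

/-- A uniform separation constant for the non-synchronous nodes. -/
theorem exists_sep {P : StateSpaces G W} (cmp : G.Node → G.Node → Prop) (x : ℝ → P.State) :
    ∃ η > 0, ∀ c d, cmp c d → (∃ t, (x t c : W) ≠ x t d) →
      ∃ t, 2 * η ≤ ‖(x t c : W) - x t d‖ := by
  obtain ⟨η, hη, h⟩ := fin_uniform (fun (k : G.Node × G.Node) (η : ℝ) =>
    (∃ t, (x t k.1 : W) ≠ x t k.2) → ∃ t, 2 * η ≤ ‖(x t k.1 : W) - x t k.2‖)
    (fun k r s _ hsr h hk => by
      obtain ⟨t, ht⟩ := h hk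
      exact ⟨t, by linarith⟩) (by
      intro k
      by_cases hk : ∃ t, (x t k.1 : W) ≠ x t k.2
      · obtain ⟨t, ht⟩ := hk
        have hpos : 0 < ‖(x t k.1 : W) - x t k.2‖ := norm_pos_iff.mpr (sub_ne_zero.mpr ht)
        exact ⟨‖(x t k.1 : W) - x t k.2‖ / 2, by positivity, fun _ => ⟨t, by linarith⟩⟩
      · exact ⟨1, one_pos, fun h => absurd h hk⟩)
  exact ⟨η, hη, fun c d _ => h (c, d)⟩

variable [FiniteDimensional ℝ W]

/-- Balance of the pattern, from normalised orbits for all nearby vector fields of a suitable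
class which keep the pattern. -/
theorem balanced_of_norb {P : StateSpaces G W} (adm : (P.State → P.State) → Prop)
    (adm_add : ∀ (g p : P.State → P.State) (ε : ℝ), adm g → P.IsStronglyAdmissible p →
      adm (fun y => g y + ε • p y)) (adm_ok : ∀ g, adm g → P.IsAdmissible g)
    {f : P.State → P.State} (hf : adm f)
    {x : ℝ → P.State} {T : ℝ} (hx : IsPeriodicOrbit f x T)
    {Φ : ℝ → P.State →L[ℝ] P.State} (hΦ0 : Φ 0 = ContinuousLinearMap.id ℝ P.State)
    (hΦ : ∀ t, HasDerivAt Φ ((fderiv ℝ f (x t)).comp (Φ t)) t)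
    (ℓ : P.State →L[ℝ] ℝ) (hℓ : ℓ (f (x 0)) = 1)
    (hs : ∀ v, Φ T (Φ T v - v) - (Φ T v - v) = 0 → ∃ c : ℝ, v = c • f (x 0))
    (cmp : G.Node → G.Node → Prop) (hcmp : ∀ c d, G.sameNodeType c d → cmp c d)
    (hrig : ∀ η > 0, ∃ δ > 0, ∀ g, adm g →
      Ball f δ g → ∃ (z : ℝ → P.State) (κ : ℝ), NOrb x T η ℓ g z κ ∧
        ∀ c d, cmp c d → (∀ t, (x t c : W) = x t d) → ∀ t, (z t c : W) = z t d)
    (c d : G.Node) (hcd : cmp c d) (hxcd : ∀ t, (x t c : W) = x t d) :
    ∃ β : G.InputIso c d, ∀ a, cmp (G.src a) (G.src (β.toEquiv a)) ∧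
      ∀ t, (x t (G.src a) : W) = x t (G.src (β.toEquiv a)) := by
  have hfC := (adm_ok f hf).1
  obtain ⟨C, L, η₀, hC, hL, hη₀, hη₀2, hlip, hest⟩ := apriori hx.pos hfC hx.deriv hx.periodic
    hΦ0 hΦ ℓ hℓ hs
  obtain ⟨ηs, hηs, hsep⟩ := exists_sep cmp x
  obtain ⟨δ, hδ, hfam⟩ := hrig (min η₀ (ηs / 2)) (by positivity)
  have hfam' : ∀ g, (adm g ∧ Ball f (min δ η₀) g) → ∃ (z : ℝ → P.State) (κ : ℝ),
      NOrb x T (min η₀ (ηs / 2)) ℓ g z κ ∧
        ∀ c d, cmp c d → (∀ t, (x t c : W) = x t d) → ∀ t, (z t c : W) = z t d :=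
    fun g hg => hfam g hg.1 (hg.2.mono (min_le_left _ _))
  choose! z κ hz using hfam'
  have hnear : ∀ g, Ball f (min δ η₀) g → NearC1 f g η₀ := by
    rintro g ⟨r, hr, h⟩
    exact h.mono (hr.le.trans (min_le_right _ _))
  let Fam : OrbitFamily P :=
    { f := f, adm := adm, hf := hf, adm_add := adm_add, adm_ok := adm_ok, T := T,
      δ := min δ η₀, C := C, L := L, hT := hx.pos,
      hδ := lt_min hδ hη₀, hC := hC, hL := hL, z := z, κ := κ
      deriv := fun g hg hb => (hz g ⟨hg, hb⟩).1.deriv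
      kap := fun g hg hb => ((hz g ⟨hg, hb⟩).1.kap.trans (min_le_left _ _)).trans hη₀2
      lip := fun g g' hg hb hg' hb' t => hlip g (hnear g hb) t _ _
        (((hz g ⟨hg, hb⟩).1.close t).trans (min_le_left _ _))
        (((hz g' ⟨hg', hb'⟩).1.close t).trans (min_le_left _ _))
      est := fun g g' hg hb hg' hb' t => by
        have h1 := hest g g' (z g) (z g') (κ g) (κ g') (hnear g hb) (hnear g' hb')
          ((hz g ⟨hg, hb⟩).1.mono (min_le_left _ _)) ((hz g' ⟨hg', hb'⟩).1.mono (min_le_left _ _)) t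
        exact le_trans (le_add_of_nonneg_right (abs_nonneg _)) h1 }
  refine Fam.conclusion cmp hcmp x ηs hsep ?_ ?_ c d hcd hxcd
  · intro g hg t
    have h1 := (hz g hg).1.close t
    have h2 : min η₀ (ηs / 2) < ηs := (min_le_right _ _).trans_lt (by linarith)
    exact h1.trans_lt h2
  · intro g hg c d hcd h t
    exact (hz g hg).2 c d hcd h t

end Run7.h173
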