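import Mathlib
import Pool.Agent.Run7.h173.Apriori

/-!
# Solvability of the linear inhomogeneous periodic problem
-/

open Set MeasureTheory intervalIntegral

namespace Run7.h173

variable {S : Type*} [NormedAddCommGroup S] [NormedSpace ℝ S]

/-- A continuous periodic function on the line with values in a normed space is bounded. -/
theorem periodic_bound {E : Type*} [SeminormedAddCommGroup E] {F : ℝ → E} (hF : Continuous F)
    {T : ℝ} (hT : 0 < T) (hper : ∀ t, F (t + T) = F t) : ∃ K, ∀ t, ‖F t‖ ≤ K := by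
  obtain ⟨K, hK⟩ := isCompact_Icc.exists_bound_of_continuousOn (s := Icc (0 : ℝ) T)
    hF.continuousOn
  refine ⟨K, fun t => ?_⟩
  obtain ⟨s, hs1, hs2⟩ := Function.Periodic.exists_mem_Ico₀ (f := F) (c := T) hper hT t
  rw [hs2]
  exact hK s ⟨hs1.1, hs1.2.le⟩

/-- Uniqueness for linear equations on the whole line. -/
theorem linear_zero_all {A : ℝ → S →L[ℝ] S} {K : ℝ} (hA : ∀ t, ‖A t‖ ≤ K) {v : ℝ → S}
    (hv : ∀ t, HasDerivAt v (A t (v t)) t) {t₀ : ℝ} (h0 : v t₀ = 0) (t : ℝ) : v t = 0 := by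
  have hK0 : 0 ≤ K := (norm_nonneg _).trans (hA 0)
  have h := ODE_solution_unique_univ (v := fun t y => A t y) (s := fun _ => univ) (K := ⟨K, hK0⟩)
    (f := v) (g := fun _ => 0) (t₀ := t₀) (fun t => by
      apply LipschitzWith.lipschitzOnWith
      refine LipschitzWith.of_dist_le_mul fun y y' => ?_
      rw [dist_eq_norm, dist_eq_norm, ← map_sub]
      refine ((A t).le_opNorm _).trans ?_
      exact mul_le_mul_of_nonneg_right (hA t) (norm_nonneg _))
    (fun t => ⟨hv t, mem_univ _⟩) (fun t => ⟨by simpa using hasDerivAt_const t (0 : S), mem_univ _⟩) h0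
  exact congrFun h t

/-- Surjectivity of the bordered monodromy operator. -/
theorem bordered_surj [FiniteDimensional ℝ S] (M : S →L[ℝ] S) (e₀ : S) (ℓ : S →L[ℝ] ℝ)
    (he : M e₀ = e₀) (hℓ : ℓ e₀ = 1)
    (hs : ∀ v, M (M v - v) - (M v - v) = 0 → ∃ c : ℝ, v = c • e₀) (u : S) :
    ∃ (w : S) (k : ℝ), ℓ w = 0 ∧ M w - w + k • e₀ = u := by
  obtain ⟨c, hc, hb⟩ := bordered_bound M e₀ ℓ he hℓ hs
  let L : (S × ℝ) →ₗ[ℝ] (S × ℝ) :=
    { toFun := fun p => (M p.1 - p.1 + p.2 • e₀, ℓ p.1)
      map_add' := by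
        intro p q
        ext
        · simp [add_smul]; abel
        · simp
      map_smul' := by
        intro r p
        ext
        · simp [smul_sub, smul_smul]
        · simp }
  have hinj : Function.Injective L := by
    rw [injective_iff_map_eq_zero]
    rintro ⟨w, k⟩ hw
    have h1 : M w - w + k • e₀ = 0 := congrArg Prod.fst hw
    have h2 : ℓ w = 0 := congrArg Prod.snd hw
    have h3 := hb w k h2
    rw [h1, norm_zero, mul_zero] at h3
    have h4 : ‖w‖ ≤ 0 := by linarith [abs_nonneg k]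
    have h5 : |k| ≤ 0 := by linarith [norm_nonneg w]
    rw [norm_le_zero_iff.mp h4, abs_nonpos_iff.mp h5]
    rfl
  obtain ⟨⟨w, k⟩, hwk⟩ := LinearMap.injective_iff_surjective.mp hinj (u, 0)
  exact ⟨w, k, congrArg Prod.snd hwk, congrArg Prod.fst hwk⟩

/-- Solvability of the linear periodic problem. -/
theorem linear_periodic_solve [FiniteDimensional ℝ S] {A : ℝ → S →L[ℝ] S} {e : ℝ → S} {T : ℝ}
    {Φ : ℝ → S →L[ℝ] S} (hT : 0 < T) (hAc : Continuous A) (hAT : ∀ t, A (t + T) = A t)
    (hΦ0 : Φ 0 = ContinuousLinearMap.id ℝ S)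
    (hΦ : ∀ t, HasDerivAt Φ ((A t).comp (Φ t)) t) (he : ∀ t, HasDerivAt e (A t (e t)) t)
    (heT : ∀ t, e (t + T) = e t) (ℓ : S →L[ℝ] ℝ) (hℓ : ℓ (e 0) = 1)
    (hs : ∀ v, Φ T (Φ T v - v) - (Φ T v - v) = 0 → ∃ c : ℝ, v = c • e 0)
    (R : ℝ → S) (hR : Continuous R) (hRT : ∀ t, R (t + T) = R t) :
    ∃ (w : ℝ → S) (k : ℝ), (∀ t, HasDerivAt w (A t (w t) + k • e t + R t) t) ∧
      (∀ t, w (t + T) = w t) ∧ ℓ (w 0) = 0 := by
  have : CompleteSpace S := FiniteDimensional.complete ℝ S
  obtain ⟨K, hK⟩ := periodic_bound hAc hT hAT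
  -- invertibility of Φ
  have hinj : ∀ t, Function.Injective (Φ t) := by
    intro t
    rw [injective_iff_map_eq_zero]
    intro v hv
    have h := linear_zero_all hK (v := fun s => Φ s v) (fun s => by
      simpa using (hΦ s).clm_apply (hasDerivAt_const s v)) (t₀ := t) hv 0
    simpa [hΦ0] using h
  have hunit : ∀ t, IsUnit (Φ t) := by
    intro t
    rw [ContinuousLinearMap.isUnit_iff_bijective]
    refine ⟨hinj t, ?_⟩
    exact (LinearMap.injective_iff_surjective (f := ((Φ t : S →L[ℝ] S) : S →ₗ[ℝ] S))).mp (hinj t)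
  have hΦc : Continuous Φ := continuous_iff_continuousAt.mpr fun t => (hΦ t).continuousAt
  have hinvc : Continuous fun t => Ring.inverse (Φ t) := by
    rw [continuous_iff_continuousAt]
    intro t
    obtain ⟨u, hu⟩ := hunit t
    have h1 := NormedRing.inverse_continuousAt u
    rw [hu] at h1
    exact h1.comp hΦc.continuousAt
  have hinv : ∀ t v, Φ t (Ring.inverse (Φ t) v) = v := by
    intro t v
    have h1 := Ring.mul_inverse_cancel (Φ t) (hunit t)
    have h2 := DFunLike.congr_fun h1 v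
    simpa using h2
  -- variation of constants
  set J : ℝ → S := fun s => Ring.inverse (Φ s) (R s) with hJ
  have hJc : Continuous J := hinvc.clm_apply hR
  set v : ℝ → S := fun t => Φ t (∫ s in (0 : ℝ)..t, J s) with hv
  have hv' : ∀ t, HasDerivAt v (A t (v t) + R t) t := by
    intro t
    have h1 : HasDerivAt (fun t => ∫ s in (0 : ℝ)..t, J s) (J t) t :=
      (hJc.integral_hasStrictDerivAt 0 t).hasDerivAt
    have h2 := (hΦ t).clm_apply h1
    convert h2 using 1
    simp only [hv, hJ, ContinuousLinearMap.comp_apply, hinv]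
  have hv0 : v 0 = 0 := by simp [hv]
  have hΦe : ∀ t, e t = Φ t (e 0) := by
    intro t
    have h := linear_zero_all hK (v := fun t => e t - Φ t (e 0)) (fun t => by
      have h1 := (he t).fun_sub ((hΦ t).clm_apply (hasDerivAt_const t (e 0)))
      simpa using h1) (t₀ := 0) (by simp [hΦ0]) t
    exact sub_eq_zero.mp h
  have heT0 : e T = e 0 := by
    have := heT 0
    rwa [zero_add] at this
  have hMe : Φ T (e 0) = e 0 := by rw [← hΦe T, heT0]
  obtain ⟨w₀, k', hw₀, hk'⟩ := bordered_surj (Φ T) (e 0) ℓ hMe hℓ hs (-(v T))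
  set k := k' / T with hk
  have hkT : k * T = k' := by rw [hk]; field_simp
  set w : ℝ → S := fun t => Φ t w₀ + (k * t) • e t + v t with hw
  have hw' : ∀ t, HasDerivAt w (A t (w t) + k • e t + R t) t := by
    intro t
    have h1 := (((hΦ t).clm_apply (hasDerivAt_const t w₀)).fun_add
      ((((hasDerivAt_id' t).const_mul k)).fun_smul (he t))).fun_add (hv' t)
    convert h1 using 1
    simp only [hw, map_add, map_smul, ContinuousLinearMap.comp_apply, map_zero, mul_one]
    abel
  have hw0 : w 0 = w₀ := by simp [hw, hΦ0, hv0]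
  have hwT : w T = w 0 := by
    rw [hw0]
    simp only [hw, heT0, hkT]
    rw [← sub_eq_zero]
    have h1 : Φ T w₀ + k' • e 0 + v T - w₀ = (Φ T w₀ - w₀ + k' • e 0) + v T := by abel
    rw [h1, hk']
    abel
  refine ⟨w, k, hw', ?_, by rw [hw0]; exact hw₀⟩
  intro t
  have h := linear_zero_all hK (v := fun t => w (t + T) - w t) (fun t => by
    have h1 := ((hw' (t + T)).comp_add_const t T).fun_sub (hw' t)
    rw [hAT, heT, hRT] at h1
    convert h1 using 1
    rw [map_sub]
    abel) (t₀ := 0) (by simp [hwT]) t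
  exact sub_eq_zero.mp h

end Run7.h173
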