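import Mathlib
import Pool.Agent.Run7.h173.LinSolve
import Pool.Agent.Run7.h173.Nonlin

/-!
# Persistence of hyperbolic periodic orbits
-/

open Set MeasureTheory intervalIntegral

namespace Run7.h173

variable {S : Type*} [NormedAddCommGroup S] [NormedSpace ℝ S]

/-- The nonlinear remainder is Lipschitz with small constant near the orbit. -/
theorem local_est [FiniteDimensional ℝ S] {f : S → S} {x : ℝ → S} {T : ℝ} (hT : 0 < T)
    (hf : ContDiff ℝ 1 f) (hx : ∀ t, HasDerivAt x (f (x t)) t) (hper : ∀ t, x (t + T) = x t)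
    {q : ℝ} (hq : 0 < q) :
    ∃ η₀, 0 < η₀ ∧ η₀ ≤ 1 / 2 ∧ ∀ g, NearC1 f g η₀ → ∀ (t : ℝ) (w₁ w₂ : S) (κ₁ κ₂ : ℝ),
      ‖w₁‖ ≤ η₀ → ‖w₂‖ ≤ η₀ → |κ₁| ≤ η₀ → |κ₂| ≤ η₀ →
      ‖((1 + κ₂) • g (x t + w₂) - fderiv ℝ f (x t) w₂ - κ₂ • f (x t)) -
        ((1 + κ₁) • g (x t + w₁) - fderiv ℝ f (x t) w₁ - κ₁ • f (x t))‖ ≤
        q * (‖w₂ - w₁‖ + |κ₂ - κ₁|) := by
  have hxc : Continuous x := continuous_iff_continuousAt.mpr fun t => (hx t).continuousAt
  have hDf : Continuous (fderiv ℝ f) := hf.continuous_fderiv one_ne_zero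
  set A : ℝ → S →L[ℝ] S := fun t => fderiv ℝ f (x t) with hA
  have hAc : Continuous A := hDf.comp hxc
  have hcomp : IsCompact (x '' Icc 0 T) := isCompact_Icc.image hxc
  have hmem : ∀ t, x t ∈ x '' Icc 0 T := by
    intro t
    obtain ⟨s, hs1, hs2⟩ := Function.Periodic.exists_mem_Ico₀ (f := x) (c := T) hper hT t
    exact ⟨s, ⟨hs1.1, hs1.2.le⟩, hs2.symm⟩
  obtain ⟨K0, hK0⟩ := hcomp.exists_bound_of_continuousOn hDf.continuousOn
  set K := max K0 1 with hKdef
  have hK1 : 1 ≤ K := le_max_right _ _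
  have hK : ∀ t, ‖A t‖ ≤ K := fun t => (hK0 _ (hmem t)).trans (le_max_left _ _)
  set ε := min (q / 4) 1 with hε
  have hε0 : 0 < ε := by positivity
  have hε1 : ε ≤ 1 := min_le_right _ _
  have hε2 : ε ≤ q / 4 := min_le_left _ _
  obtain ⟨η1, hη1, hmod⟩ : ∃ η1 > 0, ∀ t y, ‖y - x t‖ ≤ η1 →
      ‖fderiv ℝ f y - A t‖ ≤ ε := by
    have h := hcomp.uniformContinuousAt_of_continuousAt (fderiv ℝ f)
      (fun a _ => hDf.continuousAt) (Metric.dist_mem_uniformity hε0)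
    obtain ⟨η, hη, h2⟩ := Metric.mem_uniformity_dist.mp h
    refine ⟨η / 2, by positivity, ?_⟩
    intro t y hy
    have h3 : dist (x t) y < η := by
      rw [dist_comm, dist_eq_norm]; linarith
    have h4 := h2 h3 (hmem t)
    have h5 : dist (fderiv ℝ f (x t)) (fderiv ℝ f y) < ε := h4
    rw [dist_comm, dist_eq_norm] at h5
    exact h5.le
  set η₀ := min (min η1 (1 / 2)) (q / (2 * (K + 3))) with hη₀
  have hη₀0 : 0 < η₀ := by positivity
  have hη₀1 : η₀ ≤ η1 := (min_le_left _ _).trans (min_le_left _ _)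
  have hη₀2 : η₀ ≤ 1 / 2 := (min_le_left _ _).trans (min_le_right _ _)
  have hη₀3 : η₀ * (K + 3) ≤ q / 2 := by
    have : η₀ ≤ q / (2 * (K + 3)) := min_le_right _ _
    calc η₀ * (K + 3) ≤ q / (2 * (K + 3)) * (K + 3) := by gcongr
      _ = q / 2 := by field_simp
  have hloc : ∀ g, NearC1 f g η₀ → ∀ t y₁ y₂, ‖y₁ - x t‖ ≤ η₀ → ‖y₂ - x t‖ ≤ η₀ →
      ‖g y₂ - g y₁ - A t (y₂ - y₁)‖ ≤ (ε + η₀) * ‖y₂ - y₁‖ := by
    intro g hg t y₁ y₂ h1 h2
    have hconv : Convex ℝ (Metric.closedBall (x t) η₀) := convex_closedBall _ _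
    refine hconv.norm_image_sub_le_of_norm_fderiv_le' (𝕜 := ℝ) (f := g)
      (fun y _ => (hg.contDiff.differentiable one_ne_zero) y) ?_ ?_ ?_
    · intro y hy
      rw [mem_closedBall_iff_norm] at hy
      calc ‖fderiv ℝ g y - A t‖ = ‖(fderiv ℝ f y - A t) + (fderiv ℝ g y - fderiv ℝ f y)‖ := by
            congr 1; abel
        _ ≤ ‖fderiv ℝ f y - A t‖ + ‖fderiv ℝ g y - fderiv ℝ f y‖ := norm_add_le _ _
        _ ≤ ε + η₀ := add_le_add (hmod t y (hy.trans hη₀1)) (hg.nearD y)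
    · rwa [mem_closedBall_iff_norm]
    · rwa [mem_closedBall_iff_norm]
  refine ⟨η₀, hη₀0, hη₀2, ?_⟩
  intro g hg t w₁ w₂ κ₁ κ₂ hw₁ hw₂ hκ₁ hκ₂
  have hdec : ((1 + κ₂) • g (x t + w₂) - fderiv ℝ f (x t) w₂ - κ₂ • f (x t)) -
        ((1 + κ₁) • g (x t + w₁) - fderiv ℝ f (x t) w₁ - κ₁ • f (x t)) =
      (1 + κ₂) • (g (x t + w₂) - g (x t + w₁) - A t ((x t + w₂) - (x t + w₁))) +
      κ₂ • A t (w₂ - w₁) + (κ₂ - κ₁) • (g (x t + w₁) - f (x t)) := by
    have h1 : (x t + w₂) - (x t + w₁) = w₂ - w₁ := by abel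
    rw [h1]
    simp only [hA, map_sub]
    module
  have hy₁ : ‖(x t + w₁) - x t‖ ≤ η₀ := by rwa [add_sub_cancel_left]
  have hy₂ : ‖(x t + w₂) - x t‖ ≤ η₀ := by rwa [add_sub_cancel_left]
  have ha : ‖g (x t + w₂) - g (x t + w₁) - A t ((x t + w₂) - (x t + w₁))‖ ≤
      (ε + η₀) * ‖w₂ - w₁‖ := by
    have h1 := hloc g hg t (x t + w₁) (x t + w₂) hy₁ hy₂
    have h2 : (x t + w₂) - (x t + w₁) = w₂ - w₁ := by abel
    rw [h2] at h1 ⊢
    exact h1
  have hb : ‖A t (w₂ - w₁)‖ ≤ K * ‖w₂ - w₁‖ :=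
    ((A t).le_opNorm _).trans (mul_le_mul_of_nonneg_right (hK t) (norm_nonneg _))
  have hc : ‖g (x t + w₁) - f (x t)‖ ≤ η₀ * (K + 3) := by
    have h3 := hloc f ⟨hf, fun y => by simpa using hη₀0.le, fun y => by simpa using hη₀0.le⟩ t
      (x t) (x t + w₁) (by simpa using hη₀0.le) hy₁
    rw [add_sub_cancel_left] at h3
    calc ‖g (x t + w₁) - f (x t)‖ = ‖(g (x t + w₁) - f (x t + w₁)) +
          (f (x t + w₁) - f (x t) - A t w₁) + A t w₁‖ := by
          congr 1; abel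
      _ ≤ ‖g (x t + w₁) - f (x t + w₁)‖ + ‖f (x t + w₁) - f (x t) - A t w₁‖ +
          ‖A t w₁‖ := norm_add₃_le
      _ ≤ η₀ + (ε + η₀) * ‖w₁‖ + K * ‖w₁‖ := by
          gcongr
          · exact hg.near _
          · exact ((A t).le_opNorm _).trans (by gcongr; exact hK t)
      _ ≤ η₀ + (ε + η₀) * η₀ + K * η₀ := by gcongr
      _ ≤ η₀ * (K + 3) := by nlinarith
  have h1k : |1 + κ₂| ≤ 2 := by
    calc |1 + κ₂| ≤ |1| + |κ₂| := abs_add_le _ _
      _ ≤ 2 := by rw [abs_one]; linarith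
  rw [hdec]
  calc ‖(1 + κ₂) • (g (x t + w₂) - g (x t + w₁) - A t ((x t + w₂) - (x t + w₁))) +
      κ₂ • A t (w₂ - w₁) + (κ₂ - κ₁) • (g (x t + w₁) - f (x t))‖
      ≤ ‖(1 + κ₂) • (g (x t + w₂) - g (x t + w₁) - A t ((x t + w₂) - (x t + w₁)))‖ +
      ‖κ₂ • A t (w₂ - w₁)‖ + ‖(κ₂ - κ₁) • (g (x t + w₁) - f (x t))‖ := norm_add₃_le
    _ ≤ 2 * ((ε + η₀) * ‖w₂ - w₁‖) + η₀ * (K * ‖w₂ - w₁‖) + |κ₂ - κ₁| * (η₀ * (K + 3)) := by
        rw [norm_smul, norm_smul, norm_smul, Real.norm_eq_abs, Real.norm_eq_abs, Real.norm_eq_abs]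
        gcongr
    _ = (2 * ε + η₀ * (K + 2)) * ‖w₂ - w₁‖ + (η₀ * (K + 3)) * |κ₂ - κ₁| := by ring
    _ ≤ q * ‖w₂ - w₁‖ + q * |κ₂ - κ₁| := by
        gcongr
        · have : η₀ * (K + 2) ≤ η₀ * (K + 3) := by gcongr; linarith
          linarith
        · linarith
    _ = q * (‖w₂ - w₁‖ + |κ₂ - κ₁|) := by ring

/-- Persistence of hyperbolic periodic orbits under `C¹` small perturbations. -/
theorem persistence [FiniteDimensional ℝ S] {f : S → S} {x : ℝ → S} {T : ℝ} (hT : 0 < T)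
    (hf : ContDiff ℝ 1 f) (hx : ∀ t, HasDerivAt x (f (x t)) t) (hper : ∀ t, x (t + T) = x t)
    {Φ : ℝ → S →L[ℝ] S} (hΦ0 : Φ 0 = ContinuousLinearMap.id ℝ S)
    (hΦ : ∀ t, HasDerivAt Φ ((fderiv ℝ f (x t)).comp (Φ t)) t)
    (ℓ : S →L[ℝ] ℝ) (hℓ : ℓ (f (x 0)) = 1)
    (hs : ∀ v, Φ T (Φ T v - v) - (Φ T v - v) = 0 → ∃ c : ℝ, v = c • f (x 0))
    {η : ℝ} (hη : 0 < η) :
    ∃ δ > 0, ∀ g, NearC1 f g δ → ∃ (z : ℝ → S) (κ : ℝ), NOrb x T η ℓ g z κ := by
  have : CompleteSpace S := FiniteDimensional.complete ℝ S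
  have hxc : Continuous x := continuous_iff_continuousAt.mpr fun t => (hx t).continuousAt
  have hDf : Continuous (fderiv ℝ f) := hf.continuous_fderiv one_ne_zero
  have hfd : Differentiable ℝ f := hf.differentiable one_ne_zero
  set A : ℝ → S →L[ℝ] S := fun t => fderiv ℝ f (x t) with hA
  have hAc : Continuous A := hDf.comp hxc
  have hAT : ∀ t, A (t + T) = A t := fun t => by simp only [hA, hper]
  set e : ℝ → S := fun t => f (x t) with he
  have hec : Continuous e := hf.continuous.comp hxc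
  have he' : ∀ t, HasDerivAt e (A t (e t)) t := fun t =>
    (hfd (x t)).hasFDerivAt.comp_hasDerivAt t (hx t)
  have heTall : ∀ t, e (t + T) = e t := fun t => by simp only [he, hper]
  have heT : e T = e 0 := by simp only [he]; rw [← hper 0, zero_add]
  obtain ⟨C0, hC0, hlin⟩ := linear_periodic_bound hT hAc hΦ0 hΦ he' heT ℓ hℓ hs
  obtain ⟨η₀, hη₀, hη₀2, hloc⟩ := local_est hT hf hx hper (q := 1 / (4 * C0 * T)) (by positivity)
  set r := min η η₀ with hr
  have hr0 : 0 < r := lt_min hη hη₀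
  have hrη : r ≤ η := min_le_left _ _
  have hrη₀ : r ≤ η₀ := min_le_right _ _
  refine ⟨min η₀ (r / (2 * C0 * T)), by positivity, ?_⟩
  intro g hg
  have hg0 : NearC1 f g η₀ := hg.mono (min_le_left _ _)
  have hgn : ∀ y, ‖g y - f y‖ ≤ r / (2 * C0 * T) := fun y => (hg.near y).trans (min_le_right _ _)
  have hgc : Continuous g := hg.contDiff.continuous
  -- the space
  let X := BoundedContinuousFunction ℝ S × ℝ
  have hnn : ∀ p : X, 0 ≤ ‖p‖ := fun p => norm_nonneg (E := BoundedContinuousFunction ℝ S × ℝ) p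
  let Rem : X → ℝ → S := fun p t =>
    (1 + p.2) • g (x t + p.1 t) - A t (p.1 t) - p.2 • e t - e t
  have hRemc : ∀ p, Continuous (Rem p) := by
    intro p
    have h1 : Continuous fun t => g (x t + p.1 t) := hgc.comp (hxc.add p.1.continuous)
    exact (((h1.const_smul _).sub (hAc.clm_apply p.1.continuous)).sub (hec.const_smul _)).sub hec
  let s : Set X := {p | ∀ t, p.1 (t + T) = p.1 t} ∩ Metric.closedBall 0 r
  have hsclosed : IsClosed s := by
    apply IsClosed.inter _ Metric.isClosed_closedBall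
    have h1 : {p : X | ∀ t, p.1 (t + T) = p.1 t} = ⋂ t, {p : X | p.1 (t + T) = p.1 t} := by
      ext p; simp
    rw [h1]
    refine isClosed_iInter fun t => ?_
    exact isClosed_eq ((continuous_eval_const (t + T)).comp continuous_fst)
      ((continuous_eval_const t).comp continuous_fst)
  have hsmem : ∀ p ∈ s, (∀ t, p.1 (t + T) = p.1 t) ∧ (∀ t, ‖p.1 t‖ ≤ r) ∧ |p.2| ≤ r := by
    intro p hp
    have h1 : ‖p‖ ≤ r := by simpa using hp.2
    refine ⟨hp.1, fun t => (p.1.norm_coe_le_norm t).trans ((norm_fst_le p).trans h1), ?_⟩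
    rw [← Real.norm_eq_abs]
    exact (norm_snd_le p).trans h1
  have hRemT : ∀ p ∈ s, ∀ t, Rem p (t + T) = Rem p t := by
    intro p hp t
    simp only [Rem, hper, hAT, heTall, (hsmem p hp).1]
  -- the solution operator
  have hsol : ∀ p ∈ s, ∃ p' : X, (∀ t, HasDerivAt p'.1 (A t (p'.1 t) + p'.2 • e t + Rem p t) t) ∧
      (∀ t, p'.1 (t + T) = p'.1 t) ∧ ℓ (p'.1 0) = 0 := by
    intro p hp
    obtain ⟨w, k, h1, h2, h3⟩ := linear_periodic_solve hT hAc hAT hΦ0 hΦ he' heTall ℓ hℓ hs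
      (Rem p) (hRemc p) (hRemT p hp)
    have hwc : Continuous w := continuous_iff_continuousAt.mpr fun t => (h1 t).continuousAt
    obtain ⟨B, hB⟩ := periodic_bound hwc hT h2
    exact ⟨(BoundedContinuousFunction.ofNormedAddCommGroup w hwc B hB, k), h1, h2, h3⟩
  choose! F hF using hsol
  -- contraction estimate
  have hcon : ∀ p ∈ s, ∀ p' ∈ s, ‖F p' - F p‖ ≤ 1 / 2 * ‖p' - p‖ := by
    intro p hp p' hp'
    obtain ⟨hp1, hp2, hp3⟩ := hsmem p hp
    obtain ⟨hp1', hp2', hp3'⟩ := hsmem p' hp'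
    obtain ⟨a1, a2, a3⟩ := hF p hp
    obtain ⟨b1, b2, b3⟩ := hF p' hp'
    have hR : ∀ t, ‖Rem p' t - Rem p t‖ ≤ 1 / (4 * C0 * T) * (2 * ‖p' - p‖) := by
      intro t
      have h1 := hloc g hg0 t (p.1 t) (p'.1 t) p.2 p'.2 ((hp2 t).trans hrη₀) ((hp2' t).trans hrη₀)
        (hp3.trans hrη₀) (hp3'.trans hrη₀)
      have h2 : Rem p' t - Rem p t =
          ((1 + p'.2) • g (x t + p'.1 t) - fderiv ℝ f (x t) (p'.1 t) - p'.2 • f (x t)) -
          ((1 + p.2) • g (x t + p.1 t) - fderiv ℝ f (x t) (p.1 t) - p.2 • f (x t)) := by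
        simp only [Rem, hA, he]; abel
      rw [h2]
      refine h1.trans ?_
      gcongr
      have h3 : ‖p'.1 t - p.1 t‖ ≤ ‖p' - p‖ := by
        have : p'.1 t - p.1 t = (p' - p).1 t := rfl
        rw [this]
        exact ((p' - p).1.norm_coe_le_norm t).trans (norm_fst_le _)
      have h4 : |p'.2 - p.2| ≤ ‖p' - p‖ := by
        rw [← Real.norm_eq_abs]
        exact norm_snd_le (p' - p)
      linarith
    have hlin' := hlin (fun t => (F p').1 t - (F p).1 t) (fun t => Rem p' t - Rem p t)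
      ((F p').2 - (F p).2) ((hRemc p').sub (hRemc p)) (fun t => by
        have h1 := (b1 t).fun_sub (a1 t)
        convert h1 using 1
        rw [map_sub, sub_smul]
        abel) (by
        have h1 := a2 0
        have h2 := b2 0
        rw [zero_add] at h1 h2
        simp only [h1, h2]) (by rw [map_sub, a3, b3, sub_zero])
    have hint : ∫ t in (0 : ℝ)..T, ‖Rem p' t - Rem p t‖ ≤ 1 / (2 * C0) * ‖p' - p‖ := by
      calc ∫ t in (0 : ℝ)..T, ‖Rem p' t - Rem p t‖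
          ≤ ∫ t in (0 : ℝ)..T, 1 / (4 * C0 * T) * (2 * ‖p' - p‖) := by
            apply intervalIntegral.integral_mono_on hT.le
            · exact ((hRemc p').sub (hRemc p)).norm.intervalIntegrable _ _
            · exact continuous_const.intervalIntegrable _ _
            · intro t _; exact hR t
        _ = T * (1 / (4 * C0 * T) * (2 * ‖p' - p‖)) := by
            rw [intervalIntegral.integral_const, sub_zero, smul_eq_mul]
        _ = 1 / (2 * C0) * ‖p' - p‖ := by field_simp; ring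
    have hbd : ∀ t ∈ Icc (0 : ℝ) T, ‖(F p').1 t - (F p).1 t‖ + |(F p').2 - (F p).2| ≤
        1 / 2 * ‖p' - p‖ := by
      intro t ht
      refine (hlin' t ht).trans ?_
      calc C0 * ∫ t in (0 : ℝ)..T, ‖Rem p' t - Rem p t‖ ≤ C0 * (1 / (2 * C0) * ‖p' - p‖) := by
            gcongr
        _ = 1 / 2 * ‖p' - p‖ := by field_simp
    rw [Prod.norm_def]
    apply max_le
    · rw [BoundedContinuousFunction.norm_le (mul_nonneg (by norm_num) (hnn _))]
      intro t
      change ‖(F p').1 t - (F p).1 t‖ ≤ _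
      obtain ⟨t', ht1, ht2⟩ := Function.Periodic.exists_mem_Ico₀
        (f := fun t => (F p').1 t - (F p).1 t) (c := T)
        (fun t => by simp only [a2, b2]) hT t
      have h1 := hbd t' ⟨ht1.1, ht1.2.le⟩
      have h2 : (F p').1 t - (F p).1 t = (F p').1 t' - (F p).1 t' := ht2
      rw [h2]
      linarith [abs_nonneg ((F p').2 - (F p).2)]
    · have h1 := hbd 0 ⟨le_rfl, hT.le⟩
      have h2 : ‖(F p' - F p).2‖ = |(F p').2 - (F p).2| := rfl
      rw [h2]
      linarith [norm_nonneg ((F p').1 0 - (F p).1 0)]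
  -- the value at zero
  have h0s : (0 : X) ∈ s := by
    refine ⟨fun t => rfl, ?_⟩
    simpa using hr0.le
  have hF0 : ‖F 0‖ ≤ r / 2 := by
    obtain ⟨a1, a2, a3⟩ := hF 0 h0s
    have hRem0 : ∀ t, ‖Rem 0 t‖ ≤ r / (2 * C0 * T) := by
      intro t
      have h1 : Rem 0 t = g (x t) - f (x t) := by
        simp [Rem, he]
      rw [h1]
      exact hgn _
    have hlin' := hlin (F 0).1 (Rem 0) (F 0).2 (hRemc 0) a1 (by
        have h1 := a2 0
        rwa [zero_add] at h1) a3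
    have hint : ∫ t in (0 : ℝ)..T, ‖Rem 0 t‖ ≤ r / (2 * C0) := by
      calc ∫ t in (0 : ℝ)..T, ‖Rem 0 t‖ ≤ ∫ t in (0 : ℝ)..T, r / (2 * C0 * T) := by
            apply intervalIntegral.integral_mono_on hT.le
            · exact (hRemc 0).norm.intervalIntegrable _ _
            · exact continuous_const.intervalIntegrable _ _
            · intro t _; exact hRem0 t
        _ = T * (r / (2 * C0 * T)) := by
            rw [intervalIntegral.integral_const, sub_zero, smul_eq_mul]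
        _ = r / (2 * C0) := by field_simp
    have hbd : ∀ t ∈ Icc (0 : ℝ) T, ‖(F 0).1 t‖ + |(F 0).2| ≤ r / 2 := by
      intro t ht
      refine (hlin' t ht).trans ?_
      calc C0 * ∫ t in (0 : ℝ)..T, ‖Rem 0 t‖ ≤ C0 * (r / (2 * C0)) := by gcongr
        _ = r / 2 := by field_simp
    rw [Prod.norm_def]
    apply max_le
    · rw [BoundedContinuousFunction.norm_le (by positivity)]
      intro t
      obtain ⟨t', ht1, ht2⟩ := Function.Periodic.exists_mem_Ico₀
        (f := (F 0).1) (c := T) a2 hT t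
      have h1 := hbd t' ⟨ht1.1, ht1.2.le⟩
      rw [ht2]
      linarith [abs_nonneg (F 0).2]
    · have h1 := hbd 0 ⟨le_rfl, hT.le⟩
      have h2 : ‖(F 0).2‖ = |(F 0).2| := rfl
      rw [h2]
      linarith [norm_nonneg ((F 0).1 0)]
  have hmaps : MapsTo F s s := by
    intro p hp
    refine ⟨(hF p hp).2.1, ?_⟩
    rw [mem_closedBall_zero_iff]
    have h1 := hcon 0 h0s p hp
    have h2 : ‖p‖ ≤ r := by simpa using hp.2
    rw [sub_zero] at h1
    calc ‖F p‖ = ‖(F p - F 0) + F 0‖ := by rw [sub_add_cancel]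
      _ ≤ ‖F p - F 0‖ + ‖F 0‖ := norm_add_le _ _
      _ ≤ 1 / 2 * r + r / 2 := by
          refine add_le_add (h1.trans ?_) hF0
          gcongr
      _ = r := by ring
  have hcontr : ContractingWith (1 / 2 : NNReal) (hmaps.restrict F s s) := by
    refine ⟨by norm_num, LipschitzWith.of_dist_le_mul fun p p' => ?_⟩
    rw [Subtype.dist_eq, Subtype.dist_eq, dist_comm, dist_eq_norm, dist_comm, dist_eq_norm]
    have := hcon p.1 p.2 p'.1 p'.2
    simpa using this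
  obtain ⟨p, hp, hfix, -⟩ := hcontr.exists_fixedPoint' hsclosed.isComplete hmaps h0s
    (edist_ne_top _ _)
  have hfix' : F p = p := hfix
  obtain ⟨a1, a2, a3⟩ := hF p hp
  rw [hfix'] at a1 a2 a3
  obtain ⟨hp1, hp2, hp3⟩ := hsmem p hp
  refine ⟨fun t => x t + p.1 t, p.2, ⟨?_, ?_, ?_, ?_, ?_⟩⟩
  · intro t
    have h1 := (hx t).fun_add (a1 t)
    convert h1 using 1
    simp only [Rem, he]
    abel
  · intro t
    change x (t + T) + p.1 (t + T) = x t + p.1 t
    rw [hper, a2]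
  · intro t
    rw [add_sub_cancel_left]
    exact (hp2 t).trans hrη
  · exact hp3.trans hrη
  · rw [add_sub_cancel_left]
    exact a3

end Run7.h173
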