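import Mathlib
import Pool.Agent.Run7.h173.Defs

/-!
# Synchrony patterns, rigidity and balance
-/

namespace Run7.h173

variable {G : Network} {W : Type*} [NormedAddCommGroup W] [NormedSpace ℝ W]
  (P : StateSpaces G W)

/-- The synchrony pattern of the curve `x`: `c ⋈ d` iff `x_c(t) = x_d(t)` for all `t`, where only
pairs of nodes with `cmp c d` are compared. -/
def StateSpaces.Pattern (cmp : G.Node → G.Node → Prop) (x : ℝ → P.State) (c d : G.Node) : Prop :=
  cmp c d ∧ ∀ t, (x t c : W) = (x t d : W)

/-- The synchrony pattern of the `T`-periodic orbit `x` of `f` is rigid: there are `η > 0` and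
`δ > 0` such that for every vector field `g = f + p` with `p` strongly admissible which is
`δ`-close to `f` in the `C¹` sense, every periodic orbit `y` of `g` which is `η`-close to `x`
satisfies `y_c(t) = y_d(t)` for all `t` whenever `c ⋈ d`. -/
def StateSpaces.IsRigid (cmp : G.Node → G.Node → Prop) (f : P.State → P.State)
    (x : ℝ → P.State) (T : ℝ) : Prop :=
  ∃ η > 0, ∃ δ > 0, ∀ p : P.State → P.State, P.IsStronglyAdmissible p →
    C1Close f (fun s => f s + p s) δ →
    ∀ (y : ℝ → P.State) (T' : ℝ), IsPeriodicOrbit (fun s => f s + p s) y T' →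
      OrbitClose x T y T' η →
      ∀ c d, P.Pattern cmp x c d → P.Pattern cmp y c d

/-- A relation `R` on the nodes is balanced if, whenever `R c d`, there is an input isomorphism
`β : I(c) → I(d)` with `R (tail a) (tail (β a))` for all `a ∈ I(c)`. -/
def Network.IsBalanced (G : Network) (R : G.Node → G.Node → Prop) : Prop :=
  ∀ c d, R c d → ∃ β : G.InputIso c d, ∀ a : G.Inputs c, R (G.src a) (G.src (β.toEquiv a))

end Run7.h173
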