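import Mathlib
import Pool.Agent.Run7.h173.RigidDefs
import Pool.Agent.Run7.h173.Core6
import Pool.Agent.Run7.h173.Persist

/-!
# The rigid synchrony theorem
-/

open Set

namespace Run7.h173

section rescale

variable {S : Type*} [NormedAddCommGroup S] [NormedSpace ℝ S]

/-- A normalised periodic orbit, rescaled in time, is a periodic orbit near the original one. -/
theorem NOrb.rescale {x : ℝ → S} {T η : ℝ} {ℓ : S →L[ℝ] ℝ} {g : S → S} {z : ℝ → S} {κ : ℝ}
    (h : NOrb x T η ℓ g z κ) (hT : 0 < T) (hη1 : η < 1) {t₁ : ℝ}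
    (ht₁ : 2 * η < ‖x t₁ - x 0‖) {η' : ℝ} (hη' : η < η') (hηT : η * T < η') :
    IsPeriodicOrbit g (fun t => z ((1 + κ)⁻¹ * t)) ((1 + κ) * T) ∧
      OrbitClose x T (fun t => z ((1 + κ)⁻¹ * t)) ((1 + κ) * T) η' := by
  have hk := h.kap
  rw [abs_le] at hk
  have hk0 : 0 < 1 + κ := by linarith [hk.1]
  refine ⟨⟨by positivity, ?_, ?_, ?_⟩, ?_, ?_⟩
  · intro t
    have h1 : HasDerivAt (fun t : ℝ => (1 + κ)⁻¹ * t) (1 + κ)⁻¹ t := by
      simpa using (hasDerivAt_id t).const_mul (1 + κ)⁻¹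
    have h2 := (h.deriv ((1 + κ)⁻¹ * t)).scomp t h1
    rw [smul_smul, inv_mul_cancel₀ hk0.ne', one_smul] at h2
    exact h2
  · intro t
    have h1 : (1 + κ)⁻¹ * (t + (1 + κ) * T) = (1 + κ)⁻¹ * t + T := by
      field_simp
    simp only [h1, h.per]
  · refine ⟨(1 + κ) * t₁, ?_⟩
    have h1 : (1 + κ)⁻¹ * ((1 + κ) * t₁) = t₁ := by field_simp
    simp only [h1, mul_zero]
    intro heq
    have h2 : x t₁ - x 0 = (z 0 - x 0) - (z t₁ - x t₁) := by rw [heq]; abel
    have h3 : ‖x t₁ - x 0‖ ≤ ‖z 0 - x 0‖ + ‖z t₁ - x t₁‖ := by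
      rw [h2]; exact norm_sub_le _ _
    linarith [h.close 0, h.close t₁]
  · have h1 : (1 + κ) * T - T = κ * T := by ring
    rw [h1, abs_mul, abs_of_pos hT]
    refine lt_of_le_of_lt ?_ hηT
    gcongr
    exact h.kap
  · intro t
    have h1 : (1 + κ)⁻¹ * ((1 + κ) * T * t) = T * t := by field_simp
    simp only [h1]
    exact (h.close _).trans_lt hη'

end rescale

variable {G : Network} {W : Type*} [NormedAddCommGroup W] [NormedSpace ℝ W]
  [FiniteDimensional ℝ W]

/-- Every rigid synchrony pattern of a hyperbolic periodic orbit is balanced. -/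
theorem rigid_balanced (P : StateSpaces G W) {f : P.State → P.State} (hf : P.IsAdmissible f)
    {x : ℝ → P.State} {T : ℝ} (hx : IsPeriodicOrbit f x T) (hh : IsHyperbolic f x T)
    (cmp : G.Node → G.Node → Prop) (hcmp : ∀ c d, G.sameNodeType c d → cmp c d)
    (hr : P.IsRigid cmp f x T) : G.IsBalanced (P.Pattern cmp x) := by
  obtain ⟨Φ, hΦ0, hΦ, hmult, -⟩ := hh
  have hfC := hf.1
  have hT := hx.pos
  obtain ⟨hv, hΦv⟩ := velocity_ne_zero hfC hx hΦ0 hΦ
  obtain ⟨ℓ, hℓ⟩ := exists_functional (f (x 0)) hv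
  have hs := gen_of_simple (Φ T) hmult (f (x 0)) hΦv hv
  obtain ⟨ηr, hηr, δr, hδr, hrig⟩ := hr
  obtain ⟨t₁, ht₁⟩ := hx.nonconst
  have hm : 0 < ‖x t₁ - x 0‖ := norm_pos_iff.mpr (sub_ne_zero.mpr ht₁)
  rintro c d ⟨hcd, hxcd⟩
  refine balanced_of_norb (P := P) (fun g => P.IsStronglyAdmissible (fun s => g s - f s)) ?_ ?_
    (f := f) ?_ hx hΦ0 hΦ ℓ hℓ hs cmp hcmp ?_ c d hcd hxcd
  · intro g p ε hg hp
    have h1 := StateSpaces.IsStronglyAdmissible.add P hg
      (StateSpaces.IsStronglyAdmissible.smul P hp ε)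
    have h2 : (fun s => g s + ε • p s - f s) = fun s => (g s - f s) + ε • p s := by
      funext s; abel
    rw [h2]
    exact h1
  · intro g hg
    have h1 := StateSpaces.IsAdmissible.add P hf
      (StateSpaces.IsStronglyAdmissible.admissible P hg)
    have h2 : (fun s => f s + (g s - f s)) = g := by
      funext s; abel
    rw [h2] at h1
    exact h1
  · have h1 : (fun s => f s - f s) = fun _ : P.State => (0 : P.State) := by
      funext s; exact sub_self _
    rw [h1]
    refine ⟨fun c q => 0, fun c => contDiff_const, fun x c => rfl, fun c d β q q' _ => rfl⟩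
  · intro η hη
    set η' := min (min η (1 / 2)) (min (‖x t₁ - x 0‖ / 4) (min (ηr / 2) (ηr / (2 * T)))) with hη'
    have hη'0 : 0 < η' := by positivity
    have e1 : η' ≤ η := (min_le_left _ _).trans (min_le_left _ _)
    have e2 : η' ≤ 1 / 2 := (min_le_left _ _).trans (min_le_right _ _)
    have e3 : η' ≤ ‖x t₁ - x 0‖ / 4 := (min_le_right _ _).trans (min_le_left _ _)
    have e4 : η' ≤ ηr / 2 := (min_le_right _ _).trans ((min_le_right _ _).trans (min_le_left _ _))
    have e5 : η' ≤ ηr / (2 * T) :=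
      (min_le_right _ _).trans ((min_le_right _ _).trans (min_le_right _ _))
    have e6 : η' * T ≤ ηr / 2 := by
      calc η' * T ≤ ηr / (2 * T) * T := by gcongr
        _ = ηr / 2 := by field_simp
    obtain ⟨δ, hδ, hpers⟩ := persistence hT hfC hx.deriv hx.periodic hΦ0 hΦ ℓ hℓ hs hη'0
    refine ⟨min δ δr, lt_min hδ hδr, ?_⟩
    intro g hg hb
    obtain ⟨r, hr, hnear⟩ := hb
    obtain ⟨z, κ, hz⟩ := hpers g (hnear.mono (hr.le.trans (min_le_left _ _)))
    refine ⟨z, κ, hz.mono e1, ?_⟩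
    obtain ⟨ho, hc⟩ := hz.rescale hT (by linarith) (t₁ := t₁) (by linarith) (η' := ηr)
      (by linarith) (by linarith)
    have hgf : (fun s => f s + (g s - f s)) = g := by
      funext s; abel
    have hpat := hrig (fun s => g s - f s) hg (by
      rw [hgf]
      intro y
      exact ⟨(hnear.near y).trans_lt (hr.trans_le (min_le_right _ _)),
        (hnear.nearD y).trans_lt (hr.trans_le (min_le_right _ _))⟩)
      (fun t => z ((1 + κ)⁻¹ * t)) ((1 + κ) * T) (by rw [hgf]; exact ho) hc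
    intro c d hcd h t
    have h1 := (hpat c d ⟨hcd, h⟩).2 ((1 + κ) * t)
    have hk := hz.kap
    rw [abs_le] at hk
    have hk0 : 1 + κ ≠ 0 := by linarith [hk.1]
    have h2 : (1 + κ)⁻¹ * ((1 + κ) * t) = t := by field_simp
    simp only [h2] at h1
    exact h1

end Run7.h173
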